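import Pool.Agent.H48.OR.Basic

/-!
# OR-A1: one-dimensional layer cake form of Brunn-Minkowski
-/

set_option autoImplicit false

namespace Pool.Agent.H48.OR

open MeasureTheory Set

/-- a bounded, boundedly supported, measurable, quasi-concave function `ℝ → [0, m]` with supremum
`m` -/
structure Bump (α : ℝ → ℝ) (R m : ℝ) : Prop where
  meas : Measurable α
  nonneg : ∀ s, 0 ≤ α s
  le : ∀ s, α s ≤ m
  sup : ∀ μ, μ < m → ∃ s, μ < α s
  supp : ∀ s, α s ≠ 0 → |s| ≤ R
  quasi : ∀ r s t, r ≤ s → s ≤ t → min (α r) (α t) ≤ α s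

theorem A1_vol_le {S : Set ℝ} (hSn : S.Nonempty) (hSb : Bornology.IsBounded S) :
    (volume S).toReal ≤ sSup S - sInf S := by
  have hsub : S ⊆ Icc (sInf S) (sSup S) := by
    intro s hs
    exact ⟨csInf_le hSb.bddBelow hs, le_csSup hSb.bddAbove hs⟩
  have h1 : volume S ≤ ENNReal.ofReal (sSup S - sInf S) := by
    rw [← Real.volume_Icc]; exact measure_mono hsub
  have h2 : 0 ≤ sSup S - sInf S := by
    obtain ⟨s, hs⟩ := hSn
    have := hsub hs
    linarith [this.1, this.2]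
  exact ENNReal.toReal_le_of_le_ofReal h2 h1

/-- One-dimensional Brunn-Minkowski for intervals.
Proof: translate so that sup of `S` and inf of `T` are ... or simply: `S` is an interval with end
points `a ≤ b`, `T` with `c ≤ d`, and `U` contains the open interval `((a+c)/2, (b+d)/2)`
(choose sequences, or for `x` in the open interval write `x = (s+t)/2` with `s ∈ S`, `t ∈ T`). -/
theorem bm1 {S T U : Set ℝ} (hS : S.OrdConnected) (hT : T.OrdConnected) (hSn : S.Nonempty)
    (hTn : T.Nonempty) (hSb : Bornology.IsBounded S) (hTb : Bornology.IsBounded T)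
    (hUb : Bornology.IsBounded U) (h : ∀ s ∈ S, ∀ t ∈ T, (s + t) / 2 ∈ U) :
    ((volume S).toReal + (volume T).toReal) / 2 ≤ (volume U).toReal := by
  have hS1 := A1_vol_le hSn hSb
  have hT1 := A1_vol_le hTn hTb
  obtain ⟨s0, hs0⟩ := hSn
  obtain ⟨t0, ht0⟩ := hTn
  have hsub : Ioo ((sInf S + sInf T) / 2) ((sSup S + sSup T) / 2) ⊆ U := by
    intro x hx
    obtain ⟨hx1, hx2⟩ := hx
    obtain ⟨s1, hs1, t1, ht1, h1⟩ : ∃ s ∈ S, ∃ t ∈ T, (s + t) / 2 < x := by
      have hd : 0 < x - (sInf S + sInf T) / 2 := by linarith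
      obtain ⟨s, hs, hs'⟩ := exists_lt_of_csInf_lt (⟨s0, hs0⟩ : S.Nonempty)
        (show sInf S < sInf S + (x - (sInf S + sInf T) / 2) by linarith)
      obtain ⟨t, ht, ht'⟩ := exists_lt_of_csInf_lt (⟨t0, ht0⟩ : T.Nonempty)
        (show sInf T < sInf T + (x - (sInf S + sInf T) / 2) by linarith)
      exact ⟨s, hs, t, ht, by linarith⟩
    obtain ⟨s2, hs2, t2, ht2, h2⟩ : ∃ s ∈ S, ∃ t ∈ T, x < (s + t) / 2 := by
      have hd : 0 < (sSup S + sSup T) / 2 - x := by linarith
      obtain ⟨s, hs, hs'⟩ := exists_lt_of_lt_csSup (⟨s0, hs0⟩ : S.Nonempty)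
        (show sSup S - ((sSup S + sSup T) / 2 - x) < sSup S by linarith)
      obtain ⟨t, ht, ht'⟩ := exists_lt_of_lt_csSup (⟨t0, ht0⟩ : T.Nonempty)
        (show sSup T - ((sSup S + sSup T) / 2 - x) < sSup T by linarith)
      exact ⟨s, hs, t, ht, by linarith⟩
    have hpos : 0 < (s2 + t2) / 2 - (s1 + t1) / 2 := by linarith
    obtain ⟨l, hl⟩ : ∃ l : ℝ, l = (x - (s1 + t1) / 2) / ((s2 + t2) / 2 - (s1 + t1) / 2) := ⟨_, rfl⟩
    have hl0 : 0 ≤ l := by rw [hl]; apply div_nonneg <;> linarith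
    have hl1 : l ≤ 1 := by rw [hl, div_le_one hpos]; linarith
    have hlx : l * ((s2 + t2) / 2 - (s1 + t1) / 2) = x - (s1 + t1) / 2 := by
      rw [hl, div_mul_cancel₀ _ hpos.ne']
    have hsm : (1 - l) * s1 + l * s2 ∈ S := by
      have := hS.convex hs1 hs2 (sub_nonneg.2 hl1) hl0 (by ring)
      simpa using this
    have htm : (1 - l) * t1 + l * t2 ∈ T := by
      have := hT.convex ht1 ht2 (sub_nonneg.2 hl1) hl0 (by ring)
      simpa using this
    have := h _ hsm _ htm
    have heq : ((1 - l) * s1 + l * s2 + ((1 - l) * t1 + l * t2)) / 2 = x := by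
      linarith
    rwa [heq] at this
  have hUfin : volume U ≠ ⊤ := hUb.measure_lt_top.ne
  have h3 : (volume (Ioo ((sInf S + sInf T) / 2) ((sSup S + sSup T) / 2))).toReal ≤
      (volume U).toReal := ENNReal.toReal_mono hUfin (measure_mono hsub)
  rw [Real.volume_Ioo] at h3
  have h4 : (sSup S + sSup T) / 2 - (sInf S + sInf T) / 2 ≤
      (ENNReal.ofReal ((sSup S + sSup T) / 2 - (sInf S + sInf T) / 2)).toReal := by
    rw [ENNReal.toReal_ofReal']
    exact le_max_left _ _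
  linarith

theorem A1_fin {α : ℝ → ℝ} {R : ℝ} (hsupp : ∀ s, α s ≠ 0 → |s| ≤ R) {l : ℝ} (hl : 0 ≤ l) :
    volume {s | l < α s} ≠ ⊤ := by
  have hsub : {s | l < α s} ⊆ Icc (-R) R := by
    intro s hs
    have h1 : l < α s := hs
    exact abs_le.1 (hsupp s (ne_of_gt (lt_of_le_of_lt hl h1)))
  exact (lt_of_le_of_lt (measure_mono hsub) (by simp)).ne

theorem A1_anti (α : ℝ → ℝ) : Antitone fun l : ℝ => volume {s | l < α s} := by
  intro l l' h
  refine measure_mono fun s hs => ?_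
  exact lt_of_le_of_lt h hs

/-- Layer cake formula with an upper end point: for a measurable `0 ≤ α ≤ m` with bounded support,
`∫ α^k = ∫_0^m k λ^(k-1) |{α > λ}| dλ`.  (Mathlib: `lintegral_rpow_eq_lintegral_meas_lt_mul` or
`Integrable.integral_eq_integral_meas_lt`.) -/
theorem integral_pow_layer (k : ℕ) (hk : 1 ≤ k) {α : ℝ → ℝ} {R m : ℝ} (hm : 0 ≤ m)
    (hmeas : Measurable α) (h0 : ∀ s, 0 ≤ α s) (hle : ∀ s, α s ≤ m)
    (hsupp : ∀ s, α s ≠ 0 → |s| ≤ R) :
    ∫ s, α s ^ k = ∫ l in (0 : ℝ)..m, k * l ^ (k - 1) * (volume {s | l < α s}).toReal := by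
  have hk0 : (k : ℝ) ≠ 0 := by exact_mod_cast (by omega : k ≠ 0)
  have hfin : ∀ l : ℝ, 0 ≤ l → volume {s | l < α s} ≠ ⊤ := fun l hl => A1_fin hsupp hl
  have hg : ∀ y : ℝ, ∫ t in (0:ℝ)..y, (k:ℝ) * t ^ (k - 1) = y ^ k := by
    intro y
    rw [intervalIntegral.integral_const_mul, integral_pow]
    have h1 : k - 1 + 1 = k := by omega
    rw [h1]
    have h2 : ((k - 1 : ℕ) : ℝ) + 1 = k := by
      rw [Nat.cast_sub hk]; simp
    rw [h2, zero_pow (by omega)]
    field_simp
    ring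
  have hL := lintegral_comp_eq_lintegral_meas_lt_mul (volume : Measure ℝ) (f := α)
    (g := fun t => (k:ℝ) * t ^ (k - 1)) (Filter.Eventually.of_forall h0) hmeas.aemeasurable
    (fun t _ => by apply Continuous.intervalIntegrable; fun_prop)
    ((ae_restrict_iff' measurableSet_Ioi).2 (Filter.Eventually.of_forall fun t ht => by
      have : (0:ℝ) < t := ht
      positivity))
  simp only [hg] at hL
  rw [integral_eq_lintegral_of_nonneg_ae (Filter.Eventually.of_forall fun s => pow_nonneg (h0 s) k)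
    (hmeas.pow_const k).aestronglyMeasurable, hL]
  rw [intervalIntegral.integral_of_le hm]
  rw [integral_eq_lintegral_of_nonneg_ae]
  · congr 1
    have hun : Ioi (0:ℝ) = Ioc 0 m ∪ Ioi m := (Ioc_union_Ioi_eq_Ioi hm).symm
    rw [hun, lintegral_union measurableSet_Ioi (Set.disjoint_left.2 fun x hx hx2 =>
      absurd hx.2 (not_le.2 hx2))]
    have hz : ∫⁻ t in Ioi m, volume {a | t < α a} * ENNReal.ofReal ((k:ℝ) * t ^ (k - 1)) = 0 := by
      rw [setLIntegral_congr_fun measurableSet_Ioi (g := fun _ => (0 : ENNReal))]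
      · simp
      · intro t ht
        have : {a | t < α a} = ∅ := by
          ext a
          simp only [mem_ofPred_eq, mem_empty_iff_false, iff_false, not_lt]
          exact (hle a).trans (le_of_lt ht)
        simp [this]
    rw [hz, add_zero]
    refine setLIntegral_congr_fun measurableSet_Ioc fun t ht => ?_
    have ht0 : (0:ℝ) < t := ht.1
    have hp : (0:ℝ) ≤ (k:ℝ) * t ^ (k - 1) := by positivity
    change _ = ENNReal.ofReal ((k:ℝ) * t ^ (k - 1) * (volume {s | t < α s}).toReal)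
    rw [ENNReal.ofReal_mul (p := (k:ℝ) * t ^ (k - 1)) hp, ENNReal.ofReal_toReal (hfin t ht0.le),
      mul_comm]
  · refine (ae_restrict_iff' measurableSet_Ioc).2 (Filter.Eventually.of_forall fun t ht => ?_)
    have ht0 : (0:ℝ) < t := ht.1
    have : 0 ≤ (volume {s | t < α s}).toReal := ENNReal.toReal_nonneg
    simp only [Pi.zero_apply]
    positivity
  · exact (((measurable_const.mul (measurable_id.pow_const _)).mul
      (A1_anti α).measurable.ennreal_toReal)).aestronglyMeasurable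

theorem A1_scaled (k : ℕ) (hk : 1 ≤ k) {α : ℝ → ℝ} {R m : ℝ} (hm : 0 < m)
    (hmeas : Measurable α) (h0 : ∀ s, 0 ≤ α s) (hle : ∀ s, α s ≤ m)
    (hsupp : ∀ s, α s ≠ 0 → |s| ≤ R) :
    (∫ s, α s ^ k) / m ^ k =
      ∫ μ in (0 : ℝ)..1, k * μ ^ (k - 1) * (volume {s | μ * m < α s}).toReal := by
  rw [integral_pow_layer k hk hm.le hmeas h0 hle hsupp]
  have h1 := intervalIntegral.integral_comp_mul_right (a := 0) (b := 1)
    (fun l : ℝ => (k:ℝ) * l ^ (k - 1) * (volume {s | l < α s}).toReal) hm.ne'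
  rw [zero_mul, one_mul, smul_eq_mul] at h1
  have h2 : ∫ l in (0 : ℝ)..m, (k:ℝ) * l ^ (k - 1) * (volume {s | l < α s}).toReal =
      m * ∫ x in (0:ℝ)..1, (k:ℝ) * (x * m) ^ (k - 1) * (volume {s | x * m < α s}).toReal := by
    rw [h1]; field_simp
  rw [h2, ← intervalIntegral.integral_const_mul, div_eq_mul_inv,
    ← intervalIntegral.integral_mul_const]
  congr 1
  ext x
  obtain ⟨j, rfl⟩ : ∃ j, k = j + 1 := ⟨k - 1, by omega⟩
  simp only [Nat.add_sub_cancel]
  rw [mul_pow]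
  field_simp
  ring

theorem A1_integrable (k : ℕ) (hk : 1 ≤ k) {α : ℝ → ℝ} {R M : ℝ}
    (hmeas : Measurable α) (h0 : ∀ s, 0 ≤ α s) (hle : ∀ s, α s ≤ M)
    (hsupp : ∀ s, α s ≠ 0 → |s| ≤ R) : Integrable fun s => α s ^ k := by
  have h1 : IntegrableOn (fun s => α s ^ k) (Icc (-R) R) := by
    refine Measure.integrableOn_of_bounded (M := M ^ k) (by simp)
      (hmeas.pow_const k).aestronglyMeasurable (Filter.Eventually.of_forall fun s => ?_)
    rw [Real.norm_eq_abs, abs_of_nonneg (pow_nonneg (h0 s) k)]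
    exact pow_le_pow_left₀ (h0 s) (hle s) k
  refine (integrableOn_iff_integrable_of_support_subset ?_).1 h1
  intro s hs
  apply abs_le.1
  apply hsupp
  intro hz
  apply hs
  simp [hz, show k ≠ 0 by omega]

theorem A1_int (k : ℕ) {α : ℝ → ℝ} {R m : ℝ} (hm : 0 < m)
    (hsupp : ∀ s, α s ≠ 0 → |s| ≤ R) :
    IntervalIntegrable (fun μ : ℝ => k * μ ^ (k - 1) * (volume {s | μ * m < α s}).toReal)
      volume 0 1 := by
  have h1 : AntitoneOn (fun μ : ℝ => (volume {s | μ * m < α s}).toReal) (uIcc 0 1) := by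
    intro x hx y hy hxy
    rw [uIcc_of_le zero_le_one] at hx hy
    refine ENNReal.toReal_mono (A1_fin hsupp (mul_nonneg hx.1 hm.le)) ?_
    exact A1_anti α (mul_le_mul_of_nonneg_right hxy hm.le)
  exact (h1.intervalIntegrable).continuousOn_mul (by fun_prop)

theorem A1_oc {α : ℝ → ℝ} (hq : ∀ r s t, r ≤ s → s ≤ t → min (α r) (α t) ≤ α s) {l : ℝ} :
    ({s | l < α s}).OrdConnected := by
  constructor
  intro r hr t ht s hs
  exact lt_of_lt_of_le (lt_min hr ht) (hq r s t hs.1 hs.2)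

theorem A1_bdd {α : ℝ → ℝ} {R : ℝ} (hsupp : ∀ s, α s ≠ 0 → |s| ≤ R) {l : ℝ} (hl : 0 ≤ l) :
    Bornology.IsBounded {s | l < α s} := by
  refine (Metric.isBounded_Icc (-R) R).subset fun s hs => ?_
  have h1 : l < α s := hs
  exact abs_le.1 (hsupp s (ne_of_gt (lt_of_le_of_lt hl h1)))

/-- The layer cake form of the Brunn-Minkowski inequality.
Proof: with `X(l) = |{α > l}|`, `Y(l) = |{β > l}|`, `Z(l) = |{γ > l}|`, `m = (m₁+m₂)/2`, we have for
`μ ∈ (0,1)`: `Z(μ m) ≥ (X(μ m₁) + Y(μ m₂))/2` by `bm1` (both superlevel sets are nonempty and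
order connected).  Now `∫ γ^k ≥ ∫ min(γ, m)^k = m^k ∫_0^1 k μ^(k-1) Z(μ m) dμ` (for `l < m`,
`{min(γ,m) > l} = {γ > l}`), `∫ α^k = m₁^k ∫_0^1 k μ^(k-1) X(μ m₁) dμ`, the same for `β`. -/
theorem layer_cake (k : ℕ) (hk : 1 ≤ k) {α β γ : ℝ → ℝ} {R R' R'' m₁ m₂ M : ℝ}
    (hα : Bump α R m₁) (hβ : Bump β R' m₂) (hm₁ : 0 < m₁) (hm₂ : 0 < m₂)
    (hγ : Measurable γ) (hγ0 : ∀ s, 0 ≤ γ s) (hγM : ∀ s, γ s ≤ M)
    (hγs : ∀ s, γ s ≠ 0 → |s| ≤ R'')
    (hmid : ∀ s t, 0 < α s → 0 < β t → (α s + β t) / 2 ≤ γ ((s + t) / 2)) :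
    ((m₁ + m₂) / 2) ^ k * (((∫ s, α s ^ k) / m₁ ^ k + (∫ s, β s ^ k) / m₂ ^ k) / 2) ≤
      ∫ s, γ s ^ k := by
  obtain ⟨m, hm⟩ : ∃ m : ℝ, m = (m₁ + m₂) / 2 := ⟨_, rfl⟩
  rw [← hm]
  have hm0 : 0 < m := by rw [hm]; linarith
  have hA := A1_scaled k hk hm₁ hα.meas hα.nonneg hα.le hα.supp
  have hB := A1_scaled k hk hm₂ hβ.meas hβ.nonneg hβ.le hβ.supp
  have hC := A1_scaled k hk hm0 (α := fun s => min (γ s) m) (R := R'') (hγ.min measurable_const)
    (fun s => le_min (hγ0 s) hm0.le) (fun s => min_le_right _ _) (fun s hs => by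
      apply hγs
      intro h0
      apply hs
      rw [h0, min_eq_left hm0.le])
  have hγint : ∫ s, (min (γ s) m) ^ k ≤ ∫ s, γ s ^ k := by
    apply integral_mono
    · exact A1_integrable k hk (R := R'') (M := m) (hγ.min measurable_const)
        (fun s => le_min (hγ0 s) hm0.le) (fun s => min_le_right _ _) (fun s hs => by
        apply hγs
        intro h0
        apply hs
        rw [h0, min_eq_left hm0.le])
    · exact A1_integrable k hk (R := R'') (M := M) hγ hγ0 hγM hγs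
    · intro s
      exact pow_le_pow_left₀ (le_min (hγ0 s) hm0.le) (min_le_left _ _) k
  have hmk : 0 < m ^ k := by positivity
  have hIA := A1_int k hm₁ hα.supp
  have hIB := A1_int k hm₂ hβ.supp
  have hIC := A1_int k hm0 (α := fun s => min (γ s) m) (R := R'') (fun s hs => by
      apply hγs
      intro h0
      apply hs
      rw [h0, min_eq_left hm0.le])
  have hcmp : ((∫ s, α s ^ k) / m₁ ^ k + (∫ s, β s ^ k) / m₂ ^ k) / 2 ≤
      (∫ s, (min (γ s) m) ^ k) / m ^ k := by
    rw [hA, hB, hC, ← intervalIntegral.integral_add hIA hIB, div_eq_mul_inv,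
      ← intervalIntegral.integral_mul_const]
    apply intervalIntegral.integral_mono_on_of_le_Ioo zero_le_one
    · exact (hIA.add hIB).mul_const _
    · exact hIC
    · intro μ hμ
      obtain ⟨hμ0, hμ1⟩ := hμ
      have hb := bm1 (S := {s | μ * m₁ < α s}) (T := {s | μ * m₂ < β s})
        (U := {s | μ * m < min (γ s) m})
        (A1_oc hα.quasi) (A1_oc hβ.quasi)
        (hα.sup _ (by nlinarith)) (hβ.sup _ (by nlinarith))
        (A1_bdd hα.supp (by positivity)) (A1_bdd hβ.supp (by positivity))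
        (A1_bdd (α := fun s => min (γ s) m) (R := R'') (fun s hs => by
          apply hγs
          intro h0
          apply hs
          rw [h0, min_eq_left hm0.le]) (by positivity))
        (by
          intro s hs t ht
          simp only [mem_ofPred_eq] at hs ht ⊢
          have hs0 : 0 < α s := lt_of_le_of_lt (by positivity) hs
          have ht0 : 0 < β t := lt_of_le_of_lt (by positivity) ht
          have := hmid s t hs0 ht0
          apply lt_min
          · rw [hm]; nlinarith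
          · nlinarith)
      have hkp : (0:ℝ) ≤ k * μ ^ (k - 1) := by positivity
      have := mul_le_mul_of_nonneg_left hb hkp
      calc _ = (k:ℝ) * μ ^ (k - 1) * (((volume {s | μ * m₁ < α s}).toReal +
            (volume {s | μ * m₂ < β s}).toReal) / 2) := by ring
        _ ≤ _ := this
  calc m ^ k * (((∫ s, α s ^ k) / m₁ ^ k + (∫ s, β s ^ k) / m₂ ^ k) / 2)
      ≤ m ^ k * ((∫ s, (min (γ s) m) ^ k) / m ^ k) := mul_le_mul_of_nonneg_left hcmp hmk.le
    _ = ∫ s, (min (γ s) m) ^ k := by field_simp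
    _ ≤ _ := hγint

end Pool.Agent.H48.OR
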