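import Pool.Agent.H48.OR.A1

/-!
# OR-A2: planar Brunn-Minkowski inequality
-/

set_option autoImplicit false

namespace Pool.Agent.H48.OR

open MeasureTheory Set
open scoped Pointwise

/-- vertical section -/
def A2_sec (A : Set (ℝ × ℝ)) (s : ℝ) : Set ℝ := Prod.mk s ⁻¹' A

/-- length of the vertical section -/
noncomputable def A2_len (A : Set (ℝ × ℝ)) (s : ℝ) : ℝ := (volume (A2_sec A s)).toReal

theorem A2_mem {A : Set (ℝ × ℝ)} {s t : ℝ} : t ∈ A2_sec A s ↔ (s, t) ∈ A := Iff.rfl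

theorem A2_bd {A : Set (ℝ × ℝ)} (hA : Bornology.IsBounded A) :
    ∃ R : ℝ, 0 ≤ R ∧ ∀ s t, (s, t) ∈ A → |s| ≤ R ∧ |t| ≤ R := by
  obtain ⟨R, hR⟩ := (Metric.isBounded_iff_subset_closedBall (0 : ℝ × ℝ)).1 hA
  refine ⟨|R|, abs_nonneg _, fun s t h => ?_⟩
  have h1 := hR h
  rw [mem_closedBall_zero_iff] at h1
  have h2 : |s| ≤ ‖((s, t) : ℝ × ℝ)‖ := norm_fst_le ((s, t) : ℝ × ℝ)
  have h3 : |t| ≤ ‖((s, t) : ℝ × ℝ)‖ := norm_snd_le ((s, t) : ℝ × ℝ)
  have h4 := le_abs_self R
  exact ⟨by linarith, by linarith⟩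

theorem A2_sec_bounded {A : Set (ℝ × ℝ)} (hA : Bornology.IsBounded A) (s : ℝ) :
    Bornology.IsBounded (A2_sec A s) := by
  obtain ⟨R, -, hR⟩ := A2_bd hA
  refine (Metric.isBounded_iff_subset_closedBall (0 : ℝ)).2 ⟨R, fun t ht => ?_⟩
  rw [mem_closedBall_zero_iff]
  exact (hR s t ht).2

theorem A2_sec_lt_top {A : Set (ℝ × ℝ)} (hA : Bornology.IsBounded A) (s : ℝ) :
    volume (A2_sec A s) < ⊤ :=
  (A2_sec_bounded hA s).measure_lt_top

theorem A2_len_nonneg (A : Set (ℝ × ℝ)) (s : ℝ) : 0 ≤ A2_len A s := ENNReal.toReal_nonneg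

theorem A2_len_meas {A : Set (ℝ × ℝ)} (hA : MeasurableSet A) : Measurable (A2_len A) :=
  (measurable_measure_prodMk_left hA).ennreal_toReal

theorem A2_area_eq {A : Set (ℝ × ℝ)} (hA : IsCompact A) : area A = ∫ s, A2_len A s := by
  unfold area A2_len A2_sec
  rw [integral_toReal (measurable_measure_prodMk_left hA.measurableSet).aemeasurable
    (Filter.Eventually.of_forall fun s => A2_sec_lt_top hA.isBounded s)]
  rw [Measure.volume_eq_prod, Measure.prod_apply hA.measurableSet]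

theorem A2_len_le {A : Set (ℝ × ℝ)} {R : ℝ} (hR0 : 0 ≤ R)
    (hR : ∀ s t, (s, t) ∈ A → |s| ≤ R ∧ |t| ≤ R) (s : ℝ) : A2_len A s ≤ 2 * R := by
  have h1 : A2_sec A s ⊆ Icc (-R) R := fun t ht => abs_le.1 (hR s t ht).2
  have h2 : volume (A2_sec A s) ≤ ENNReal.ofReal (2 * R) := by
    refine (measure_mono h1).trans ?_
    rw [Real.volume_Icc]
    exact ENNReal.ofReal_le_ofReal (by linarith)
  calc A2_len A s ≤ (ENNReal.ofReal (2 * R)).toReal :=
        ENNReal.toReal_mono ENNReal.ofReal_ne_top h2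
    _ = 2 * R := ENNReal.toReal_ofReal (by linarith)

theorem A2_nonempty_of_pos {A : Set (ℝ × ℝ)} {s : ℝ} (h : A2_len A s ≠ 0) :
    (A2_sec A s).Nonempty := by
  by_contra hc
  rw [not_nonempty_iff_eq_empty] at hc
  apply h
  unfold A2_len
  rw [hc]
  simp

theorem A2_sec_convex {A : Set (ℝ × ℝ)} (hA : Convex ℝ A) (s : ℝ) : Convex ℝ (A2_sec A s) := by
  intro x hx y hy a b ha hb hab
  have h := hA hx hy ha hb hab
  have h2 : a • ((s, x) : ℝ × ℝ) + b • ((s, y) : ℝ × ℝ) = (s, a • x + b • y) := by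
    ext
    · simp only [Prod.fst_add, Prod.smul_fst, smul_eq_mul]
      rw [← add_mul, hab, one_mul]
    · simp
  rw [h2] at h
  exact h

/-- weighted one-dimensional inequality -/
theorem A2_bm1w {S T U : Set ℝ} (hS : Convex ℝ S) (hT : Convex ℝ T) (hSn : S.Nonempty)
    (hTn : T.Nonempty) (hSb : Bornology.IsBounded S) (hTb : Bornology.IsBounded T)
    (hUb : Bornology.IsBounded U) {a b : ℝ} (ha : 0 ≤ a) (hb : 0 ≤ b)
    (h : ∀ s ∈ S, ∀ t ∈ T, a * s + b * t ∈ U) :
    a * (volume S).toReal + b * (volume T).toReal ≤ (volume U).toReal := by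
  have h1 := bm1 (S := (2 * a) • S) (T := (2 * b) • T) (U := U)
    (hS.smul (2 * a)).ordConnected (hT.smul (2 * b)).ordConnected hSn.smul_set hTn.smul_set
    (hSb.smul₀ (2 * a)) (hTb.smul₀ (2 * b)) hUb ?_
  · rw [Measure.addHaar_smul, Measure.addHaar_smul] at h1
    simp only [Module.finrank_self, pow_one, ENNReal.toReal_mul] at h1
    rw [ENNReal.toReal_ofReal (abs_nonneg _), ENNReal.toReal_ofReal (abs_nonneg _),
      abs_of_nonneg (by linarith : 0 ≤ 2 * a), abs_of_nonneg (by linarith : 0 ≤ 2 * b)] at h1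
    linarith
  · rintro s ⟨s', hs', rfl⟩ t ⟨t', ht', rfl⟩
    have h2 := h s' hs' t' ht'
    have h3 : ((fun x => (2 * a) • x) s' + (fun x => (2 * b) • x) t') / 2 = a * s' + b * t' := by
      simp only [smul_eq_mul]
      ring
    rw [h3]
    exact h2

theorem A2_quasi {A : Set (ℝ × ℝ)} (hA : Convex ℝ A) (hAc : IsCompact A) {r s t : ℝ}
    (hrs : r ≤ s) (hst : s ≤ t) : min (A2_len A r) (A2_len A t) ≤ A2_len A s := by
  by_cases hr0 : A2_len A r = 0
  · rw [hr0]
    exact (min_le_left _ _).trans (A2_len_nonneg _ _)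
  by_cases ht0 : A2_len A t = 0
  · rw [ht0]
    exact (min_le_right _ _).trans (A2_len_nonneg _ _)
  rcases eq_or_lt_of_le (hrs.trans hst) with h | h
  · have : r = s := le_antisymm hrs (by linarith)
    rw [this]
    exact min_le_left _ _
  -- weights
  have hd : 0 < t - r := by linarith
  set a : ℝ := (t - s) / (t - r) with ha
  set b : ℝ := (s - r) / (t - r) with hb
  have ha0 : 0 ≤ a := div_nonneg (by linarith) hd.le
  have hb0 : 0 ≤ b := div_nonneg (by linarith) hd.le
  have hab : a + b = 1 := by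
    rw [ha, hb]
    field_simp
    ring
  have hs : a * r + b * t = s := by
    rw [ha, hb]
    field_simp
    ring
  have hb' := hAc.isBounded
  have h1 := A2_bm1w (A2_sec_convex hA r) (A2_sec_convex hA t) (A2_nonempty_of_pos hr0)
    (A2_nonempty_of_pos ht0) (A2_sec_bounded hb' r) (A2_sec_bounded hb' t)
    (A2_sec_bounded hb' s) ha0 hb0 (fun x hx y hy => by
      have h := hA hx hy ha0 hb0 hab
      have h2 : a • ((r, x) : ℝ × ℝ) + b • ((t, y) : ℝ × ℝ) = (s, a * x + b * y) := by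
        ext
        · simp only [Prod.fst_add, Prod.smul_fst, smul_eq_mul]
          exact hs
        · simp
      rw [h2] at h
      exact h)
  have h2 : min (A2_len A r) (A2_len A t) ≤ a * A2_len A r + b * A2_len A t := by
    have e1 := min_le_left (A2_len A r) (A2_len A t)
    have e2 := min_le_right (A2_len A r) (A2_len A t)
    calc min (A2_len A r) (A2_len A t)
        = a * min (A2_len A r) (A2_len A t) + b * min (A2_len A r) (A2_len A t) := by
          rw [← add_mul, hab, one_mul]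
      _ ≤ a * A2_len A r + b * A2_len A t :=
          add_le_add (mul_le_mul_of_nonneg_left e1 ha0) (mul_le_mul_of_nonneg_left e2 hb0)
  exact h2.trans h1

theorem A2_bump {A : Set (ℝ × ℝ)} (hA : Convex ℝ A) (hAc : IsCompact A) :
    ∃ R m : ℝ, Bump (A2_len A) R m := by
  obtain ⟨R, hR0, hR⟩ := A2_bd hAc.isBounded
  have hbdd : BddAbove (range (A2_len A)) := ⟨2 * R, by
    rintro _ ⟨s, rfl⟩
    exact A2_len_le hR0 hR s⟩
  refine ⟨R, sSup (range (A2_len A)), ?_⟩
  constructor
  · exact A2_len_meas hAc.measurableSet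
  · exact A2_len_nonneg A
  · intro s
    exact le_csSup hbdd (mem_range_self s)
  · intro μ hμ
    obtain ⟨_, ⟨s, rfl⟩, hs⟩ := exists_lt_of_lt_csSup (range_nonempty _) hμ
    exact ⟨s, hs⟩
  · intro s hs
    obtain ⟨t, ht⟩ := A2_nonempty_of_pos hs
    exact (hR s t ht).1
  · intro r s t hrs hst
    exact A2_quasi hA hAc hrs hst

theorem A2_bump_pos {A : Set (ℝ × ℝ)} (hAc : IsCompact A) {R m : ℝ} (h : Bump (A2_len A) R m)
    (hpos : 0 < area A) : 0 < m := by
  by_contra hc
  push Not at hc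
  have h0 : ∀ s, A2_len A s = 0 := fun s => le_antisymm ((h.le s).trans hc) (h.nonneg s)
  rw [A2_area_eq hAc] at hpos
  simp [h0] at hpos

/-- the degenerate case -/
theorem A2_degen {B M : Set (ℝ × ℝ)} (hMc : IsCompact M) {a : ℝ × ℝ}
    (h : ∀ b ∈ B, (1 / 2 : ℝ) • (a + b) ∈ M) :
    Real.sqrt (area B) / 2 ≤ Real.sqrt (area M) := by
  have h1 : (1 / 2 : ℝ) • ((fun x => a + x) '' B) ⊆ M := by
    rintro _ ⟨_, ⟨b, hb, rfl⟩, rfl⟩
    exact h b hb
  have h2 := area_mono h1 hMc.isBounded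
  rw [area_smul] at h2
  have h3 : area ((fun x => a + x) '' B) = area B := by
    unfold area
    rw [Set.image_add_left, measure_preimage_add]
  rw [h3] at h2
  have h4 : Real.sqrt (area B) / 2 = Real.sqrt (|1 / 2| ^ 2 * area B) := by
    rw [Real.sqrt_mul (by positivity), Real.sqrt_sq (abs_nonneg _), abs_of_pos (by norm_num)]
    ring
  rw [h4]
  exact Real.sqrt_le_sqrt h2

/-- Planar Brunn-Minkowski inequality (midpoint form).
Proof: if `area A = 0` then `M ⊇ (a + B)/2` for some `a ∈ A`, so `area M ≥ area B / 4`; same for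
`B`.  Otherwise let `α(s)` be the length of the section `{t | (s,t) ∈ A}`, the same for `β`, `B`
and `γ`, `M`.  By convexity `α` is concave on its support, in particular `Bump α R m₁` with
`m₁ = sup α > 0`; the midpoint property of `layer_cake` holds by `bm1`; and by Fubini
`∫ α = area A` etc.  `layer_cake` with `k = 1` gives
`area M ≥ (m₁+m₂)/2 * (area A/m₁ + area B/m₂)/2 ≥ ((√area A + √area B)/2)^2` by Cauchy-Schwarz. -/
theorem bm2 {A B M : Set (ℝ × ℝ)} (hA : Convex ℝ A) (hB : Convex ℝ B) (hAc : IsCompact A)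
    (hBc : IsCompact B) (hMc : IsCompact M) (hAn : A.Nonempty) (hBn : B.Nonempty)
    (h : ∀ a ∈ A, ∀ b ∈ B, (1 / 2 : ℝ) • (a + b) ∈ M) :
    (Real.sqrt (area A) + Real.sqrt (area B)) / 2 ≤ Real.sqrt (area M) := by
  rcases eq_or_lt_of_le (area_nonneg A) with hA0 | hApos
  · obtain ⟨a, ha⟩ := hAn
    have h1 := A2_degen hMc (h a ha)
    rw [← hA0, Real.sqrt_zero, zero_add]
    exact h1
  rcases eq_or_lt_of_le (area_nonneg B) with hB0 | hBpos
  · obtain ⟨b, hb⟩ := hBn
    have h1 := A2_degen (a := b) hMc (fun a ha => by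
      rw [add_comm]
      exact h a ha b hb)
    rw [← hB0, Real.sqrt_zero, add_zero]
    exact h1
  obtain ⟨R, m₁, hα⟩ := A2_bump hA hAc
  obtain ⟨R', m₂, hβ⟩ := A2_bump hB hBc
  have hm₁ := A2_bump_pos hAc hα hApos
  have hm₂ := A2_bump_pos hBc hβ hBpos
  obtain ⟨R'', hR0, hR⟩ := A2_bd hMc.isBounded
  have key := layer_cake 1 le_rfl hα hβ hm₁ hm₂ (A2_len_meas hMc.measurableSet)
    (A2_len_nonneg M) (A2_len_le hR0 hR) (R'' := R'') (fun s hs => by
      obtain ⟨t, ht⟩ := A2_nonempty_of_pos hs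
      exact (hR s t ht).1)
    (fun s t hs ht => by
      have e1 := bm1 (A2_sec_convex hA s).ordConnected (A2_sec_convex hB t).ordConnected
        (A2_nonempty_of_pos hs.ne') (A2_nonempty_of_pos ht.ne')
        (A2_sec_bounded hAc.isBounded s) (A2_sec_bounded hBc.isBounded t)
        (A2_sec_bounded hMc.isBounded ((s + t) / 2)) (fun x hx y hy => by
          have e2 := h _ hx _ hy
          have e3 : (1 / 2 : ℝ) • (((s, x) : ℝ × ℝ) + (t, y)) = ((s + t) / 2, (x + y) / 2) := by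
            ext
            · simp only [Prod.smul_fst, Prod.fst_add, smul_eq_mul]
              ring
            · simp only [Prod.smul_snd, Prod.snd_add, smul_eq_mul]
              ring
          rw [e3] at e2
          exact e2)
      exact e1)
  simp only [pow_one] at key
  rw [← A2_area_eq hAc, ← A2_area_eq hBc, ← A2_area_eq hMc] at key
  refine Real.le_sqrt_of_sq_le ?_
  refine le_trans ?_ key
  set x := Real.sqrt (area A) with hx
  set y := Real.sqrt (area B) with hy
  have hx2 : area A = x ^ 2 := (Real.sq_sqrt hApos.le).symm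
  have hy2 : area B = y ^ 2 := (Real.sq_sqrt hBpos.le).symm
  rw [hx2, hy2]
  have hid : (m₁ + m₂) / 2 * ((x ^ 2 / m₁ + y ^ 2 / m₂) / 2) - ((x + y) / 2) ^ 2 =
      (m₂ * x - m₁ * y) ^ 2 / (4 * m₁ * m₂) := by
    field_simp
    ring
  have hpos : 0 ≤ (m₂ * x - m₁ * y) ^ 2 / (4 * m₁ * m₂) := by positivity
  linarith

/-- Planar Brunn-Minkowski inequality with arbitrary nonnegative weights (apply `bm2` to
`2 s A`, `2 t B`, and `area_smul`). -/
theorem bm2_smul {A B M : Set (ℝ × ℝ)} (hA : Convex ℝ A) (hB : Convex ℝ B) (hAc : IsCompact A)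
    (hBc : IsCompact B) (hMc : IsCompact M) (hAn : A.Nonempty) (hBn : B.Nonempty) {s t : ℝ}
    (hs : 0 ≤ s) (ht : 0 ≤ t) (h : ∀ a ∈ A, ∀ b ∈ B, s • a + t • b ∈ M) :
    s * Real.sqrt (area A) + t * Real.sqrt (area B) ≤ Real.sqrt (area M) := by
  have h1 := bm2 (hA.smul (2 * s)) (hB.smul (2 * t)) (hAc.smul (2 * s)) (hBc.smul (2 * t)) hMc
    hAn.smul_set hBn.smul_set (by
      rintro _ ⟨a, ha, rfl⟩ _ ⟨b, hb, rfl⟩
      have e := h a ha b hb
      have e2 : (1 / 2 : ℝ) • ((fun x => (2 * s) • x) a + (fun x => (2 * t) • x) b) =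
          s • a + t • b := by
        simp only [smul_add, smul_smul]
        congr 1
        · congr 1
          ring
        · congr 1
          ring
      rw [e2]
      exact e)
  rw [area_smul, area_smul, Real.sqrt_mul (by positivity), Real.sqrt_mul (by positivity),
    Real.sqrt_sq (abs_nonneg _), Real.sqrt_sq (abs_nonneg _),
    abs_of_nonneg (by linarith : 0 ≤ 2 * s), abs_of_nonneg (by linarith : 0 ≤ 2 * t)] at h1
  linarith

end Pool.Agent.H48.OR
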