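import Pool.Agent.H48.OR.A2

/-!
# OR-A3: horizontal sections of convex bodies in space, Brunn-Minkowski for equal volumes
-/

set_option autoImplicit false

namespace Pool.Agent.H48.OR

open MeasureTheory Set

/-- horizontal section at height `s` -/
def sec (A : Set V3) (s : ℝ) : Set (ℝ × ℝ) := {z | (s, z) ∈ A}

/-- square root of the area of the horizontal section at height `s` -/
noncomputable def rad (A : Set V3) (s : ℝ) : ℝ := Real.sqrt (area (sec A s))

theorem A3_sec_compact {A : Set V3} (hA : IsCompact A) (s : ℝ) : IsCompact (sec A s) := by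
  obtain ⟨R, hR⟩ := (Metric.isBounded_iff_subset_closedBall (0 : V3)).1 hA.isBounded
  apply Metric.isCompact_of_isClosed_isBounded
  · have : sec A s = (fun z : ℝ × ℝ => ((s, z) : V3)) ⁻¹' A := rfl
    rw [this]
    exact hA.isClosed.preimage (by fun_prop)
  · refine (Metric.isBounded_iff_subset_closedBall (0 : ℝ × ℝ)).2 ⟨R, fun z hz => ?_⟩
    have h1 := hR hz
    rw [mem_closedBall_zero_iff] at h1 ⊢
    exact (norm_snd_le ((s, z) : V3)).trans h1

theorem A3_sec_convex {A : Set V3} (hA : Convex ℝ A) (s : ℝ) : Convex ℝ (sec A s) := by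
  intro x hx y hy a b ha hb hab
  have h1 := hA hx hy ha hb hab
  have h2 : a • ((s, x) : V3) + b • ((s, y) : V3) = (s, a • x + b • y) := by
    ext1
    · simp [← add_mul, hab]
    · rfl
  rw [h2] at h1
  exact h1

theorem A3_rad_nonneg (A : Set V3) (s : ℝ) : 0 ≤ rad A s := Real.sqrt_nonneg _

theorem A3_rad_of_empty {A : Set V3} {s : ℝ} (h : ¬ (sec A s).Nonempty) : rad A s = 0 := by
  rw [not_nonempty_iff_eq_empty] at h
  simp [rad, h, area]

theorem A3_nonempty_of_pos {A : Set V3} {s : ℝ} (h : 0 < rad A s) : (sec A s).Nonempty := by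
  by_contra hn
  rw [A3_rad_of_empty hn] at h
  exact lt_irrefl _ h

/-- midpoint property of `rad` (by `bm2`; positive values force the sections to be nonempty) -/
theorem rad_mid {A B M : Set V3} (hA : Convex ℝ A) (hB : Convex ℝ B) (hAc : IsCompact A)
    (hBc : IsCompact B) (hMc : IsCompact M)
    (h : ∀ a ∈ A, ∀ b ∈ B, (1 / 2 : ℝ) • (a + b) ∈ M) {s t : ℝ} (hs : (sec A s).Nonempty)
    (ht : (sec B t).Nonempty) : (rad A s + rad B t) / 2 ≤ rad M ((s + t) / 2) := by
  apply bm2 (A3_sec_convex hA s) (A3_sec_convex hB t) (A3_sec_compact hAc s)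
    (A3_sec_compact hBc t) (A3_sec_compact hMc _) hs ht
  intro a ha b hb
  have h1 := h _ ha _ hb
  have h2 : (1 / 2 : ℝ) • (((s, a) : V3) + ((t, b) : V3)) =
      ((s + t) / 2, (1 / 2 : ℝ) • (a + b)) := by
    ext1
    · simp; ring
    · rfl
  rw [h2] at h1
  exact h1

theorem A3_rad_le {M : Set V3} (hMc : IsCompact M) : ∃ m, ∀ s, rad M s ≤ m := by
  obtain ⟨R, hR⟩ := (Metric.isBounded_iff_subset_closedBall (0 : V3)).1 hMc.isBounded
  refine ⟨Real.sqrt (area (Metric.closedBall (0 : ℝ × ℝ) R)), fun s => ?_⟩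
  apply Real.sqrt_le_sqrt
  apply area_mono _ Metric.isBounded_closedBall
  intro z hz
  have h1 := hR hz
  rw [mem_closedBall_zero_iff] at h1 ⊢
  exact (norm_snd_le ((s, z) : V3)).trans h1

theorem A3_rad_supp {M : Set V3} (hMc : IsCompact M) : ∃ R, ∀ s, rad M s ≠ 0 → |s| ≤ R := by
  obtain ⟨R, hR⟩ := (Metric.isBounded_iff_subset_closedBall (0 : V3)).1 hMc.isBounded
  refine ⟨R, fun s hs => ?_⟩
  obtain ⟨z, hz⟩ := A3_nonempty_of_pos (lt_of_le_of_ne (A3_rad_nonneg M s) hs.symm)
  have h1 := hR hz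
  rw [mem_closedBall_zero_iff] at h1
  exact (norm_fst_le ((s, z) : V3)).trans h1

theorem A3_rad_meas {M : Set V3} (hMc : IsCompact M) : Measurable (rad M) := by
  have h1 : Measurable fun s : ℝ => volume (Prod.mk s ⁻¹' M) :=
    measurable_measure_prodMk_left hMc.measurableSet
  exact h1.ennreal_toReal.sqrt

/-- `rad A` is a bump for a compact convex `A`.  Quasi-concavity: `rad A` is concave on the
projection of `A`: by `bm2_smul` for `s = a r + b t` (`a + b = 1`) the section at `s` contains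
`a • sec r + b • sec t`.  Supremum: `m = sSup (range (rad A))`. -/
theorem rad_bump {A : Set V3} (hA : Convex ℝ A) (hAc : IsCompact A) :
    ∃ R m : ℝ, Bump (rad A) R m := by
  obtain ⟨R, hR⟩ := A3_rad_supp hAc
  obtain ⟨m0, hm0⟩ := A3_rad_le hAc
  have hbdd : BddAbove (range (rad A)) := ⟨m0, by rintro _ ⟨s, rfl⟩; exact hm0 s⟩
  refine ⟨R, sSup (range (rad A)), A3_rad_meas hAc, A3_rad_nonneg A,
    fun s => le_csSup hbdd ⟨s, rfl⟩, ?_, hR, ?_⟩
  · intro μ hμ
    obtain ⟨_, ⟨s, rfl⟩, hs⟩ := exists_lt_of_lt_csSup (range_nonempty _) hμ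
    exact ⟨s, hs⟩
  · intro r s t hrs hst
    by_cases h1 : (sec A r).Nonempty
    · by_cases h2 : (sec A t).Nonempty
      · rcases eq_or_lt_of_le (hrs.trans hst) with hrt | hrt
        · have : s = r := le_antisymm (hst.trans hrt.symm.le) hrs
          rw [this]
          exact min_le_left _ _
        · have hpos : 0 < t - r := sub_pos.2 hrt
          have ha : 0 ≤ (t - s) / (t - r) := div_nonneg (sub_nonneg.2 hst) hpos.le
          have hb : 0 ≤ (s - r) / (t - r) := div_nonneg (sub_nonneg.2 hrs) hpos.le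
          have hab : (t - s) / (t - r) + (s - r) / (t - r) = 1 := by
            field_simp
            ring
          have hsum : (t - s) / (t - r) * r + (s - r) / (t - r) * t = s := by
            field_simp
            ring
          have h3 := bm2_smul (A3_sec_convex hA r) (A3_sec_convex hA t) (A3_sec_compact hAc r)
            (A3_sec_compact hAc t) (A3_sec_compact hAc s) h1 h2 ha hb (by
              intro x hx y hy
              have h4 := hA hx hy ha hb hab
              have h5 : ((t - s) / (t - r)) • ((r, x) : V3) + ((s - r) / (t - r)) • ((t, y) : V3)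
                  = (s, ((t - s) / (t - r)) • x + ((s - r) / (t - r)) • y) := by
                ext1
                · simpa using hsum
                · rfl
              rw [h5] at h4
              exact h4)
          refine le_trans ?_ h3
          have h6 : min (rad A r) (rad A t) =
              (t - s) / (t - r) * min (rad A r) (rad A t) +
                (s - r) / (t - r) * min (rad A r) (rad A t) := by
            rw [← add_mul, hab, one_mul]
          rw [h6]
          exact add_le_add (mul_le_mul_of_nonneg_left (min_le_left _ _) ha)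
            (mul_le_mul_of_nonneg_left (min_le_right _ _) hb)
      · rw [A3_rad_of_empty h2]
        exact (min_le_right _ _).trans (A3_rad_nonneg _ _)
    · rw [A3_rad_of_empty h1]
      exact (min_le_left _ _).trans (A3_rad_nonneg _ _)

/-- measurability, bounds and support of `rad M` for compact `M` -/
theorem rad_compact {M : Set V3} (hMc : IsCompact M) :
    Measurable (rad M) ∧ (∀ s, 0 ≤ rad M s) ∧ (∃ m, ∀ s, rad M s ≤ m) ∧
      ∃ R, ∀ s, rad M s ≠ 0 → |s| ≤ R :=
  ⟨A3_rad_meas hMc, A3_rad_nonneg M, A3_rad_le hMc, A3_rad_supp hMc⟩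

/-- Fubini -/
theorem vol_eq_integral_rad {M : Set V3} (hMc : IsCompact M) : vol M = ∫ s, rad M s ^ 2 := by
  have h1 : ∀ s, rad M s ^ 2 = (volume (Prod.mk s ⁻¹' M)).toReal := by
    intro s
    unfold rad
    rw [Real.sq_sqrt (area_nonneg _)]
    rfl
  simp_rw [h1]
  rw [integral_toReal (measurable_measure_prodMk_left hMc.measurableSet).aemeasurable]
  · unfold vol
    congr 1
    rw [Measure.volume_eq_prod, Measure.prod_apply hMc.measurableSet]
  · refine Filter.Eventually.of_forall fun s => ?_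
    exact (A3_sec_compact hMc s).measure_lt_top

theorem A3_pos_of_vol {A : Set V3} (hAc : IsCompact A) (hpos : 0 < vol A) {R m : ℝ}
    (hb : Bump (rad A) R m) : 0 < m := by
  by_contra hm
  push Not at hm
  have h1 : ∀ s, rad A s = 0 := fun s =>
    le_antisymm ((hb.le s).trans hm) (A3_rad_nonneg A s)
  rw [vol_eq_integral_rad hAc] at hpos
  simp [h1] at hpos

theorem A3_amgm {m₁ m₂ : ℝ} (h₁ : 0 < m₁) (h₂ : 0 < m₂) :
    1 ≤ ((m₁ + m₂) / 2) ^ 2 * ((1 / m₁ ^ 2 + 1 / m₂ ^ 2) / 2) := by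
  have h3 : ((m₁ + m₂) / 2) ^ 2 * ((1 / m₁ ^ 2 + 1 / m₂ ^ 2) / 2) - 1 =
      ((m₁ - m₂) ^ 2 * (m₁ ^ 2 + 4 * (m₁ * m₂) + m₂ ^ 2)) / (8 * m₁ ^ 2 * m₂ ^ 2) := by
    field_simp
    ring
  have h4 : 0 ≤ ((m₁ - m₂) ^ 2 * (m₁ ^ 2 + 4 * (m₁ * m₂) + m₂ ^ 2)) / (8 * m₁ ^ 2 * m₂ ^ 2) := by
    positivity
  linarith

/-- Brunn-Minkowski inequality in space for two bodies of the same volume.
Proof: `layer_cake` with `k = 2`, `m₁, m₂ > 0` (if `vol A > 0`, otherwise trivial):
`vol M ≥ v ((m₁+m₂)/2)^2 (m₁^(-2)+m₂^(-2))/2 ≥ v`. -/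
theorem bm3_mid {A B M : Set V3} (hA : Convex ℝ A) (hB : Convex ℝ B) (hAc : IsCompact A)
    (hBc : IsCompact B) (hMc : IsCompact M) (hv : vol A = vol B)
    (h : ∀ a ∈ A, ∀ b ∈ B, (1 / 2 : ℝ) • (a + b) ∈ M) : vol A ≤ vol M := by
  rcases eq_or_lt_of_le (vol_nonneg A) with h0 | hpos
  · rw [← h0]
    exact vol_nonneg M
  obtain ⟨R, m₁, hb1⟩ := rad_bump hA hAc
  obtain ⟨R', m₂, hb2⟩ := rad_bump hB hBc
  have hm₁ := A3_pos_of_vol hAc hpos hb1
  have hm₂ := A3_pos_of_vol hBc (hv ▸ hpos) hb2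
  obtain ⟨hγm, hγ0, ⟨M', hγM⟩, R'', hγs⟩ := rad_compact hMc
  have hl := layer_cake 2 (by norm_num) hb1 hb2 hm₁ hm₂ hγm hγ0 hγM hγs (fun s t hs ht =>
    rad_mid hA hB hAc hBc hMc h (A3_nonempty_of_pos hs) (A3_nonempty_of_pos ht))
  rw [← vol_eq_integral_rad hAc, ← vol_eq_integral_rad hBc, ← vol_eq_integral_rad hMc, ← hv] at hl
  refine le_trans ?_ hl
  have h5 := A3_amgm hm₁ hm₂
  calc vol A = vol A * 1 := (mul_one _).symm
    _ ≤ vol A * (((m₁ + m₂) / 2) ^ 2 * ((1 / m₁ ^ 2 + 1 / m₂ ^ 2) / 2)) :=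
        mul_le_mul_of_nonneg_left h5 hpos.le
    _ = ((m₁ + m₂) / 2) ^ 2 * ((vol A / m₁ ^ 2 + vol A / m₂ ^ 2) / 2) := by ring

end Pool.Agent.H48.OR
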