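import Pool.Agent.H48.OR.A3

/-!
# OR-A4: equality case of Brunn-Minkowski for symmetric bodies, one direction
-/

set_option autoImplicit false

namespace Pool.Agent.H48.OR

open MeasureTheory Set Filter Topology

theorem A4_intOn {m b : ℝ} {x : ℝ → ℝ} (hx : AntitoneOn x (Ioo 0 m))
    (hxb : ∀ l ∈ Ioo 0 m, 0 ≤ x l ∧ x l ≤ b) : IntegrableOn x (Ioo 0 m) := by
  refine Integrable.mono' (integrable_const b) ?_ ?_
  · exact (aemeasurable_restrict_of_antitoneOn measurableSet_Ioo hx).aestronglyMeasurable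
  · filter_upwards [ae_restrict_mem measurableSet_Ioo] with l hl
    rw [Real.norm_of_nonneg (hxb l hl).1]
    exact (hxb l hl).2

theorem A4_intOn2 {m b : ℝ} {x : ℝ → ℝ} (hx : AntitoneOn x (Ioo 0 m))
    (hxb : ∀ l ∈ Ioo 0 m, 0 ≤ x l ∧ x l ≤ b) : IntegrableOn (fun l => 2 * l * x l) (Ioo 0 m) := by
  refine Integrable.mono' (integrable_const (2 * m * b)) ?_ ?_
  · exact ((measurable_const.mul measurable_id).aemeasurable.mul
      (aemeasurable_restrict_of_antitoneOn measurableSet_Ioo hx)).aestronglyMeasurable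
  · filter_upwards [ae_restrict_mem measurableSet_Ioo] with l hl
    have h1 := hxb l hl
    have h2 : 0 < l := hl.1
    have h3 : l < m := hl.2
    rw [Real.norm_of_nonneg (by have := h1.1; positivity)]
    exact mul_le_mul (by linarith) h1.2 h1.1 (by linarith)

theorem A4_ii {m : ℝ} (hm : 0 < m) (f : ℝ → ℝ) :
    ∫ l in (0 : ℝ)..m, f l = ∫ l in Ioo 0 m, f l := by
  rw [intervalIntegral.integral_of_le hm.le, integral_Ioc_eq_integral_Ioo]

theorem A4_ae {m v : ℝ} (hm : 0 < m) {x y z : ℝ → ℝ}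
    (hx : AntitoneOn x (Ioo 0 m)) (hy : AntitoneOn y (Ioo 0 m)) (hz : AntitoneOn z (Ioo 0 m))
    {b : ℝ} (hxb : ∀ l ∈ Ioo 0 m, 0 ≤ x l ∧ x l ≤ b) (hyb : ∀ l ∈ Ioo 0 m, 0 ≤ y l ∧ y l ≤ b)
    (hzb : ∀ l ∈ Ioo 0 m, 0 ≤ z l ∧ z l ≤ b)
    (hmid : ∀ l ∈ Ioo 0 m, ∀ l' ∈ Ioo 0 m, (x l + y l') / 2 ≤ z ((l + l') / 2))
    (hxv : ∫ l in (0 : ℝ)..m, 2 * l * x l = v) (hyv : ∫ l in (0 : ℝ)..m, 2 * l * y l = v)
    (hzv : ∫ l in (0 : ℝ)..m, 2 * l * z l ≤ v) :
    ∀ᵐ l ∂(volume.restrict (Ioo 0 m)), 2 * z l = x l + y l := by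
  rw [A4_ii hm] at hxv hyv hzv
  have ix := A4_intOn2 hx hxb
  have iy := A4_intOn2 hy hyb
  have iz := A4_intOn2 hz hzb
  have h0 : 0 ≤ᵐ[volume.restrict (Ioo 0 m)]
      fun l => 2 * l * z l - (1 / 2) * (2 * l * x l + 2 * l * y l) := by
    filter_upwards [ae_restrict_mem measurableSet_Ioo] with l hl
    have h1 := hmid l hl l hl
    have h2 : (l + l) / 2 = l := by ring
    rw [h2] at h1
    have h3 : 0 < l := hl.1
    have h4 : 2 * l * z l - (1 / 2) * (2 * l * x l + 2 * l * y l) =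
        2 * l * (z l - (x l + y l) / 2) := by ring
    rw [Pi.zero_apply, h4]
    exact mul_nonneg (by linarith) (by linarith)
  have hint : ∫ l in Ioo 0 m, (2 * l * z l - (1 / 2) * (2 * l * x l + 2 * l * y l)) ≤ 0 := by
    have iw : IntegrableOn (fun l => (1 / 2) * (2 * l * x l + 2 * l * y l)) (Ioo 0 m) :=
      (ix.add iy).const_mul _
    rw [integral_sub iz iw, integral_const_mul, integral_add ix iy, hxv, hyv]
    linarith
  have hint0 : ∫ l in Ioo 0 m, (2 * l * z l - (1 / 2) * (2 * l * x l + 2 * l * y l)) = 0 :=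
    le_antisymm hint (integral_nonneg_of_ae h0)
  rw [integral_eq_zero_iff_of_nonneg_ae h0 (iz.sub ((ix.add iy).const_mul _))] at hint0
  filter_upwards [ae_restrict_mem measurableSet_Ioo, hint0] with l hl h5
  have h3 : 0 < l := hl.1
  simp only [Pi.zero_apply] at h5
  have h6 : l * (2 * z l - (x l + y l)) = 0 := by linarith
  rcases mul_eq_zero.1 h6 with h7 | h7
  · exact absurd h7 h3.ne'
  · linarith

theorem A4_key {m : ℝ} {x y z : ℝ → ℝ}
    (hx : AntitoneOn x (Ioo 0 m)) (hy : AntitoneOn y (Ioo 0 m))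
    {b : ℝ} (hxb : ∀ l ∈ Ioo 0 m, 0 ≤ x l ∧ x l ≤ b) (hyb : ∀ l ∈ Ioo 0 m, 0 ≤ y l ∧ y l ≤ b)
    (hmid : ∀ l ∈ Ioo 0 m, ∀ l' ∈ Ioo 0 m, (x l + y l') / 2 ≤ z ((l + l') / 2))
    (hae : ∀ᵐ l ∂(volume.restrict (Ioo 0 m)), 2 * z l = x l + y l)
    {a c d : ℝ} (hd : 0 < d) (hda : d < a) (hac : a < c) (hcm : c + d < m) :
    x (c + d) + y a ≤ x a + y (c - d) := by
  set X := (Ioo 0 m).indicator x with hX
  set Y := (Ioo 0 m).indicator y with hY
  have iX : Integrable X := (A4_intOn hx hxb).integrable_indicator measurableSet_Ioo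
  have iY : Integrable Y := (A4_intOn hy hyb).integrable_indicator measurableSet_Ioo
  have eX : ∀ l, 0 < l → l < m → X l = x l := fun l h1 h2 =>
    indicator_of_mem (show l ∈ Ioo 0 m from ⟨h1, h2⟩) x
  have eY : ∀ l, 0 < l → l < m → Y l = y l := fun l h1 h2 =>
    indicator_of_mem (show l ∈ Ioo 0 m from ⟨h1, h2⟩) y
  have main : (∫ l in a..c, X (l + d)) + (∫ l in a..c, Y (l - d)) ≤
      (∫ l in a..c, X l) + ∫ l in a..c, Y l := by
    rw [← intervalIntegral.integral_add (iX.comp_add_right d).intervalIntegrable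
      (iY.comp_sub_right d).intervalIntegrable,
      ← intervalIntegral.integral_add iX.intervalIntegrable iY.intervalIntegrable]
    apply intervalIntegral.integral_mono_ae_restrict hac.le
    · exact ((iX.comp_add_right d).add (iY.comp_sub_right d)).intervalIntegrable
    · exact (iX.add iY).intervalIntegrable
    · have hae' : ∀ᵐ l ∂(volume.restrict (Icc a c)), 2 * z l = x l + y l :=
        ae_restrict_of_ae_restrict_of_subset
          (show Icc a c ⊆ Ioo 0 m from fun l hl => ⟨by linarith [hl.1], by linarith [hl.2]⟩) hae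
      filter_upwards [ae_restrict_mem measurableSet_Icc, hae'] with l hl h1
      have h2 := hl.1
      have h3 := hl.2
      change X (l + d) + Y (l - d) ≤ X l + Y l
      rw [eX _ (by linarith) (by linarith), eX _ (by linarith) (by linarith),
        eY _ (by linarith) (by linarith), eY _ (by linarith) (by linarith), ← h1]
      have h4 := hmid (l + d) ⟨by linarith, by linarith⟩ (l - d) ⟨by linarith, by linarith⟩
      have h5 : (l + d + (l - d)) / 2 = l := by ring
      rw [h5] at h4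
      linarith
  rw [intervalIntegral.integral_comp_add_right, intervalIntegral.integral_comp_sub_right] at main
  have hiX : ∀ s t : ℝ, IntervalIntegrable X volume s t := fun s t => iX.intervalIntegrable
  have hiY : ∀ s t : ℝ, IntervalIntegrable Y volume s t := fun s t => iY.intervalIntegrable
  have e1 : (∫ l in (a + d)..(c + d), X l) = (∫ l in a..c, X l) + (∫ l in c..(c + d), X l) -
      ∫ l in a..(a + d), X l := by
    rw [intervalIntegral.integral_add_adjacent_intervals (hiX _ _) (hiX _ _),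
      ← intervalIntegral.integral_add_adjacent_intervals (hiX a (a + d)) (hiX (a + d) (c + d))]
    ring
  have e2 : (∫ l in (a - d)..(c - d), Y l) = (∫ l in (a - d)..a, Y l) + (∫ l in a..c, Y l) -
      ∫ l in (c - d)..c, Y l := by
    rw [intervalIntegral.integral_add_adjacent_intervals (hiY _ _) (hiY _ _),
      ← intervalIntegral.integral_add_adjacent_intervals (hiY (a - d) (c - d)) (hiY (c - d) c)]
    ring
  rw [e1, e2] at main
  have hc : ∀ r s t : ℝ, ∫ _ in s..t, r = (t - s) * r := by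
    intro r s t
    rw [intervalIntegral.integral_const, smul_eq_mul]
  have b1 : d * x (c + d) ≤ ∫ l in c..(c + d), X l := by
    have : d * x (c + d) = ∫ _ in c..(c + d), x (c + d) := by rw [hc]; ring
    rw [this]
    refine intervalIntegral.integral_mono_on (by linarith) (by simp) (hiX _ _) fun l hl => ?_
    have h2 := hl.1
    have h3 := hl.2
    rw [eX _ (by linarith) (by linarith)]
    exact hx ⟨by linarith, by linarith⟩ ⟨by linarith, by linarith⟩ h3
  have b2 : ∫ l in a..(a + d), X l ≤ d * x a := by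
    have : d * x a = ∫ _ in a..(a + d), x a := by rw [hc]; ring
    rw [this]
    refine intervalIntegral.integral_mono_on (by linarith) (hiX _ _) (by simp) fun l hl => ?_
    have h2 := hl.1
    have h3 := hl.2
    rw [eX _ (by linarith) (by linarith)]
    exact hx ⟨by linarith, by linarith⟩ ⟨by linarith, by linarith⟩ h2
  have b3 : d * y a ≤ ∫ l in (a - d)..a, Y l := by
    have : d * y a = ∫ _ in (a - d)..a, y a := by rw [hc]; ring
    rw [this]
    refine intervalIntegral.integral_mono_on (by linarith) (by simp) (hiY _ _) fun l hl => ?_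
    have h2 := hl.1
    have h3 := hl.2
    rw [eY _ (by linarith) (by linarith)]
    exact hy ⟨by linarith, by linarith⟩ ⟨by linarith, by linarith⟩ h3
  have b4 : ∫ l in (c - d)..c, Y l ≤ d * y (c - d) := by
    have : d * y (c - d) = ∫ _ in (c - d)..c, y (c - d) := by rw [hc]; ring
    rw [this]
    refine intervalIntegral.integral_mono_on (by linarith) (hiY _ _) (by simp) fun l hl => ?_
    have h2 := hl.1
    have h3 := hl.2
    rw [eY _ (by linarith) (by linarith)]
    exact hy ⟨by linarith, by linarith⟩ ⟨by linarith, by linarith⟩ h2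
  have hfin : d * (x (c + d) + y a - x a - y (c - d)) ≤ 0 := by linarith
  have := nonpos_of_mul_nonpos_right hfin hd
  linarith

theorem A4_lim {m : ℝ} {x y z : ℝ → ℝ}
    (hx : AntitoneOn x (Ioo 0 m)) (hy : AntitoneOn y (Ioo 0 m))
    {b : ℝ} (hxb : ∀ l ∈ Ioo 0 m, 0 ≤ x l ∧ x l ≤ b) (hyb : ∀ l ∈ Ioo 0 m, 0 ≤ y l ∧ y l ≤ b)
    (hmid : ∀ l ∈ Ioo 0 m, ∀ l' ∈ Ioo 0 m, (x l + y l') / 2 ≤ z ((l + l') / 2))
    (hae : ∀ᵐ l ∂(volume.restrict (Ioo 0 m)), 2 * z l = x l + y l)
    {a c : ℝ} (ha : 0 < a) (hac : a < c) (hcm : c < m) (cx : ContinuousAt x c)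
    (cy : ContinuousAt y c) : x c + y a ≤ x a + y c := by
  have t0 : Tendsto (fun d : ℝ => c + d) (𝓝[>] 0) (𝓝 c) := by
    have : Tendsto (fun d : ℝ => c + d) (𝓝 0) (𝓝 (c + 0)) := tendsto_id.const_add c
    rw [add_zero] at this
    exact this.mono_left nhdsWithin_le_nhds
  have t1 : Tendsto (fun d : ℝ => c - d) (𝓝[>] 0) (𝓝 c) := by
    have : Tendsto (fun d : ℝ => c - d) (𝓝 0) (𝓝 (c - 0)) := tendsto_id.const_sub c
    rw [sub_zero] at this
    exact this.mono_left nhdsWithin_le_nhds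
  refine le_of_tendsto_of_tendsto ((cx.tendsto.comp t0).add_const (y a))
    ((cy.tendsto.comp t1).const_add (x a)) ?_
  have e1 : ∀ᶠ d : ℝ in 𝓝[>] 0, d < a := nhdsWithin_le_nhds (gt_mem_nhds ha)
  have e2 : ∀ᶠ d : ℝ in 𝓝[>] 0, d < m - c := nhdsWithin_le_nhds (gt_mem_nhds (by linarith))
  filter_upwards [self_mem_nhdsWithin, e1, e2] with d hd hda hdm
  exact A4_key hx hy hxb hyb hmid hae hd hda hac (by linarith)

/-- Real-variable lemma behind the equality case.  `x`, `y`, `z` are antitone on `(0,m)`,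
nonnegative and bounded, `(x(l) + y(l'))/2 ≤ z((l+l')/2)` for all `l, l' ∈ (0,m)`,
`∫_0^m 2 l x = ∫_0^m 2 l y = v` and `∫_0^m 2 l z ≤ v`.  Then `x = y` almost everywhere on `(0,m)`.
Proof: `z ≥ (x+y)/2` and the integrals give `z = (x+y)/2` a.e.; hence for a.e. `l` and every
small `δ` of either sign `x(l+δ) + y(l-δ) ≤ x(l) + y(l)`.  Integrate over `l ∈ (a,b)`:
`∫_b^{b+δ} x - ∫_a^{a+δ} x ≤ ∫_{b-δ}^b y - ∫_{a-δ}^a y`; divide by `δ → 0+` at common continuity
points `a < b` of the monotone functions: `x(b) - x(a) ≤ y(b) - y(a)`, and by symmetry equality.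
So `x - y` is constant off a countable set, and the constant is `0` because of the integrals. -/
theorem ae_eq_of_mid {m v : ℝ} (hm : 0 < m) {x y z : ℝ → ℝ}
    (hx : AntitoneOn x (Ioo 0 m)) (hy : AntitoneOn y (Ioo 0 m)) (hz : AntitoneOn z (Ioo 0 m))
    {b : ℝ} (hxb : ∀ l ∈ Ioo 0 m, 0 ≤ x l ∧ x l ≤ b) (hyb : ∀ l ∈ Ioo 0 m, 0 ≤ y l ∧ y l ≤ b)
    (hzb : ∀ l ∈ Ioo 0 m, 0 ≤ z l ∧ z l ≤ b)
    (hmid : ∀ l ∈ Ioo 0 m, ∀ l' ∈ Ioo 0 m, (x l + y l') / 2 ≤ z ((l + l') / 2))
    (hxv : ∫ l in (0 : ℝ)..m, 2 * l * x l = v) (hyv : ∫ l in (0 : ℝ)..m, 2 * l * y l = v)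
    (hzv : ∫ l in (0 : ℝ)..m, 2 * l * z l ≤ v) :
    ∀ᵐ l ∂(volume.restrict (Ioo 0 m)), x l = y l := by
  have hae := A4_ae hm hx hy hz hxb hyb hzb hmid hxv hyv hzv
  have hae' : ∀ᵐ l ∂(volume.restrict (Ioo 0 m)), 2 * z l = y l + x l := by
    filter_upwards [hae] with l hl
    linarith
  have hmid' : ∀ l ∈ Ioo 0 m, ∀ l' ∈ Ioo 0 m, (y l + x l') / 2 ≤ z ((l + l') / 2) := by
    intro l hl l' hl'
    rw [add_comm (y l), add_comm l]
    exact hmid l' hl' l hl
  have hstep : ∀ a c, 0 < a → a < c → c < m → ContinuousAt x c → ContinuousAt y c →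
      x a - y a = x c - y c := by
    intro a c ha hac hcm cx cy
    have h1 := A4_lim hx hy hxb hyb hmid hae ha hac hcm cx cy
    have h2 := A4_lim hy hx hyb hxb hmid' hae' ha hac hcm cy cx
    linarith
  have hcont : ∀ a, 0 < a → a < m → ∃ c, a < c ∧ c < m ∧ ContinuousAt x c ∧ ContinuousAt y c := by
    intro a ha ham
    have c1 := hx.countable_not_continuousWithinAt
    have c2 := hy.countable_not_continuousWithinAt
    have hd := (c1.union c2).dense_compl ℝ
    obtain ⟨c, hc, hc'⟩ := hd.exists_mem_open (isOpen_Ioo (a := a) (b := m)) ⟨(a + m) / 2,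
      by constructor <;> linarith⟩
    have hmem : c ∈ Ioo 0 m := ⟨ha.trans hc'.1, hc'.2⟩
    refine ⟨c, hc'.1, hc'.2, ?_, ?_⟩
    · by_contra hcon
      apply hc
      left
      refine ⟨hmem, fun h => hcon (h.continuousAt (isOpen_Ioo.mem_nhds hmem))⟩
    · by_contra hcon
      apply hc
      right
      refine ⟨hmem, fun h => hcon (h.continuousAt (isOpen_Ioo.mem_nhds hmem))⟩
  have hconst : ∀ a a', 0 < a → a < m → 0 < a' → a' < m → x a - y a = x a' - y a' := by
    intro a a' h1 h2 h3 h4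
    obtain ⟨c, hc1, hc2, cx, cy⟩ := hcont (max a a') (lt_max_of_lt_left h1) (max_lt h2 h4)
    rw [hstep a c h1 ((le_max_left _ _).trans_lt hc1) hc2 cx cy,
      hstep a' c h3 ((le_max_right _ _).trans_lt hc1) hc2 cx cy]
  set D := x (m / 2) - y (m / 2) with hD
  have hD' : ∀ l ∈ Ioo 0 m, x l = y l + D := by
    intro l hl
    have := hconst l (m / 2) hl.1 hl.2 (by linarith) (by linarith)
    rw [← hD] at this
    linarith
  have hD0 : D * m ^ 2 = 0 := by
    have h1 : ∫ l in (0 : ℝ)..m, 2 * l * D = D * m ^ 2 := by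
      rw [intervalIntegral.integral_mul_const, intervalIntegral.integral_const_mul, integral_id]
      ring
    have h2 : ∫ l in (0 : ℝ)..m, 2 * l * D = 0 := by
      have h3 : ∫ l in Ioo 0 m, 2 * l * D = ∫ l in Ioo 0 m, (2 * l * x l - 2 * l * y l) := by
        apply setIntegral_congr_fun measurableSet_Ioo
        intro l hl
        change 2 * l * D = 2 * l * x l - 2 * l * y l
        rw [hD' l hl]
        ring
      rw [A4_ii hm, h3, integral_sub (A4_intOn2 hx hxb) (A4_intOn2 hy hyb), ← A4_ii hm, ← A4_ii hm,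
        hxv, hyv, sub_self]
    rw [← h1, h2]
  have hD00 : D = 0 := by
    rcases mul_eq_zero.1 hD0 with h | h
    · exact h
    · exact absurd h (by positivity)
  filter_upwards [ae_restrict_mem measurableSet_Ioo] with l hl
  rw [hD' l hl, hD00, add_zero]

/-- length of the set where the radius exceeds `l` -/
noncomputable def A4len (A : Set V3) (l : ℝ) : ℝ := (volume {s | l < rad A s}).toReal

theorem A4_sub {A : Set V3} {R : ℝ} (hR : ∀ s, rad A s ≠ 0 → |s| ≤ R) {l : ℝ} (hl : 0 < l) :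
    {s | l < rad A s} ⊆ Icc (-R) R := by
  intro s hs
  have h1 : l < rad A s := hs
  exact abs_le.1 (hR s (hl.trans h1).ne')

theorem A4_len_anti {A : Set V3} (hA : IsCompact A) (m : ℝ) :
    AntitoneOn (A4len A) (Ioo 0 m) := by
  obtain ⟨R, hR⟩ := A3_rad_supp hA
  intro l hl l' _ hll
  refine ENNReal.toReal_mono ?_ (measure_mono fun s hs => lt_of_le_of_lt hll hs)
  exact ((measure_mono (A4_sub hR hl.1)).trans_lt measure_Icc_lt_top).ne

theorem A4_len_bd {A : Set V3} (hA : IsCompact A) :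
    ∃ b : ℝ, ∀ l, 0 < l → 0 ≤ A4len A l ∧ A4len A l ≤ b := by
  obtain ⟨R, hR⟩ := A3_rad_supp hA
  refine ⟨(volume (Icc (-R) R)).toReal, fun l hl => ⟨ENNReal.toReal_nonneg, ?_⟩⟩
  exact ENNReal.toReal_mono measure_Icc_lt_top.ne (measure_mono (A4_sub hR hl))

theorem A4_ord {A : Set V3} {R m : ℝ} (hb : Bump (rad A) R m) (l : ℝ) :
    {s | l < rad A s}.OrdConnected := by
  refine ⟨fun r hr t ht s hs => ?_⟩
  have h1 : l < rad A r := hr
  have h2 : l < rad A t := ht
  exact (lt_min h1 h2).trans_le (hb.quasi r s t hs.1 hs.2)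

theorem A4_isBdd {A : Set V3} {R : ℝ} (hR : ∀ s, rad A s ≠ 0 → |s| ≤ R) {l : ℝ} (hl : 0 < l) :
    Bornology.IsBounded {s | l < rad A s} := (Metric.isBounded_Icc _ _).subset (A4_sub hR hl)

theorem A4_len_int {A : Set V3} (hA : IsCompact A) {R m : ℝ} (hm : 0 < m)
    (hb : Bump (rad A) R m) : ∫ l in (0 : ℝ)..m, 2 * l * A4len A l = vol A := by
  have h1 := integral_pow_layer 2 (by norm_num) hm.le hb.meas hb.nonneg hb.le hb.supp
  rw [← vol_eq_integral_rad hA] at h1
  rw [h1]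
  apply intervalIntegral.integral_congr
  intro l _
  simp [A4len]

theorem A4_len_int_le {M : Set V3} (hM : IsCompact M) {m : ℝ} (hm : 0 < m) :
    ∫ l in (0 : ℝ)..m, 2 * l * A4len M l ≤ vol M := by
  obtain ⟨hγm, hγ0, ⟨M', hγM⟩, R'', hγs⟩ := rad_compact hM
  have h1 := integral_pow_layer (α := fun s => min (rad M s) m) (R := R'') 2 (by norm_num) hm.le
    (hγm.min measurable_const) (fun s => le_min (hγ0 s) hm.le) (fun s => min_le_right _ _)
    (fun s hs => hγs s (fun h => hs (by simp [h, hm.le])))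
  have h2 : ∫ l in (0 : ℝ)..m, 2 * l * A4len M l =
      ∫ l in (0 : ℝ)..m, ((2 : ℕ) : ℝ) * l ^ (2 - 1) *
        (volume {s | l < (fun s => min (rad M s) m) s}).toReal := by
    rw [A4_ii hm, A4_ii hm]
    apply setIntegral_congr_fun measurableSet_Ioo
    intro l hl
    have h3 : {s | l < (fun s => min (rad M s) m) s} = {s | l < rad M s} := by
      ext s
      change l < min (rad M s) m ↔ l < rad M s
      rw [lt_min_iff]
      exact ⟨fun h => h.1, fun h => ⟨h, hl.2⟩⟩
    change _ = ((2 : ℕ) : ℝ) * l ^ (2 - 1) *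
        (volume {s | l < (fun s => min (rad M s) m) s}).toReal
    rw [h3]
    simp [A4len]
  rw [h2, ← h1, vol_eq_integral_rad hM]
  have hle : ∀ s, min (rad M s) m ^ 2 ≤ rad M s ^ 2 := fun s =>
    pow_le_pow_left₀ (le_min (hγ0 s) hm.le) (min_le_left _ _) 2
  have hint : Integrable fun s => rad M s ^ 2 := by
    have h4 : IntegrableOn (fun s => rad M s ^ 2) (Icc (-R'') R'') := by
      refine Integrable.mono' (integrable_const (M' ^ 2)) (hγm.pow_const 2).aestronglyMeasurable ?_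
      refine Eventually.of_forall fun s => ?_
      rw [Real.norm_of_nonneg (sq_nonneg _)]
      exact pow_le_pow_left₀ (hγ0 s) (hγM s) 2
    refine (integrableOn_iff_integrable_of_support_subset ?_).1 h4
    intro s hs
    apply abs_le.1
    apply hγs
    intro h
    apply hs
    simp [h]
  refine integral_mono_of_nonneg (Eventually.of_forall fun s => sq_nonneg _) hint
    (Eventually.of_forall hle)

theorem A4_eq_of_amgm {m₁ m₂ : ℝ} (h₁ : 0 < m₁) (h₂ : 0 < m₂)
    (h : ((m₁ + m₂) / 2) ^ 2 * ((1 / m₁ ^ 2 + 1 / m₂ ^ 2) / 2) ≤ 1) : m₁ = m₂ := by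
  have h3 : ((m₁ + m₂) / 2) ^ 2 * ((1 / m₁ ^ 2 + 1 / m₂ ^ 2) / 2) - 1 =
      ((m₁ - m₂) ^ 2 * (m₁ ^ 2 + 4 * (m₁ * m₂) + m₂ ^ 2)) / (8 * m₁ ^ 2 * m₂ ^ 2) := by
    field_simp
    ring
  have h4 : ((m₁ - m₂) ^ 2 * (m₁ ^ 2 + 4 * (m₁ * m₂) + m₂ ^ 2)) / (8 * m₁ ^ 2 * m₂ ^ 2) ≤ 0 := by
    linarith
  have h5 : 0 < (m₁ ^ 2 + 4 * (m₁ * m₂) + m₂ ^ 2) := by positivity
  have h6 : 0 < 8 * m₁ ^ 2 * m₂ ^ 2 := by positivity
  have h7 : (m₁ - m₂) ^ 2 * (m₁ ^ 2 + 4 * (m₁ * m₂) + m₂ ^ 2) ≤ 0 := by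
    by_contra hcon
    push Not at hcon
    exact absurd (div_pos hcon h6) (not_lt.2 h4)
  have h8 : (m₁ - m₂) ^ 2 ≤ 0 := by
    by_contra hcon
    push Not at hcon
    exact absurd (mul_pos hcon h5) (not_lt.2 h7)
  have h9 : m₁ - m₂ = 0 := by
    have := le_antisymm h8 (sq_nonneg _)
    exact pow_eq_zero_iff (two_ne_zero) |>.1 this
  linarith

theorem A4_zero_int {B : Set V3} (hB : Convex ℝ B) (hBs : ∀ x ∈ B, -x ∈ B)
    (hpos : 0 < vol B) : (0 : V3) ∈ interior B := by
  have hne : (interior B).Nonempty := by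
    by_contra hcon
    rw [not_nonempty_iff_eq_empty] at hcon
    have h1 : volume B = 0 := by
      have h2 : B ⊆ frontier B := by
        intro x hx
        rw [frontier, hcon, sdiff_empty]
        exact subset_closure hx
      exact measure_mono_null h2 (hB.addHaar_frontier volume)
    rw [vol, h1] at hpos
    simp at hpos
  obtain ⟨q, hq⟩ := hne
  have h3 := hB.combo_interior_self_mem_interior hq (hBs q (interior_subset hq))
    (a := 1 / 2) (b := 1 / 2) (by norm_num) (by norm_num) (by norm_num)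
  rw [← smul_add, add_neg_cancel, smul_zero] at h3
  exact h3

theorem A4_rad_pos {B : Set V3} (hB : Convex ℝ B) (hBc : IsCompact B) (h0 : (0 : V3) ∈ interior B)
    {x : V3} (hx : x ∈ B) {c : ℝ} (hc0 : 0 ≤ c) (hc1 : c < 1) : 0 < rad B (c * x.1) := by
  rw [mem_interior_iff_mem_nhds, Metric.mem_nhds_iff] at h0
  obtain ⟨ε, hε, hball⟩ := h0
  apply Real.sqrt_pos.2
  have hcomp := A3_sec_compact hBc (c * x.1)
  apply ENNReal.toReal_pos _ hcomp.measure_lt_top.ne
  have hc' : 0 < 1 - c := by linarith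
  have hsub : (fun z : ℝ × ℝ => c • x.2 + (1 - c) • z) '' (Metric.ball 0 ε) ⊆ sec B (c * x.1) := by
    rintro _ ⟨z, hz, rfl⟩
    have h1 : ((0, z) : V3) ∈ B := by
      apply hball
      rw [mem_ball_zero_iff] at hz ⊢
      rw [Prod.norm_mk, norm_zero]
      exact max_lt hε hz
    have h2 := hB hx h1 hc0 hc'.le (by ring)
    have h3 : c • x + (1 - c) • ((0, z) : V3) = (c * x.1, c • x.2 + (1 - c) • z) := by
      ext1
      · simp
      · rfl
    rw [h3] at h2
    exact h2
  have hopen : IsOpen ((fun z : ℝ × ℝ => c • x.2 + (1 - c) • z) '' (Metric.ball 0 ε)) := by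
    have h4 : (fun z : ℝ × ℝ => c • x.2 + (1 - c) • z) =
        (Homeomorph.addLeft (c • x.2)) ∘ (Homeomorph.smulOfNeZero (1 - c) hc'.ne') := rfl
    rw [h4]
    exact ((Homeomorph.smulOfNeZero (1 - c) hc'.ne').trans
      (Homeomorph.addLeft (c • x.2))).isOpenMap _ Metric.isOpen_ball
  have hpos := hopen.measure_pos volume
    ⟨_, mem_image_of_mem _ (Metric.mem_ball_self hε)⟩
  exact (hpos.trans_le (measure_mono hsub)).ne'

/-- Equality case of Brunn-Minkowski for two origin-symmetric bodies of the same volume, in the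
direction of the first coordinate: the heights are the same.
Proof: `rad A`, `rad B` are bumps with suprema `m₁, m₂ > 0`; `layer_cake` (`k = 2`) and
`vol M ≤ v` give `((m₁+m₂)/2)^2 (m₁^(-2)+m₂^(-2))/2 ≤ 1`, hence `m₁ = m₂ = m`.  Put
`x(l) = |{rad A > l}|`, `y`, `z` for `B`, `M`.  By `bm1` and `rad_mid` the hypotheses of
`ae_eq_of_mid` hold (`integral_pow_layer`).  So `x = y` a.e.; as `l → 0+` they increase to
`|{rad A > 0}| = 2 sup_A (first coordinate)` (convex body symmetric about 0 with nonempty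
interior: `rad A s > 0` iff `|s| < sup`, and `rad A s = 0` for `|s| > sup`). -/
theorem bm3_eq_height {A B M : Set V3} (hA : Convex ℝ A) (hB : Convex ℝ B) (hAc : IsCompact A)
    (hBc : IsCompact B) (hMc : IsCompact M) (hAs : ∀ x ∈ A, -x ∈ A) (hBs : ∀ x ∈ B, -x ∈ B)
    (hv : vol A = vol B) (hpos : 0 < vol A) (h : ∀ a ∈ A, ∀ b ∈ B, (1 / 2 : ℝ) • (a + b) ∈ M)
    (hM : vol M ≤ vol A) {r : ℝ} (hr : ∀ x ∈ A, x.1 ≤ r) : ∀ x ∈ B, x.1 ≤ r := by
  obtain ⟨R, m₁, hb1⟩ := rad_bump hA hAc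
  obtain ⟨R', m₂, hb2⟩ := rad_bump hB hBc
  have hm₁ := A3_pos_of_vol hAc hpos hb1
  have hposB : 0 < vol B := hv ▸ hpos
  have hm₂ := A3_pos_of_vol hBc hposB hb2
  obtain ⟨hγm, hγ0, ⟨M', hγM⟩, R'', hγs⟩ := rad_compact hMc
  have hmid := fun s t (hs : 0 < rad A s) (ht : 0 < rad B t) =>
    rad_mid hA hB hAc hBc hMc h (A3_nonempty_of_pos hs) (A3_nonempty_of_pos ht)
  have hl := layer_cake 2 (by norm_num) hb1 hb2 hm₁ hm₂ hγm hγ0 hγM hγs hmid
  rw [← vol_eq_integral_rad hAc, ← vol_eq_integral_rad hBc, ← vol_eq_integral_rad hMc, ← hv] at hl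
  have hm : m₁ = m₂ := by
    apply A4_eq_of_amgm hm₁ hm₂
    have h1 : ((m₁ + m₂) / 2) ^ 2 * ((vol A / m₁ ^ 2 + vol A / m₂ ^ 2) / 2) =
        vol A * (((m₁ + m₂) / 2) ^ 2 * ((1 / m₁ ^ 2 + 1 / m₂ ^ 2) / 2)) := by ring
    rw [h1] at hl
    have h2 := hl.trans hM
    by_contra hcon
    push Not at hcon
    have h3 := mul_lt_mul_of_pos_left hcon hpos
    linarith
  subst hm
  obtain ⟨bA, hbA⟩ := A4_len_bd hAc
  obtain ⟨bB, hbB⟩ := A4_len_bd hBc
  obtain ⟨bM, hbM⟩ := A4_len_bd hMc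
  have hae := ae_eq_of_mid (x := A4len A) (y := A4len B) (z := A4len M) (v := vol A)
    (b := max bA (max bB bM)) hm₁ (A4_len_anti hAc _) (A4_len_anti hBc _)
    (A4_len_anti hMc _)
    (fun l hl => ⟨(hbA l hl.1).1, (hbA l hl.1).2.trans (le_max_left _ _)⟩)
    (fun l hl => ⟨(hbB l hl.1).1, ((hbB l hl.1).2.trans (le_max_left _ _)).trans
      (le_max_right _ _)⟩)
    (fun l hl => ⟨(hbM l hl.1).1, ((hbM l hl.1).2.trans (le_max_right _ _)).trans
      (le_max_right _ _)⟩)
    (by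
      intro l hl l' hl'
      have hll : 0 < (l + l') / 2 := by have := hl.1; have := hl'.1; linarith
      apply bm1 (A4_ord hb1 l) (A4_ord hb2 l') (hb1.sup l hl.2) (hb2.sup l' hl'.2)
        (A4_isBdd hb1.supp hl.1) (A4_isBdd hb2.supp hl'.1) (A4_isBdd hγs hll)
      intro s hs t ht
      have hs' : l < rad A s := hs
      have ht' : l' < rad B t := ht
      have h1 := hmid s t (hl.1.trans hs') (hl'.1.trans ht')
      change (l + l') / 2 < rad M ((s + t) / 2)
      linarith)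
    (A4_len_int hAc hm₁ hb1)
    ((A4_len_int hBc hm₁ hb2).trans hv.symm)
    ((A4_len_int_le hMc hm₁).trans hM)
  intro x hx
  by_contra hcon
  push Not at hcon
  have h0B := A4_zero_int hB hBs hposB
  have h0A := A4_zero_int hA hAs hpos
  have hr0 : 0 ≤ r := hr 0 (interior_subset h0A)
  have hx0 : 0 < x.1 := lt_of_le_of_lt hr0 hcon
  -- a height between `r` and `x.1`
  set c : ℝ := (r + x.1) / 2 / x.1 with hc
  have hcx : c * x.1 = (r + x.1) / 2 := by rw [hc]; field_simp
  have hc0 : 0 ≤ c := by positivity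
  have hc1 : c < 1 := by
    rw [hc, div_lt_one hx0]
    linarith
  have hp1 := A4_rad_pos hB hBc h0B hx hc0 hc1
  have hp2 := A4_rad_pos hB hBc h0B (hBs x hx) hc0 hc1
  rw [hcx] at hp1
  have hneg : c * (-x).1 = -((r + x.1) / 2) := by
    change c * (-x.1) = _
    rw [mul_neg, hcx]
  rw [hneg] at hp2
  set h' := (r + x.1) / 2 with hh'
  set l0 := min (min (rad B (-h')) (rad B h')) m₁ with hl0
  have hl0pos : 0 < l0 := lt_min (lt_min hp2 hp1) hm₁
  -- a good small level
  have hex : ∃ l ∈ Ioo 0 l0, A4len A l = A4len B l := by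
    by_contra hno
    push Not at hno
    have h1 : ∀ᵐ l ∂(volume.restrict (Ioo 0 l0)), A4len A l = A4len B l :=
      ae_restrict_of_ae_restrict_of_subset
        (Ioo_subset_Ioo_right (min_le_right _ _)) hae
    have h2 : ∀ᵐ l ∂(volume.restrict (Ioo 0 l0)), False := by
      filter_upwards [h1, ae_restrict_mem measurableSet_Ioo] with l h3 h4
      exact hno l h4 h3
    rw [ae_iff] at h2
    simp at h2
    linarith
  obtain ⟨l, hl, hlen⟩ := hex
  have hA1 : A4len A l ≤ 2 * r := by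
    have hsub : {s | l < rad A s} ⊆ Icc (-r) r := by
      intro s hs
      have h1 : l < rad A s := hs
      obtain ⟨z, hz⟩ := A3_nonempty_of_pos (hl.1.trans h1)
      have h2 := hr _ hz
      have h3 := hr _ (hAs _ hz)
      change -s ≤ r at h3
      exact ⟨by linarith, h2⟩
    have h1 : A4len A l ≤ (volume (Icc (-r) r)).toReal :=
      ENNReal.toReal_mono measure_Icc_lt_top.ne (measure_mono hsub)
    rw [Real.volume_Icc, ENNReal.toReal_ofReal (by linarith)] at h1
    linarith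
  have hB1 : 2 * h' ≤ A4len B l := by
    have hsub : Icc (-h') h' ⊆ {s | l < rad B s} := by
      intro s hs
      have h1 := hb2.quasi (-h') s h' hs.1 hs.2
      exact (lt_of_lt_of_le hl.2 (min_le_left _ _)).trans_le h1
    have h1 : (volume (Icc (-h') h')).toReal ≤ A4len B l :=
      ENNReal.toReal_mono
        ((measure_mono (A4_sub hb2.supp hl.1)).trans_lt measure_Icc_lt_top).ne (measure_mono hsub)
    rw [Real.volume_Icc, ENNReal.toReal_ofReal (by linarith)] at h1
    linarith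
  linarith

end Pool.Agent.H48.OR
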