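import Pool.Agent.H48.OR.A4

/-!
# OR-A5: equality case of Brunn-Minkowski, uniqueness of the optimal centre
-/

set_option autoImplicit false

namespace Pool.Agent.H48.OR

open MeasureTheory Set

/-- a functional in coordinates -/
theorem A5_coord (l : D3) (x : V3) :
    l x = l (1, (0, 0)) * x.1 + l (0, (1, 0)) * x.2.1 + l (0, (0, 1)) * x.2.2 := by
  have h : x = x.1 • ((1, (0, 0)) : V3) + x.2.1 • ((0, (1, 0)) : V3) + x.2.2 • ((0, (0, 1)) : V3) := by
    ext <;> simp
  conv_lhs => rw [h]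
  simp only [map_add, map_smul, smul_eq_mul]
  ring

/-- a linear endomorphism with trivial kernel as a continuous linear equivalence -/
theorem A5_equiv (f : V3 →ₗ[ℝ] V3) (hf : ∀ x, f x = 0 → x = 0) :
    ∃ T : V3 ≃L[ℝ] V3, ∀ x, T x = f x := by
  have hk : LinearMap.ker f = ⊥ := by
    rw [LinearMap.ker_eq_bot']
    exact hf
  refine ⟨(LinearEquiv.ofInjectiveEndo f (LinearMap.ker_eq_bot.1 hk)).toContinuousLinearEquiv,
    fun x => ?_⟩
  simp

/-- every nonzero functional is the first coordinate after a linear change of coordinates -/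
theorem exists_equiv_fst {l : D3} (hl : l ≠ 0) :
    ∃ T : V3 ≃L[ℝ] V3, ∀ x, l (T x) = x.1 := by
  set a := l (1, (0, 0)) with ha
  set b := l (0, (1, 0)) with hb
  set c := l (0, (0, 1)) with hc
  have hl' : ∀ x : V3, l x = a * x.1 + b * x.2.1 + c * x.2.2 := A5_coord l
  let p1 : V3 →ₗ[ℝ] ℝ := LinearMap.fst ℝ ℝ (ℝ × ℝ)
  let p2 : V3 →ₗ[ℝ] ℝ := (LinearMap.fst ℝ ℝ ℝ).comp (LinearMap.snd ℝ ℝ (ℝ × ℝ))
  let p3 : V3 →ₗ[ℝ] ℝ := (LinearMap.snd ℝ ℝ ℝ).comp (LinearMap.snd ℝ ℝ (ℝ × ℝ))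
  have e1 : ∀ x, p1 x = x.1 := fun _ => rfl
  have e2 : ∀ x, p2 x = x.2.1 := fun _ => rfl
  have e3 : ∀ x, p3 x = x.2.2 := fun _ => rfl
  by_cases h1 : a = 0
  · by_cases h2 : b = 0
    · have h3 : c ≠ 0 := by
        intro h3
        apply hl
        ext <;> simp [hl', h1, h2, h3]
      obtain ⟨T, hT⟩ := A5_equiv (p2.prod (p3.prod (c⁻¹ • (p1 - a • p2 - b • p3)))) (by
        intro x hx
        simp only [LinearMap.prod_apply, Function.prod, Prod.mk_eq_zero, LinearMap.smul_apply,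
          LinearMap.sub_apply, e1, e2, e3, smul_eq_mul] at hx
        obtain ⟨x1, x2, x3⟩ := hx
        rw [x1, x2, mul_zero, mul_zero, sub_zero, sub_zero] at x3
        have x4 : x.1 = 0 := by
          rcases mul_eq_zero.1 x3 with h | h
          · exact absurd (inv_eq_zero.1 h) h3
          · exact h
        ext <;> simp [x1, x2, x4])
      refine ⟨T, fun x => ?_⟩
      rw [hT, hl']
      simp only [LinearMap.prod_apply, Function.prod, LinearMap.smul_apply,
          LinearMap.sub_apply, e1, e2, e3, smul_eq_mul]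
      field_simp
      ring
    · obtain ⟨T, hT⟩ := A5_equiv (p2.prod ((b⁻¹ • (p1 - a • p2 - c • p3)).prod p3)) (by
        intro x hx
        simp only [LinearMap.prod_apply, Function.prod, Prod.mk_eq_zero, LinearMap.smul_apply,
          LinearMap.sub_apply, e1, e2, e3, smul_eq_mul] at hx
        obtain ⟨x1, x3, x2⟩ := hx
        rw [x1, x2, mul_zero, mul_zero, sub_zero, sub_zero] at x3
        have x4 : x.1 = 0 := by
          rcases mul_eq_zero.1 x3 with h | h
          · exact absurd (inv_eq_zero.1 h) h2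
          · exact h
        ext <;> simp [x1, x2, x4])
      refine ⟨T, fun x => ?_⟩
      rw [hT, hl']
      simp only [LinearMap.prod_apply, Function.prod, LinearMap.smul_apply,
          LinearMap.sub_apply, e1, e2, e3, smul_eq_mul]
      field_simp
      ring
  · obtain ⟨T, hT⟩ := A5_equiv ((a⁻¹ • (p1 - b • p2 - c • p3)).prod (p2.prod p3)) (by
      intro x hx
      simp only [LinearMap.prod_apply, Function.prod, Prod.mk_eq_zero, LinearMap.smul_apply,
        LinearMap.sub_apply, e1, e2, e3, smul_eq_mul] at hx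
      obtain ⟨x3, x1, x2⟩ := hx
      rw [x1, x2, mul_zero, mul_zero, sub_zero, sub_zero] at x3
      have x4 : x.1 = 0 := by
        rcases mul_eq_zero.1 x3 with h | h
        · exact absurd (inv_eq_zero.1 h) h1
        · exact h
      ext <;> simp [x1, x2, x4])
    refine ⟨T, fun x => ?_⟩
    rw [hT, hl']
    simp only [LinearMap.prod_apply, Function.prod, LinearMap.smul_apply,
        LinearMap.sub_apply, e1, e2, e3, smul_eq_mul]
    field_simp
    ring

/-- a linear change of coordinates multiplies volumes by a positive constant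
(`Measure.addHaar_image_continuousLinearEquiv` or `addHaar_image_linearMap`) -/
theorem exists_vol_equiv (T : V3 ≃L[ℝ] V3) :
    ∃ c : ℝ, 0 < c ∧ ∀ S : Set V3, vol (T '' S) = c * vol S := by
  refine ⟨|LinearMap.det ((T : V3 →L[ℝ] V3) : V3 →ₗ[ℝ] V3)|, ?_, fun S => ?_⟩
  · rw [abs_pos]
    exact (LinearEquiv.isUnit_det' T.toLinearEquiv).ne_zero
  · unfold vol
    rw [Measure.addHaar_image_continuousLinearEquiv, ENNReal.toReal_mul,
      ENNReal.toReal_ofReal (abs_nonneg _)]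
    rfl

/-- one inclusion of the equality case -/
theorem A5_subset {A B M : Set V3} (hA : Convex ℝ A) (hB : Convex ℝ B) (hAc : IsCompact A)
    (hBc : IsCompact B) (hMc : IsCompact M) (hAs : ∀ x ∈ A, -x ∈ A) (hBs : ∀ x ∈ B, -x ∈ B)
    (hv : vol A = vol B) (hpos : 0 < vol A) (h : ∀ a ∈ A, ∀ b ∈ B, (1 / 2 : ℝ) • (a + b) ∈ M)
    (hM : vol M ≤ vol A) : B ⊆ A := by
  intro b hb
  by_contra hbA
  obtain ⟨l, u, hl1, hl2⟩ := geometric_hahn_banach_closed_point hA hAc.isClosed hbA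
  have hAne : A.Nonempty := by
    rw [nonempty_iff_ne_empty]
    rintro rfl
    simp [vol] at hpos
  obtain ⟨a0, ha0⟩ := hAne
  have h0 : (0 : V3) ∈ A := by
    have := hA ha0 (hAs a0 ha0) (a := 1 / 2) (b := 1 / 2) (by norm_num) (by norm_num) (by norm_num)
    simpa using this
  have hu : 0 < u := by
    have := hl1 0 h0
    rwa [map_zero] at this
  have hl : l ≠ 0 := by
    rintro rfl
    simp at hl2
    linarith
  obtain ⟨T, hT⟩ := exists_equiv_fst hl
  obtain ⟨k, hk, hvol⟩ := exists_vol_equiv T.symm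
  have key := bm3_eq_height (A := T.symm '' A) (B := T.symm '' B) (M := T.symm '' M)
    (hA.linear_image (T.symm : V3 →ₗ[ℝ] V3)) (hB.linear_image (T.symm : V3 →ₗ[ℝ] V3))
    (hAc.image T.symm.continuous) (hBc.image T.symm.continuous) (hMc.image T.symm.continuous)
    (by
      rintro _ ⟨x, hx, rfl⟩
      exact ⟨-x, hAs x hx, by simp⟩)
    (by
      rintro _ ⟨x, hx, rfl⟩
      exact ⟨-x, hBs x hx, by simp⟩)
    (by rw [hvol, hvol, hv]) (by rw [hvol]; positivity)
    (by
      rintro _ ⟨x, hx, rfl⟩ _ ⟨y, hy, rfl⟩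
      exact ⟨_, h x hx y hy, by simp⟩)
    (by
      rw [hvol, hvol]
      exact mul_le_mul_of_nonneg_left hM hk.le)
    (r := u)
    (by
      rintro _ ⟨x, hx, rfl⟩
      have h1 := hT (T.symm x)
      rw [T.apply_symm_apply] at h1
      rw [← h1]
      exact (hl1 x hx).le)
    (T.symm b) ⟨b, hb, rfl⟩
  have h1 := hT (T.symm b)
  rw [T.apply_symm_apply] at h1
  rw [← h1] at key
  linarith

/-- Equality case for origin-symmetric bodies of the same volume. -/
theorem bm3_eq {A B M : Set V3} (hA : Convex ℝ A) (hB : Convex ℝ B) (hAc : IsCompact A)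
    (hBc : IsCompact B) (hMc : IsCompact M) (hAs : ∀ x ∈ A, -x ∈ A) (hBs : ∀ x ∈ B, -x ∈ B)
    (hv : vol A = vol B) (hpos : 0 < vol A) (h : ∀ a ∈ A, ∀ b ∈ B, (1 / 2 : ℝ) • (a + b) ∈ M)
    (hM : vol M ≤ vol A) : A = B := by
  refine Subset.antisymm ?_ (A5_subset hA hB hAc hBc hMc hAs hBs hv hpos h hM)
  refine A5_subset hB hA hBc hAc hMc hBs hAs hv.symm (hv ▸ hpos) ?_ (hv ▸ hM)
  intro b hb a ha
  rw [add_comm]
  exact h a ha b hb

/-- convex compact sets of the same positive volume, one inside of the other, coincide -/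
theorem A5_full {S S' : Set V3} (hS : Convex ℝ S) (hS' : Convex ℝ S') (hSc : IsCompact S)
    (hSc' : IsCompact S') (hss : S ⊆ S') (hv : vol S' ≤ vol S) (hpos : 0 < vol S) : S' ⊆ S := by
  intro b hb
  by_contra hbS
  have hint : (interior S).Nonempty := by
    by_contra hcon
    rw [not_nonempty_iff_eq_empty] at hcon
    have h1 : volume S = 0 := by
      have h2 : S ⊆ frontier S := by
        intro x hx
        rw [hSc.isClosed.frontier_eq, hcon]
        exact ⟨hx, fun h => h.elim⟩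
      exact measure_mono_null h2 (hS.addHaar_frontier volume)
    simp [vol, h1] at hpos
  obtain ⟨p, hp⟩ := hint
  have hp' : p ∈ interior S' := interior_mono hss hp
  -- points near `b` on the segment towards `p`
  have hU : IsOpen Sᶜ := hSc.isClosed.isOpen_compl
  have hcont : ContinuousAt (fun t : ℝ => t • p + (1 - t) • b) 0 := by fun_prop
  have hb0 : (fun t : ℝ => t • p + (1 - t) • b) 0 ∈ Sᶜ := by simpa using hbS
  have hev : ∀ᶠ t in nhds (0 : ℝ), t • p + (1 - t) • b ∈ Sᶜ := hcont (hU.mem_nhds hb0)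
  have hev2 : ∀ᶠ t in nhdsWithin (0 : ℝ) (Ioi 0), t • p + (1 - t) • b ∈ Sᶜ :=
    hev.filter_mono nhdsWithin_le_nhds
  have hev3 : ∀ᶠ t in nhdsWithin (0 : ℝ) (Ioi 0), t < 1 :=
    (eventually_lt_nhds (by norm_num : (0:ℝ) < 1)).filter_mono nhdsWithin_le_nhds
  obtain ⟨t, ht1, ht2, ht3⟩ := (hev2.and (hev3.and self_mem_nhdsWithin)).exists
  have ht0 : 0 < t := ht3
  have hz : t • p + (1 - t) • b ∈ interior S' :=
    hS'.combo_interior_self_mem_interior hp' hb ht0 (by linarith) (by ring)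
  have hopen : IsOpen (interior S' ∩ Sᶜ) := isOpen_interior.inter hU
  have hmpos : 0 < volume (interior S' ∩ Sᶜ) := hopen.measure_pos volume ⟨_, hz, ht1⟩
  have hsub : S ∪ (interior S' ∩ Sᶜ) ⊆ S' :=
    union_subset hss (inter_subset_left.trans interior_subset)
  have hdisj : Disjoint S (interior S' ∩ Sᶜ) := by
    rw [Set.disjoint_left]
    intro x hx hx2
    exact hx2.2 hx
  have hfin : volume S ≠ ⊤ := hSc.measure_lt_top.ne
  have hfin' : volume S' ≠ ⊤ := hSc'.measure_lt_top.ne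
  have h1 : volume S + volume (interior S' ∩ Sᶜ) ≤ volume S' := by
    rw [← measure_union hdisj hopen.measurableSet]
    exact measure_mono hsub
  have h2 : volume S' ≤ volume S := (ENNReal.toReal_le_toReal hfin' hfin).1 hv
  have h3 : volume S < volume S + volume (interior S' ∩ Sᶜ) := ENNReal.lt_add_right hfin hmpos.ne'
  exact absurd (h3.trans_le (h1.trans h2)) (lt_irrefl _)

/-- The optimal centre is unique. -/
theorem sym_unique {K : Set V3} (hK : Convex ℝ K) (hKc : IsCompact K) {c₁ c₂ : V3}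
    (h1 : ∀ c, vol (Sym K c) ≤ vol (Sym K c₁)) (h2 : vol (Sym K c₂) = vol (Sym K c₁))
    (hpos : 0 < vol (Sym K c₁)) : c₁ = c₂ := by
  set c₃ : V3 := (1 / 2 : ℝ) • (c₁ + c₂) with hc3
  have h2c3 : (2 : ℝ) • c₃ = c₁ + c₂ := by
    rw [hc3, smul_smul]
    norm_num
  -- the translated symmetric parts
  have hsymm : ∀ c : V3, ∀ x ∈ (fun x => -c + x) '' Sym K c, -x ∈ (fun x => -c + x) '' Sym K c := by
    rintro c _ ⟨x, hx, rfl⟩
    refine ⟨(2 : ℝ) • c - x, sym_refl hx, ?_⟩
    simp only [two_smul]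
    abel
  have hcv : ∀ c : V3, Convex ℝ ((fun x => -c + x) '' Sym K c) := fun c =>
    (convex_sym hK c).translate (-c)
  have hcc : ∀ c : V3, IsCompact ((fun x => -c + x) '' Sym K c) := fun c =>
    (isCompact_sym hKc c).image (by fun_prop)
  have hvv : ∀ c : V3, vol ((fun x => -c + x) '' Sym K c) = vol (Sym K c) := fun c =>
    vol_translate _ _
  have hAB := bm3_eq (hcv c₁) (hcv c₂) (hcc c₁) (hcc c₂) (hcc c₃) (hsymm c₁) (hsymm c₂)
    (by rw [hvv, hvv, h2]) (by rw [hvv]; exact hpos)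
    (by
      rintro _ ⟨x, hx, rfl⟩ _ ⟨y, hy, rfl⟩
      refine ⟨(1 / 2 : ℝ) • (x + y), ⟨?_, ?_⟩, ?_⟩
      · rw [smul_add]
        exact hK hx.1 hy.1 (by norm_num) (by norm_num) (by norm_num)
      · have e1 : (2 : ℝ) • c₃ - (1 / 2 : ℝ) • (x + y) =
            (1 / 2 : ℝ) • ((2 : ℝ) • c₁ - x) + (1 / 2 : ℝ) • ((2 : ℝ) • c₂ - y) := by
          rw [h2c3, smul_sub, smul_sub, smul_smul, smul_smul, smul_add]
          norm_num
          abel
        rw [e1]
        exact hK hx.2 hy.2 (by norm_num) (by norm_num) (by norm_num)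
      · simp only [hc3, smul_add, smul_neg]
        abel)
    (by rw [hvv, hvv]; exact h1 c₃)
  -- `Sym K c₂ = Sym K c₁ + e`
  have hmem : ∀ x, x ∈ Sym K c₁ ↔ x + (c₂ - c₁) ∈ Sym K c₂ := by
    intro x
    constructor
    · intro hx
      have : -c₁ + x ∈ (fun x => -c₂ + x) '' Sym K c₂ := hAB ▸ ⟨x, hx, rfl⟩
      obtain ⟨y, hy, hyx'⟩ := this
      have hyx : -c₂ + y = -c₁ + x := hyx'
      have : y = x + (c₂ - c₁) := by
        have h3 : y = c₂ + (-c₂ + y) := by abel
        rw [h3, hyx]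
        abel
      rw [← this]
      exact hy
    · intro hx
      have : -c₂ + (x + (c₂ - c₁)) ∈ (fun x => -c₁ + x) '' Sym K c₁ := hAB ▸ ⟨_, hx, rfl⟩
      obtain ⟨y, hy, hyx'⟩ := this
      have hyx : -c₁ + y = -c₂ + (x + (c₂ - c₁)) := hyx'
      have : y = x := by
        have h3 : y = c₁ + (-c₁ + y) := by abel
        rw [h3, hyx]
        abel
      rw [← this]
      exact hy
  have hsub1 : Sym K c₁ ⊆ Sym K c₃ := by
    intro x hx
    refine ⟨hx.1, ?_⟩
    have h3 := (hmem _).1 (sym_refl hx)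
    have h4 : (2 : ℝ) • c₁ - x + (c₂ - c₁) = (2 : ℝ) • c₃ - x := by
      rw [h2c3, two_smul]
      abel
    rw [h4] at h3
    exact h3.1
  have hsub2 : ∀ x ∈ Sym K c₁, x + (c₂ - c₁) ∈ Sym K c₃ := by
    intro x hx
    refine ⟨((hmem x).1 hx).1, ?_⟩
    have h4 : (2 : ℝ) • c₃ - (x + (c₂ - c₁)) = (2 : ℝ) • c₁ - x := by
      rw [h2c3, two_smul]
      abel
    rw [h4]
    exact hx.2
  have hfull := A5_full (convex_sym hK c₁) (convex_sym hK c₃) (isCompact_sym hKc c₁)
    (isCompact_sym hKc c₃) hsub1 (h1 c₃) hpos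
  have hshift : ∀ x ∈ Sym K c₁, x + (c₂ - c₁) ∈ Sym K c₁ := fun x hx => hfull (hsub2 x hx)
  -- iterate the shift
  by_contra hne
  have he : c₂ - c₁ ≠ 0 := sub_ne_zero.2 (Ne.symm hne)
  have hne1 : (Sym K c₁).Nonempty := by
    rw [nonempty_iff_ne_empty]
    intro h0
    rw [h0] at hpos
    simp [vol] at hpos
  obtain ⟨x0, hx0⟩ := hne1
  have hiter : ∀ n : ℕ, x0 + (n : ℝ) • (c₂ - c₁) ∈ Sym K c₁ := by
    intro n
    induction n with
    | zero => simpa using hx0
    | succ n ih =>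
      have h3 := hshift _ ih
      have h4 : x0 + (n : ℝ) • (c₂ - c₁) + (c₂ - c₁) = x0 + ((n + 1 : ℕ) : ℝ) • (c₂ - c₁) := by
        push_cast
        rw [add_smul, one_smul]
        abel
      rwa [h4] at h3
  obtain ⟨R, hR⟩ := (Metric.isBounded_iff_subset_closedBall (0 : V3)).1
    (isCompact_sym hKc c₁).isBounded
  have hepos : 0 < ‖c₂ - c₁‖ := norm_pos_iff.2 he
  obtain ⟨n, hn⟩ := exists_nat_gt ((R + ‖x0‖) / ‖c₂ - c₁‖)
  have h3 := hR (hiter n)
  rw [mem_closedBall_zero_iff] at h3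
  have h4 : ‖(n : ℝ) • (c₂ - c₁)‖ ≤ ‖x0 + (n : ℝ) • (c₂ - c₁)‖ + ‖x0‖ := by
    have : (n : ℝ) • (c₂ - c₁) = (x0 + (n : ℝ) • (c₂ - c₁)) - x0 := by abel
    calc ‖(n : ℝ) • (c₂ - c₁)‖ = ‖(x0 + (n : ℝ) • (c₂ - c₁)) - x0‖ := by rw [← this]
      _ ≤ _ := norm_sub_le _ _
  rw [norm_smul, Real.norm_of_nonneg (Nat.cast_nonneg n)] at h4
  rw [div_lt_iff₀ hepos] at hn
  linarith

end Pool.Agent.H48.OR
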