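import Pool.Agent.H48.OR.Basic

/-!
# OR-B1: continuity of the volumes of polytopes
-/

set_option autoImplicit false

namespace Pool.Agent.H48.OR

open MeasureTheory Set Filter Topology

/-- a nonzero functional has null level sets (`Measure.addHaar_affineSubspace` or Fubini) -/
theorem null_level {l : D3} (hl : l ≠ 0) (r : ℝ) : volume {x : V3 | l x = r} = 0 := by
  obtain ⟨y, hy⟩ : ∃ y, l y ≠ 0 := by
    by_contra h
    push Not at h
    exact hl (ContinuousLinearMap.ext fun x => by rw [h x]; simp)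
  have hx0 : l ((r / l y) • y) = r := by
    rw [map_smul, smul_eq_mul, div_mul_cancel₀ _ hy]
  have hker : (LinearMap.ker l.toLinearMap) ≠ ⊤ := by
    intro h
    have : y ∈ LinearMap.ker l.toLinearMap := by rw [h]; trivial
    exact hy (by simpa using this)
  have h0 := Measure.addHaar_submodule (volume : Measure V3) (LinearMap.ker l.toLinearMap) hker
  have e : {x : V3 | l x = r} =
      (fun x => -((r / l y) • y) + x) ⁻¹' (LinearMap.ker l.toLinearMap : Set V3) := by
    ext x
    simp only [Set.mem_ofPred_eq, mem_preimage, SetLike.mem_coe, LinearMap.mem_ker]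
    change l x = r ↔ l (-((r / l y) • y) + x) = 0
    rw [map_add, map_neg, hx0]
    constructor
    · intro h
      rw [h]
      ring
    · intro h
      linarith
  rw [e, measure_preimage_add]
  exact h0

theorem B1_eval {N : ℕ} {X : Type} {l : Filter X} {p : X → Fin N → D3} {p0 : Fin N → D3}
    (hp : Tendsto p l (𝓝 p0)) (k : Fin N) {c : X → V3} {c0 : V3} (hc : Tendsto c l (𝓝 c0)) :
    Tendsto (fun i => p i k (c i)) l (𝓝 (p0 k c0)) := by
  have hcont : Continuous fun q : D3 × V3 => q.1 q.2 := isBoundedBilinearMap_apply.continuous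
  exact (hcont.tendsto (p0 k, c0)).comp ((tendsto_pi_nhds.1 hp k).prodMk_nhds hc)

/-- limits of bounded polytopes are bounded: if `Poly (p i) ⊆ closedBall 0 R` eventually and
`p i → p0`, then `Poly p0 ⊆ closedBall 0 R` (for `x ∈ Poly p0` and `t < 1`, `t x ∈ Poly (p i)`
eventually) -/
theorem poly_subset_of_tendsto {N : ℕ} {X : Type} {l : Filter X} [l.NeBot]
    {p : X → Fin N → D3} {p0 : Fin N → D3} (hp : Tendsto p l (𝓝 p0)) {R : ℝ}
    (hR : ∀ᶠ i in l, Poly (p i) ⊆ Metric.closedBall 0 R) :
    Poly p0 ⊆ Metric.closedBall 0 R := by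
  intro x hx
  rw [mem_closedBall_zero_iff]
  have key : ∀ t : ℝ, 0 < t → t < 1 → t * ‖x‖ ≤ R := by
    intro t ht0 ht1
    have hlt : ∀ k, p0 k (t • x) < 1 := by
      intro k
      rw [map_smul, smul_eq_mul]
      have h1 : p0 k x ≤ 1 := hx k
      nlinarith
    have hev : ∀ᶠ i in l, ∀ k, p i k (t • x) < 1 := by
      rw [eventually_all]
      intro k
      exact (B1_eval hp k tendsto_const_nhds).eventually_lt_const (hlt k)
    obtain ⟨i, hi1, hi2⟩ := (hR.and hev).exists
    have h2 := hi1 (fun k => (hi2 k).le : t • x ∈ Poly (p i))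
    rw [mem_closedBall_zero_iff, norm_smul, Real.norm_of_nonneg ht0.le] at h2
    exact h2
  have h3 : Tendsto (fun t : ℝ => t * ‖x‖) (𝓝[<] 1) (𝓝 (1 * ‖x‖)) :=
    (tendsto_id.mul_const _).mono_left nhdsWithin_le_nhds
  rw [one_mul] at h3
  refine le_of_tendsto h3 ?_
  have h4 : ∀ᶠ t : ℝ in 𝓝[<] 1, 0 < t :=
    nhdsWithin_le_nhds (Ioi_mem_nhds (by norm_num : (0 : ℝ) < 1))
  filter_upwards [h4, self_mem_nhdsWithin] with t ht0 ht1
  exact key t ht0 ht1

theorem B1_ae_ne {N : ℕ} (p0 : Fin N → D3) (r : Fin N → ℝ) (h0 : ∀ k, p0 k = 0 → r k ≠ 0) :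
    ∀ᵐ x : V3, ∀ k, p0 k x ≠ r k := by
  rw [ae_all_iff]
  intro k
  rcases eq_or_ne (p0 k) 0 with h | h
  · refine Eventually.of_forall fun x => ?_
    rw [h]
    simpa using (h0 k h).symm
  · exact measure_eq_zero_iff_ae_notMem.1 (null_level h (r k))

/-- Continuity of the volume of a polytope.
Proof: dominated convergence (`tendsto_integral_filter_of_dominated_convergence`) for the
indicator functions, which converge at every `x` with `p0 k x ≠ 1` for all `k`; the exceptional set
is null by `null_level` (it is empty for `p0 k = 0`). -/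
theorem tendsto_vol_poly {N : ℕ} {X : Type} {l : Filter X} [l.NeBot] [l.IsCountablyGenerated]
    {p : X → Fin N → D3} {p0 : Fin N → D3} (hp : Tendsto p l (𝓝 p0)) {R : ℝ}
    (hR : ∀ᶠ i in l, Poly (p i) ⊆ Metric.closedBall 0 R) :
    Tendsto (fun i => vol (Poly (p i))) l (𝓝 (vol (Poly p0))) := by
  have hsub := poly_subset_of_tendsto hp hR
  have hfin : (volume (Poly p0)) ≠ ⊤ :=
    ((measure_mono hsub).trans_lt Metric.isBounded_closedBall.measure_lt_top).ne
  refine (ENNReal.tendsto_toReal hfin).comp ?_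
  refine tendsto_measure_of_ae_tendsto_indicator l (isClosed_poly p0).measurableSet
    (fun i => (isClosed_poly (p i)).measurableSet) Metric.isClosed_closedBall.measurableSet
    (Metric.isBounded_closedBall (x := (0 : V3)) (r := R)).measure_lt_top.ne hR ?_
  filter_upwards [B1_ae_ne p0 (fun _ => 1) (fun _ _ => one_ne_zero)] with x hx
  by_cases hmem : x ∈ Poly p0
  · have hlt : ∀ k, p0 k x < 1 := fun k => lt_of_le_of_ne (hmem k) (hx k)
    have hev : ∀ᶠ i in l, ∀ k, p i k x < 1 := by
      rw [eventually_all]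
      intro k
      exact (B1_eval hp k tendsto_const_nhds).eventually_lt_const (hlt k)
    filter_upwards [hev] with i hi
    exact iff_of_true (fun k => (hi k).le) hmem
  · have : ∃ k, 1 < p0 k x := by
      by_contra hcon
      push Not at hcon
      exact hmem hcon
    obtain ⟨k, hk⟩ := this
    filter_upwards [(B1_eval hp k tendsto_const_nhds).eventually_const_lt hk] with i hi
    exact iff_of_false (fun h => absurd (h k) (not_le.2 hi)) hmem

/-- Continuity of the volume of the symmetric part (same proof; exceptional set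
`p0 k x = 1` or `p0 k (2 c0 - x) = 1`). -/
theorem tendsto_vol_sym {N : ℕ} {X : Type} {l : Filter X} [l.NeBot] [l.IsCountablyGenerated]
    {p : X → Fin N → D3} {p0 : Fin N → D3} (hp : Tendsto p l (𝓝 p0)) {c : X → V3} {c0 : V3}
    (hc : Tendsto c l (𝓝 c0)) {R : ℝ}
    (hR : ∀ᶠ i in l, Poly (p i) ⊆ Metric.closedBall 0 R) :
    Tendsto (fun i => vol (Sym (Poly (p i)) (c i))) l (𝓝 (vol (Sym (Poly p0) c0))) := by
  have hsub := poly_subset_of_tendsto hp hR
  have hfin : (volume (Sym (Poly p0) c0)) ≠ ⊤ :=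
    ((measure_mono ((sym_subset _ _).trans hsub)).trans_lt
      Metric.isBounded_closedBall.measure_lt_top).ne
  refine (ENNReal.tendsto_toReal hfin).comp ?_
  refine tendsto_measure_of_ae_tendsto_indicator l
    (isClosed_sym (isClosed_poly p0) c0).measurableSet
    (fun i => (isClosed_sym (isClosed_poly (p i)) (c i)).measurableSet)
    Metric.isClosed_closedBall.measurableSet
    (Metric.isBounded_closedBall (x := (0 : V3)) (r := R)).measure_lt_top.ne
    (hR.mono fun i hi => (sym_subset _ _).trans hi) ?_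
  filter_upwards [B1_ae_ne p0 (fun _ => 1) (fun _ _ => one_ne_zero),
    B1_ae_ne p0 (fun k => p0 k ((2 : ℝ) • c0) - 1) (fun k hk => by rw [hk]; simp)] with x hx hx'
  have hev2 : ∀ k, Tendsto (fun i => p i k ((2 : ℝ) • c i - x)) l
      (𝓝 (p0 k ((2 : ℝ) • c0 - x))) := fun k =>
    B1_eval hp k ((hc.const_smul (2 : ℝ)).sub_const x)
  by_cases hmem : x ∈ Sym (Poly p0) c0
  · have hlt : ∀ k, p0 k x < 1 := fun k => lt_of_le_of_ne (hmem.1 k) (hx k)
    have hlt' : ∀ k, p0 k ((2 : ℝ) • c0 - x) < 1 := fun k => by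
      refine lt_of_le_of_ne (hmem.2 k) fun h => hx' k ?_
      rw [map_sub] at h
      linarith
    have hev : ∀ᶠ i in l, ∀ k, p i k x < 1 := by
      rw [eventually_all]
      intro k
      exact (B1_eval hp k tendsto_const_nhds).eventually_lt_const (hlt k)
    have hev' : ∀ᶠ i in l, ∀ k, p i k ((2 : ℝ) • c i - x) < 1 := by
      rw [eventually_all]
      intro k
      exact (hev2 k).eventually_lt_const (hlt' k)
    filter_upwards [hev, hev'] with i hi hi'
    exact iff_of_true ⟨fun k => (hi k).le, fun k => (hi' k).le⟩ hmem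
  · have hor : (∃ k, 1 < p0 k x) ∨ ∃ k, 1 < p0 k ((2 : ℝ) • c0 - x) := by
      by_contra hcon
      push Not at hcon
      exact hmem ⟨hcon.1, hcon.2⟩
    rcases hor with ⟨k, hk⟩ | ⟨k, hk⟩
    · filter_upwards [(B1_eval hp k tendsto_const_nhds).eventually_const_lt hk] with i hi
      exact iff_of_false (fun h => absurd (h.1 k) (not_le.2 hi)) hmem
    · filter_upwards [(hev2 k).eventually_const_lt hk] with i hi
      exact iff_of_false (fun h => absurd (h.2 k) (not_le.2 hi)) hmem

/-- Existence of an optimal centre.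
Proof: `c ↦ vol (Sym (Poly p) c)` is continuous by `tendsto_vol_sym` (constant `p`), and it
vanishes unless `c ∈ Poly p` (if `x` and `2c - x` lie in `Poly p` then so does `c`), which is
compact; `0 ∈ Poly p`. -/
theorem exists_centre {N : ℕ} {p : Fin N → D3} (hb : Bornology.IsBounded (Poly p)) :
    ∃ c, c ∈ Poly p ∧ ∀ c', vol (Sym (Poly p) c') ≤ vol (Sym (Poly p) c) := by
  obtain ⟨R, hR⟩ := (Metric.isBounded_iff_subset_closedBall (0 : V3)).1 hb
  have hcont : Continuous fun c : V3 => vol (Sym (Poly p) c) := by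
    rw [continuous_iff_continuousAt]
    intro c0
    exact tendsto_vol_sym (p := fun _ => p) tendsto_const_nhds tendsto_id
      (Eventually.of_forall fun _ => hR)
  obtain ⟨c, hc, hmax⟩ := (isCompact_poly hb).exists_isMaxOn ⟨0, zero_mem_poly p⟩
    hcont.continuousOn
  refine ⟨c, hc, fun c' => ?_⟩
  by_cases hc' : c' ∈ Poly p
  · exact hmax hc'
  · have : Sym (Poly p) c' = ∅ := by
      rw [eq_empty_iff_forall_notMem]
      intro x hx
      refine hc' ?_
      have := convex_poly p hx.1 hx.2 (by norm_num : (0 : ℝ) ≤ 1 / 2)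
        (by norm_num : (0 : ℝ) ≤ 1 / 2) (by norm_num)
      have e : (1 / 2 : ℝ) • x + (1 / 2 : ℝ) • ((2 : ℝ) • c' - x) = c' := by
        rw [smul_sub, smul_smul]
        norm_num
      rwa [e] at this
    rw [this]
    have h0 : vol (∅ : Set V3) = 0 := by
      unfold vol
      simp
    rw [h0]
    exact vol_nonneg _

end Pool.Agent.H48.OR
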