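import Pool.Agent.H48.OR.Basic

/-!
# OR-B2: a maximal inscribed simplex in standard position
-/

set_option autoImplicit false

namespace Pool.Agent.H48.OR

open MeasureTheory Set

/-- the determinant with columns `v₁-v₀`, `v₂-v₀`, `v₃-v₀` -/
def B2_D (v0 v1 v2 v3 : V3) : ℝ :=
  (v1.1 - v0.1) * ((v2.2.1 - v0.2.1) * (v3.2.2 - v0.2.2) - (v2.2.2 - v0.2.2) * (v3.2.1 - v0.2.1)) -
  (v2.1 - v0.1) * ((v1.2.1 - v0.2.1) * (v3.2.2 - v0.2.2) - (v1.2.2 - v0.2.2) * (v3.2.1 - v0.2.1)) +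
  (v3.1 - v0.1) * ((v1.2.1 - v0.2.1) * (v2.2.2 - v0.2.2) - (v1.2.2 - v0.2.2) * (v2.2.1 - v0.2.1))

theorem B2_continuous : Continuous fun q : V3 × V3 × V3 × V3 => B2_D q.1 q.2.1 q.2.2.1 q.2.2.2 := by
  unfold B2_D
  fun_prop

/-- the linear map with columns `a b c` -/
def B2_lin (a b c : V3) : V3 →ₗ[ℝ] V3 where
  toFun x := x.1 • a + x.2.1 • b + x.2.2 • c
  map_add' x y := by
    simp only [Prod.fst_add, Prod.snd_add, add_smul]
    abel
  map_smul' r x := by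
    simp only [Prod.smul_fst, Prod.smul_snd, smul_eq_mul, mul_smul, RingHom.id_apply, smul_add]

theorem B2_lin_inj {a b c : V3}
    (h : a.1 * (b.2.1 * c.2.2 - b.2.2 * c.2.1) - b.1 * (a.2.1 * c.2.2 - a.2.2 * c.2.1) +
      c.1 * (a.2.1 * b.2.2 - a.2.2 * b.2.1) ≠ 0) : Function.Injective (B2_lin a b c) := by
  rw [← LinearMap.ker_eq_bot, LinearMap.ker_eq_bot']
  rintro ⟨x, y, z⟩ hx
  obtain ⟨a1, a2, a3⟩ := a
  obtain ⟨b1, b2, b3⟩ := b
  obtain ⟨c1, c2, c3⟩ := c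
  simp only [B2_lin, LinearMap.coe_mk, AddHom.coe_mk, Prod.smul_mk, Prod.mk_add_mk,
    smul_eq_mul, Prod.mk_eq_zero] at hx h
  obtain ⟨h1, h2, h3⟩ := hx
  have hx0 : (a1 * (b2 * c3 - b3 * c2) - b1 * (a2 * c3 - a3 * c2) +
      c1 * (a2 * b3 - a3 * b2)) * x = 0 := by
    linear_combination (b2 * c3 - b3 * c2) * h1 - (b1 * c3 - b3 * c1) * h2 +
      (b1 * c2 - b2 * c1) * h3
  have hy0 : (a1 * (b2 * c3 - b3 * c2) - b1 * (a2 * c3 - a3 * c2) +
      c1 * (a2 * b3 - a3 * b2)) * y = 0 := by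
    linear_combination (-(a2 * c3 - a3 * c2)) * h1 + (a1 * c3 - a3 * c1) * h2 -
      (a1 * c2 - a2 * c1) * h3
  have hz0 : (a1 * (b2 * c3 - b3 * c2) - b1 * (a2 * c3 - a3 * c2) +
      c1 * (a2 * b3 - a3 * b2)) * z = 0 := by
    linear_combination (a2 * b3 - a3 * b2) * h1 - (a1 * b3 - a3 * b1) * h2 +
      (a1 * b2 - a2 * b1) * h3
  rw [(mul_eq_zero.1 hx0).resolve_left h, (mul_eq_zero.1 hy0).resolve_left h,
    (mul_eq_zero.1 hz0).resolve_left h]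
  rfl

theorem B2_exists_max {K : Set V3} (hKc : IsCompact K) (hKi : (interior K).Nonempty) :
    ∃ v0 ∈ K, ∃ v1 ∈ K, ∃ v2 ∈ K, ∃ v3 ∈ K, B2_D v0 v1 v2 v3 ≠ 0 ∧
      ∀ u0 ∈ K, ∀ u1 ∈ K, ∀ u2 ∈ K, ∀ u3 ∈ K, |B2_D u0 u1 u2 u3| ≤ |B2_D v0 v1 v2 v3| := by
  obtain ⟨c, hc⟩ := hKi
  have hcK : c ∈ K := interior_subset hc
  obtain ⟨r, hr, hball⟩ := Metric.isOpen_iff.1 isOpen_interior c hc
  have hne : (K ×ˢ K ×ˢ K ×ˢ K).Nonempty := ⟨(c, c, c, c), hcK, hcK, hcK, hcK⟩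
  obtain ⟨⟨v0, v1, v2, v3⟩, ⟨h0, h1, h2, h3⟩, hmax⟩ :=
    (hKc.prod (hKc.prod (hKc.prod hKc))).exists_isMaxOn hne
      (B2_continuous.abs.continuousOn)
  have hm : ∀ u0 ∈ K, ∀ u1 ∈ K, ∀ u2 ∈ K, ∀ u3 ∈ K,
      |B2_D u0 u1 u2 u3| ≤ |B2_D v0 v1 v2 v3| := by
    intro u0 k0 u1 k1 u2 k2 u3 k3
    exact hmax (show (u0, u1, u2, u3) ∈ K ×ˢ K ×ˢ K ×ˢ K from ⟨k0, k1, k2, k3⟩)
  refine ⟨v0, h0, v1, h1, v2, h2, v3, h3, ?_, hm⟩
  intro hzero
  have hsmall : ∀ e : V3, ‖e‖ < r → c + e ∈ K := by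
    intro e he
    apply interior_subset
    apply hball
    rw [Metric.mem_ball, dist_eq_norm, add_sub_cancel_left]
    exact he
  have hr2 : |r / 2| < r := by rw [abs_of_pos (by positivity)]; linarith
  have key := hm c hcK (c + (r / 2, 0, 0)) (hsmall _ (by
      simp only [Prod.norm_def, Real.norm_eq_abs, abs_zero, max_self]
      exact max_lt hr2 hr))
    (c + (0, r / 2, 0)) (hsmall _ (by
      simp only [Prod.norm_def, Real.norm_eq_abs, abs_zero]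
      exact max_lt hr (max_lt hr2 hr)))
    (c + (0, 0, r / 2)) (hsmall _ (by
      simp only [Prod.norm_def, Real.norm_eq_abs, abs_zero]
      exact max_lt hr (max_lt hr hr2)))
  rw [hzero, abs_zero] at key
  have hval : B2_D c (c + (r / 2, 0, 0)) (c + (0, r / 2, 0)) (c + (0, 0, r / 2)) =
      (r / 2) ^ 3 := by
    simp only [B2_D, Prod.fst_add, Prod.snd_add]
    ring
  rw [hval, abs_of_pos (by positivity)] at key
  have : 0 < (r / 2) ^ 3 := by positivity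
  linarith

/-- Normal form.  For every compact convex `K` with nonempty interior there are a linear
equivalence `T` and a vector `w` such that `K' = {x | T x + w ∈ K}` satisfies
`closedBall 0 (1/7) ⊆ K' ⊆ closedBall 0 2` (sup norm of `ℝ × (ℝ × ℝ)`).
Proof: let `D(v₀,v₁,v₂,v₃)` be the explicit 3 by 3 determinant with columns `v₁-v₀`, `v₂-v₀`,
`v₃-v₀` (a polynomial in 12 real numbers).  It is continuous; let `(v₀,...,v₃) ∈ K^4` maximise
`|D|`; the maximum is positive because `K` contains a small simplex.  Put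
`w = (v₀+v₁+v₂+v₃)/4` and let `T` be the linear map with `T e_i = v_i - w` (`i = 1,2,3`); its
determinant is `± D/4 ≠ 0`.  With `u₀ = (-1,-1,-1)`, `u_i = e_i` we have `T u_i + w = v_i` for
`i = 0,1,2,3`, so the `u_i` lie in `K'`; the barycentric coordinates of `x` w.r.t. the `u_i` are
`l₀ = (1 - x₁ - x₂ - x₃)/4`, `l_i = x_i + l₀`; they are nonnegative if `|x_i| ≤ 1/7`, hence
`closedBall 0 (1/7) ⊆ K'`.  If `x ∈ K'`, replacing `v_i` by `y = T x + w ∈ K` multiplies `D` by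
`l_i(x)` (polynomial identity), so `|l_i(x)| ≤ 1` for all `i`, and `|x_i| = |l_i - l₀| ≤ 2`. -/
theorem normal_form {K : Set V3} (hK : Convex ℝ K) (hKc : IsCompact K)
    (hKi : (interior K).Nonempty) :
    ∃ (T : V3 ≃L[ℝ] V3) (w : V3),
      Metric.closedBall 0 (1 / 7) ⊆ {x | T x + w ∈ K} ∧
      {x | T x + w ∈ K} ⊆ Metric.closedBall 0 2 := by
  obtain ⟨v0, h0, v1, h1, v2, h2, v3, h3, hD, hmax⟩ := B2_exists_max hKc hKi
  set w : V3 := (1 / 4 : ℝ) • (v0 + v1 + v2 + v3) with hw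
  have hdet : (v1 - w).1 * ((v2 - w).2.1 * (v3 - w).2.2 - (v2 - w).2.2 * (v3 - w).2.1) -
      (v2 - w).1 * ((v1 - w).2.1 * (v3 - w).2.2 - (v1 - w).2.2 * (v3 - w).2.1) +
      (v3 - w).1 * ((v1 - w).2.1 * (v2 - w).2.2 - (v1 - w).2.2 * (v2 - w).2.1) =
      B2_D v0 v1 v2 v3 / 4 := by
    simp only [hw, B2_D, Prod.fst_sub, Prod.snd_sub, Prod.smul_fst, Prod.smul_snd, Prod.fst_add,
      Prod.snd_add, smul_eq_mul]
    ring
  have hinj : Function.Injective (B2_lin (v1 - w) (v2 - w) (v3 - w)) := by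
    apply B2_lin_inj
    rw [hdet]
    exact div_ne_zero hD (by norm_num)
  have happ : ∀ x : V3, (LinearEquiv.ofInjectiveEndo _ hinj).toContinuousLinearEquiv x =
      x.1 • (v1 - w) + x.2.1 • (v2 - w) + x.2.2 • (v3 - w) := fun x => rfl
  refine ⟨(LinearEquiv.ofInjectiveEndo _ hinj).toContinuousLinearEquiv, w, ?_, ?_⟩
  · intro x hx
    rw [mem_closedBall_zero_iff, Prod.norm_def, Prod.norm_def, max_le_iff, max_le_iff,
      Real.norm_eq_abs, Real.norm_eq_abs, Real.norm_eq_abs, abs_le, abs_le, abs_le] at hx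
    obtain ⟨⟨hx1, hx1'⟩, ⟨hx2, hx2'⟩, hx3, hx3'⟩ := hx
    show _ ∈ K
    rw [happ]
    have hcomb : x.1 • (v1 - w) + x.2.1 • (v2 - w) + x.2.2 • (v3 - w) + w =
        ∑ i : Fin 4, (![(1 - x.1 - x.2.1 - x.2.2) / 4, x.1 + (1 - x.1 - x.2.1 - x.2.2) / 4,
          x.2.1 + (1 - x.1 - x.2.1 - x.2.2) / 4, x.2.2 + (1 - x.1 - x.2.1 - x.2.2) / 4] i) •
          (![v0, v1, v2, v3] i) := by
      rw [Fin.sum_univ_four]
      simp only [Matrix.cons_val]
      ext <;>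
      simp only [hw, Prod.fst_sub, Prod.snd_sub, Prod.smul_fst, Prod.smul_snd, Prod.fst_add,
        Prod.snd_add, smul_eq_mul] <;> ring
    rw [hcomb]
    apply hK.sum_mem
    · intro i _
      fin_cases i <;> simp <;> linarith
    · rw [Fin.sum_univ_four]
      simp only [Matrix.cons_val]
      ring
    · intro i _
      fin_cases i <;> simp [h0, h1, h2, h3]
  · intro x hx
    have hy : x.1 • (v1 - w) + x.2.1 • (v2 - w) + x.2.2 • (v3 - w) + w ∈ K := by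
      have := hx
      rw [mem_ofPred_eq, happ] at this
      exact this
    set y : V3 := x.1 • (v1 - w) + x.2.1 • (v2 - w) + x.2.2 • (v3 - w) + w with hyd
    have hDpos : 0 < |B2_D v0 v1 v2 v3| := abs_pos.2 hD
    have e0 : B2_D y v1 v2 v3 = (1 - x.1 - x.2.1 - x.2.2) / 4 * B2_D v0 v1 v2 v3 := by
      simp only [hyd, hw, B2_D, Prod.fst_sub, Prod.snd_sub, Prod.smul_fst, Prod.smul_snd,
        Prod.fst_add, Prod.snd_add, smul_eq_mul]
      ring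
    have e1 : B2_D v0 y v2 v3 = (x.1 + (1 - x.1 - x.2.1 - x.2.2) / 4) * B2_D v0 v1 v2 v3 := by
      simp only [hyd, hw, B2_D, Prod.fst_sub, Prod.snd_sub, Prod.smul_fst, Prod.smul_snd,
        Prod.fst_add, Prod.snd_add, smul_eq_mul]
      ring
    have e2 : B2_D v0 v1 y v3 = (x.2.1 + (1 - x.1 - x.2.1 - x.2.2) / 4) * B2_D v0 v1 v2 v3 := by
      simp only [hyd, hw, B2_D, Prod.fst_sub, Prod.snd_sub, Prod.smul_fst, Prod.smul_snd,
        Prod.fst_add, Prod.snd_add, smul_eq_mul]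
      ring
    have e3 : B2_D v0 v1 v2 y = (x.2.2 + (1 - x.1 - x.2.1 - x.2.2) / 4) * B2_D v0 v1 v2 v3 := by
      simp only [hyd, hw, B2_D, Prod.fst_sub, Prod.snd_sub, Prod.smul_fst, Prod.smul_snd,
        Prod.fst_add, Prod.snd_add, smul_eq_mul]
      ring
    have aux : ∀ l : ℝ, |l * B2_D v0 v1 v2 v3| ≤ |B2_D v0 v1 v2 v3| → |l| ≤ 1 := by
      intro l hl
      rw [abs_mul] at hl
      by_contra hcon
      push Not at hcon
      nlinarith
    have a0 := aux _ (e0 ▸ hmax y hy v1 h1 v2 h2 v3 h3)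
    have a1 := aux _ (e1 ▸ hmax v0 h0 y hy v2 h2 v3 h3)
    have a2 := aux _ (e2 ▸ hmax v0 h0 v1 h1 y hy v3 h3)
    have a3 := aux _ (e3 ▸ hmax v0 h0 v1 h1 v2 h2 y hy)
    rw [abs_le] at a0 a1 a2 a3
    rw [mem_closedBall_zero_iff, Prod.norm_def, Prod.norm_def, max_le_iff, max_le_iff,
      Real.norm_eq_abs, Real.norm_eq_abs, Real.norm_eq_abs, abs_le, abs_le, abs_le]
    refine ⟨⟨?_, ?_⟩, ⟨?_, ?_⟩, ?_, ?_⟩ <;> linarith [a0.1, a0.2, a1.1, a1.2, a2.1, a2.2, a3.1, a3.2]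

end Pool.Agent.H48.OR
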