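import Pool.Agent.H48.OR.B1

/-!
# OR-B3: the minimiser in a compact class of polytopes
-/

set_option autoImplicit false

namespace Pool.Agent.H48.OR

open MeasureTheory Set Filter Topology

/-- the compact class of normalised polytopes with at most `N` facets -/
def Cls (N : ℕ) : Set (Fin N → D3) :=
  {p | Metric.closedBall 0 (1 / 7) ⊆ Poly p ∧ Poly p ⊆ Metric.closedBall 0 2}

/-- the functionals of a member of the class have norm at most `7` -/
theorem B3_norm_le {N : ℕ} {p : Fin N → D3} (hp : p ∈ Cls N) (k : Fin N) : ‖p k‖ ≤ 7 := by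
  have key : ∀ x : V3, p k x ≤ 7 * ‖x‖ := by
    intro x
    rcases eq_or_ne x 0 with rfl | hx
    · simp
    have hx' : 0 < ‖x‖ := norm_pos_iff.2 hx
    have hmem : (1 / 7 / ‖x‖) • x ∈ Metric.closedBall (0 : V3) (1 / 7) := by
      rw [mem_closedBall_zero_iff, norm_smul, Real.norm_of_nonneg (by positivity),
        div_mul_cancel₀ _ hx'.ne']
    have h1 := hp.1 hmem k
    rw [map_smul, smul_eq_mul, div_mul_eq_mul_div, div_le_iff₀ hx'] at h1
    linarith
  refine ContinuousLinearMap.opNorm_le_bound _ (by norm_num) fun x => ?_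
  rw [Real.norm_eq_abs, abs_le]
  constructor
  · have h2 := key (-x)
    rw [map_neg, norm_neg] at h2
    linarith
  · exact key x

/-- the class is closed -/
theorem B3_isClosed (N : ℕ) : IsClosed (Cls N) := by
  refine isClosed_of_closure_subset fun p hp => ?_
  rw [mem_closure_iff_seq_limit] at hp
  obtain ⟨u, hu, hlim⟩ := hp
  refine ⟨fun x hx k => ?_, ?_⟩
  · have h1 : Tendsto (fun n => u n k x) atTop (𝓝 (p k x)) := by
      have h2 : Tendsto (fun n => u n k) atTop (𝓝 (p k)) :=
        (tendsto_pi_nhds.1 hlim) k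
      have h3 : Continuous fun l : D3 => l x := (ContinuousLinearMap.apply ℝ ℝ x).continuous
      exact (h3.tendsto (p k)).comp h2
    exact le_of_tendsto' h1 fun n => (hu n).1 hx k
  · exact poly_subset_of_tendsto hlim (Eventually.of_forall fun n => (hu n).2)

/-- Compactness: `‖p k‖ ≤ 7` for `p ∈ Cls N`, and the class is closed (`poly_subset_of_tendsto`). -/
theorem isCompact_cls (N : ℕ) : IsCompact (Cls N) := by
  have : ProperSpace D3 := FiniteDimensional.proper_real D3
  refine Metric.isCompact_of_isClosed_isBounded (B3_isClosed N) ?_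
  rw [Metric.isBounded_iff_subset_closedBall (0 : Fin N → D3)]
  refine ⟨7, fun p hp => ?_⟩
  rw [mem_closedBall_zero_iff, pi_norm_le_iff_of_nonneg (by norm_num)]
  exact fun k => B3_norm_le hp k

/-- The minimiser in the class.
Proof: `φ(p) = vol (Sym (Poly p) c_p) / vol (Poly p)`, `c_p` an optimal centre (`exists_centre`);
`φ` is bounded below by `0`; take a minimising sequence `p_n` in the compact `Cls N`, a convergent
subsequence `p_n → p` (first countable), and `c` an optimal centre of `p`.  For every `n`: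
`φ(p_n) ≥ vol (Sym (Poly p_n) c) / vol (Poly p_n) → vol (Sym (Poly p) c) / vol (Poly p) = φ(p)`
by `tendsto_vol_sym`, `tendsto_vol_poly`.  So `p` minimises. -/
theorem exists_minimiser_cls {N : ℕ} (hne : (Cls N).Nonempty) :
    ∃ p ∈ Cls N, ∃ c, (∀ c', vol (Sym (Poly p) c') ≤ vol (Sym (Poly p) c)) ∧
      ∀ q ∈ Cls N, ∃ c',
        vol (Sym (Poly p) c) * vol (Poly q) ≤ vol (Sym (Poly q) c') * vol (Poly p) := by
  classical
  have hb : ∀ p ∈ Cls N, Bornology.IsBounded (Poly p) := fun p hp =>
    Metric.isBounded_closedBall.subset hp.2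
  have hc : ∀ p : Fin N → D3, ∃ c, p ∈ Cls N →
      ∀ c', vol (Sym (Poly p) c') ≤ vol (Sym (Poly p) c) := by
    intro p
    by_cases hp : p ∈ Cls N
    · obtain ⟨c, -, h⟩ := exists_centre (hb p hp)
      exact ⟨c, fun _ => h⟩
    · exact ⟨0, fun h => absurd h hp⟩
  choose c hc using hc
  have hlsc : LowerSemicontinuousOn
      (fun p : Fin N → D3 => vol (Sym (Poly p) (c p)) / vol (Poly p)) (Cls N) := by
    intro p hp y hy
    have hne' : (𝓝[Cls N] p).NeBot := mem_closure_iff_nhdsWithin_neBot.1 (subset_closure hp)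
    have hid : Tendsto (fun q : Fin N → D3 => q) (𝓝[Cls N] p) (𝓝 p) := nhdsWithin_le_nhds
    have hR : ∀ᶠ q in 𝓝[Cls N] p, Poly q ⊆ Metric.closedBall 0 2 := by
      filter_upwards [self_mem_nhdsWithin] with q hq using hq.2
    have h1 := tendsto_vol_poly hid hR
    have h2 := tendsto_vol_sym hid (tendsto_const_nhds (x := c p)) hR
    have h3 := h2.div h1 (vol_poly_pos (hb p hp)).ne'
    filter_upwards [h3.eventually_const_lt hy, self_mem_nhdsWithin] with q hq1 hq2
    refine lt_of_lt_of_le hq1 ?_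
    exact div_le_div_of_nonneg_right (hc q hq2 (c p)) (vol_nonneg _)
  obtain ⟨p, hp, hmin⟩ := hlsc.exists_isMinOn hne (isCompact_cls N)
  refine ⟨p, hp, c p, hc p hp, fun q hq => ⟨c q, ?_⟩⟩
  have h : vol (Sym (Poly p) (c p)) / vol (Poly p) ≤ vol (Sym (Poly q) (c q)) / vol (Poly q) :=
    hmin hq
  rwa [div_le_div_iff₀ (vol_poly_pos (hb p hp)) (vol_poly_pos (hb q hq))] at h

end Pool.Agent.H48.OR
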