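import Pool.Agent.H48.OR.B2
import Pool.Agent.H48.OR.B3

/-!
# OR-B4: the global minimiser, centred
-/

set_option autoImplicit false

namespace Pool.Agent.H48.OR

open MeasureTheory Set Filter Topology

/-- an affine change of coordinates multiplies all volumes by the same positive constant -/
theorem exists_vol_affine (T : V3 ≃L[ℝ] V3) (w : V3) :
    ∃ c : ℝ, 0 < c ∧ ∀ S : Set V3, vol S = c * vol {x | T x + w ∈ S} := by
  have hdet : IsUnit (LinearMap.det ((T : V3 →L[ℝ] V3) : V3 →ₗ[ℝ] V3)) :=
    T.toLinearEquiv.isUnit_det'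
  refine ⟨|LinearMap.det ((T : V3 →L[ℝ] V3) : V3 →ₗ[ℝ] V3)|, abs_pos.2 hdet.ne_zero,
    fun S => ?_⟩
  have h1 : T '' {x | T x + w ∈ S} = (fun h => h + w) ⁻¹' S := by
    ext y
    constructor
    · rintro ⟨x, hx, rfl⟩
      exact hx
    · intro hy
      refine ⟨T.symm y, ?_, T.apply_symm_apply y⟩
      change T (T.symm y) + w ∈ S
      rw [T.apply_symm_apply]
      exact hy
  have h2 := Measure.addHaar_image_continuousLinearEquiv (volume : Measure V3) T
    {x | T x + w ∈ S}
  rw [h1, measure_preimage_add_right] at h2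
  unfold vol
  rw [h2, ENNReal.toReal_mul, ENNReal.toReal_ofReal (abs_nonneg _)]
  rfl

/-- auxiliary: rescaled functionals -/
theorem B4_mem_iff {a s : ℝ} (hs : 0 < s) : s⁻¹ * a ≤ 1 ↔ a ≤ s := by
  rw [inv_mul_le_iff₀ hs, mul_one]

/-- every bounded `Poly q` is affinely equivalent to a member of the class `Cls N`:
`T`, `w` from `normal_form`, `p k = (q k ∘ T) / (1 - q k w)` (here `q k w < 1` because
`w = T 0 + w` is an interior point of `Poly q`, since `closedBall 0 (1/7)` is mapped into it). -/
theorem exists_cls_equiv {N : ℕ} {q : Fin N → D3} (hq : Bornology.IsBounded (Poly q)) :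
    ∃ p ∈ Cls N, ∃ (T : V3 ≃L[ℝ] V3) (w : V3), Poly p = {x | T x + w ∈ Poly q} ∧
      ∀ c, Sym (Poly p) c = {x | T x + w ∈ Sym (Poly q) (T c + w)} := by
  obtain ⟨T, w, hball, hsub⟩ := normal_form (convex_poly q) (isCompact_poly hq)
    ⟨0, zero_mem_interior_poly q⟩
  have hlt : ∀ k, q k w < 1 := by
    intro k
    by_contra hcon
    push Not at hcon
    have hle : ∀ x ∈ Metric.closedBall (0 : V3) (1 / 7), q k (T x) ≤ 0 := by
      intro x hx
      have h1 := hball hx k
      rw [map_add] at h1
      linarith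
    have hzero : ∀ x ∈ Metric.closedBall (0 : V3) (1 / 7), q k (T x) = 0 := by
      intro x hx
      have h1 := hle x hx
      have hx' : -x ∈ Metric.closedBall (0 : V3) (1 / 7) := by
        rw [mem_closedBall_zero_iff, norm_neg]
        exact mem_closedBall_zero_iff.1 hx
      have h2 := hle (-x) hx'
      rw [map_neg, map_neg] at h2
      linarith
    -- scale `T.symm w` into the ball
    set v : V3 := T.symm w with hv
    have hpos : 0 < 7 * (1 + ‖v‖) := by positivity
    have hmem : (7 * (1 + ‖v‖))⁻¹ • v ∈ Metric.closedBall (0 : V3) (1 / 7) := by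
      rw [mem_closedBall_zero_iff, norm_smul, norm_inv, Real.norm_of_nonneg hpos.le,
        inv_mul_le_iff₀ hpos]
      linarith [norm_nonneg v]
    have h3 := hzero _ hmem
    rw [map_smul, map_smul, hv, T.apply_symm_apply, smul_eq_mul] at h3
    rcases mul_eq_zero.1 h3 with h | h
    · exact absurd h (inv_pos.2 hpos).ne'
    · linarith
  let p : Fin N → D3 := fun k => (1 - q k w)⁻¹ • ((q k).comp (T : V3 →L[ℝ] V3))
  have hmem : ∀ x, x ∈ Poly p ↔ T x + w ∈ Poly q := by
    intro x
    refine forall_congr' fun k => ?_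
    have hs : 0 < 1 - q k w := by linarith [hlt k]
    have h1 : p k x = (1 - q k w)⁻¹ * q k (T x) := rfl
    rw [h1, B4_mem_iff hs, map_add]
    constructor <;> intro h <;> linarith
  have hP : Poly p = {x | T x + w ∈ Poly q} := by
    ext x
    exact hmem x
  refine ⟨p, ⟨?_, ?_⟩, T, w, hP, fun c => ?_⟩
  · rw [hP]
    exact hball
  · rw [hP]
    exact hsub
  · ext x
    constructor
    · rintro ⟨h1, h2⟩
      refine ⟨(hmem x).1 h1, ?_⟩
      have h3 := (hmem _).1 h2
      rw [map_sub, map_smul] at h3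
      have h4 : (2 : ℝ) • (T c + w) - (T x + w) = (2 : ℝ) • T c - T x + w := by
        rw [smul_add, two_smul ℝ w]
        abel
      rw [h4]
      exact h3
    · rintro ⟨h1, h2⟩
      refine ⟨(hmem x).2 h1, (hmem _).2 ?_⟩
      rw [map_sub, map_smul]
      have h4 : (2 : ℝ) • (T c + w) - (T x + w) = (2 : ℝ) • T c - T x + w := by
        rw [smul_add, two_smul ℝ w]
        abel
      rw [← h4]
      exact h2

/-- translation of a polytope so that a given interior point becomes the origin:
`p k = q k / (1 - q k c)` -/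
theorem exists_recentre {N : ℕ} {q : Fin N → D3} (hq : Bornology.IsBounded (Poly q)) {c : V3}
    (hc : 0 < vol (Sym (Poly q) c)) :
    ∃ p : Fin N → D3, Poly p = {x | x + c ∈ Poly q} ∧
      ∀ d, Sym (Poly p) d = {x | x + c ∈ Sym (Poly q) (d + c)} := by
  have hlt : ∀ k, q k c < 1 := by
    intro k
    by_contra hcon
    push Not at hcon
    have hsub : Sym (Poly q) c ⊆ {x : V3 | q k x = 1} := by
      rintro x ⟨h1, h2⟩
      have h3 := h1 k
      have h4 := h2 k
      rw [map_sub, map_smul, smul_eq_mul] at h4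
      change q k x = 1
      linarith
    rcases eq_or_ne (q k) 0 with h0 | h0
    · rw [h0] at hcon
      simp at hcon
      linarith
    · have h5 : volume (Sym (Poly q) c) = 0 :=
        measure_mono_null hsub (null_level h0 1)
      unfold vol at hc
      rw [h5] at hc
      simp at hc
  let p : Fin N → D3 := fun k => (1 - q k c)⁻¹ • q k
  have hmem : ∀ x, x ∈ Poly p ↔ x + c ∈ Poly q := by
    intro x
    refine forall_congr' fun k => ?_
    have hs : 0 < 1 - q k c := by linarith [hlt k]
    have h1 : p k x = (1 - q k c)⁻¹ * q k x := rfl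
    rw [h1, B4_mem_iff hs, map_add]
    constructor <;> intro h <;> linarith
  have hP : Poly p = {x | x + c ∈ Poly q} := by
    ext x
    exact hmem x
  refine ⟨p, hP, fun d => ?_⟩
  have h4 : ∀ x : V3, (2 : ℝ) • (d + c) - (x + c) = (2 : ℝ) • d - x + c := by
    intro x
    rw [smul_add, two_smul ℝ c]
    abel
  ext x
  constructor
  · rintro ⟨h1, h2⟩
    refine ⟨(hmem x).1 h1, ?_⟩
    rw [h4]
    exact (hmem _).1 h2
  · rintro ⟨h1, h2⟩
    refine ⟨(hmem x).2 h1, (hmem _).2 ?_⟩
    rw [← h4]
    exact h2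

/-- The global minimiser, with optimal centre at the origin: combine `exists_minimiser_cls`,
`exists_cls_equiv` (for the competitor `q`, and for nonemptiness of the class), and
`exists_recentre` (for the minimiser and its optimal centre; `vol (Sym (Poly p) c) > 0` by
optimality and `vol_sym_zero_pos`). -/
theorem exists_minimiser {N : ℕ} (hN : ∃ q : Fin N → D3, Bornology.IsBounded (Poly q)) :
    ∃ p : Fin N → D3, Bornology.IsBounded (Poly p) ∧
      (∀ c, vol (Sym (Poly p) c) ≤ vol (Sym (Poly p) 0)) ∧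
      ∀ q : Fin N → D3, Bornology.IsBounded (Poly q) → ∃ c,
        vol (Sym (Poly p) 0) * vol (Poly q) ≤ vol (Sym (Poly q) c) * vol (Poly p) := by
  obtain ⟨q0, hq0⟩ := hN
  obtain ⟨p0, hp0, -⟩ := exists_cls_equiv hq0
  obtain ⟨p, hp, c, hopt, hmin⟩ := exists_minimiser_cls ⟨p0, hp0⟩
  have hpb : Bornology.IsBounded (Poly p) := Metric.isBounded_closedBall.subset hp.2
  have hcpos : 0 < vol (Sym (Poly p) c) := lt_of_lt_of_le (vol_sym_zero_pos hpb) (hopt 0)
  obtain ⟨p', hP', hS'⟩ := exists_recentre hpb hcpos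
  obtain ⟨κ, hκ, hvol⟩ := exists_vol_affine (ContinuousLinearEquiv.refl ℝ V3) c
  have hv1 : vol (Poly p) = κ * vol (Poly p') := by
    rw [hvol (Poly p), hP']
    rfl
  have hv2 : ∀ d, vol (Sym (Poly p) (d + c)) = κ * vol (Sym (Poly p') d) := by
    intro d
    rw [hvol (Sym (Poly p) (d + c)), hS' d]
    rfl
  refine ⟨p', ?_, ?_, ?_⟩
  · rw [hP']
    have h1 : {x : V3 | x + c ∈ Poly p} ⊆ (fun y => y - c) '' Poly p := by
      intro x hx
      exact ⟨x + c, hx, add_sub_cancel_right x c⟩
    refine Bornology.IsBounded.subset ?_ h1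
    exact ((isCompact_poly hpb).image (by fun_prop)).isBounded
  · intro d
    have h1 := hopt (d + c)
    have h2 := hv2 d
    have h3 := hv2 0
    rw [zero_add] at h3
    rw [h2, h3] at h1
    exact le_of_mul_le_mul_left h1 hκ
  · intro q hq
    obtain ⟨q', hq', T, w, hPq, hSq⟩ := exists_cls_equiv hq
    obtain ⟨c', hc'⟩ := hmin q' hq'
    obtain ⟨μ, hμ, hvolq⟩ := exists_vol_affine T w
    have hw1 : vol (Poly q) = μ * vol (Poly q') := by
      rw [hvolq (Poly q), hPq]
    have hw2 : vol (Sym (Poly q) (T c' + w)) = μ * vol (Sym (Poly q') c') := by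
      rw [hvolq (Sym (Poly q) (T c' + w)), hSq c']
    refine ⟨T c' + w, ?_⟩
    have h3 := hv2 0
    rw [zero_add] at h3
    rw [h3, hv1] at hc'
    rw [hw1, hw2]
    have h4 : κ * (vol (Sym (Poly p') 0) * vol (Poly q')) ≤
        κ * (vol (Sym (Poly q') c') * vol (Poly p')) := by
      calc κ * (vol (Sym (Poly p') 0) * vol (Poly q'))
          = κ * vol (Sym (Poly p') 0) * vol (Poly q') := by ring
        _ ≤ vol (Sym (Poly q') c') * (κ * vol (Poly p')) := hc'
        _ = κ * (vol (Sym (Poly q') c') * vol (Poly p')) := by ring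
    have h5 := le_of_mul_le_mul_left h4 hκ
    calc vol (Sym (Poly p') 0) * (μ * vol (Poly q'))
        = μ * (vol (Sym (Poly p') 0) * vol (Poly q')) := by ring
      _ ≤ μ * (vol (Sym (Poly q') c') * vol (Poly p')) :=
          mul_le_mul_of_nonneg_left h5 hμ.le
      _ = μ * vol (Sym (Poly q') c') * vol (Poly p') := by ring

end Pool.Agent.H48.OR
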