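import Pool.Agent.H48.OR.Defs

/-!
# Outer reduction for MP_0069fb: elementary facts
-/

set_option autoImplicit false

namespace Pool.Agent.H48.OR

open MeasureTheory Set Metric
open scoped Pointwise

variable {ι : Type}

theorem isClosed_poly (p : ι → D3) : IsClosed (Poly p) := by
  have : Poly p = ⋂ k, {x | p k x ≤ 1} := by ext x; simp [Poly]
  rw [this]
  exact isClosed_iInter fun k => isClosed_le (p k).continuous continuous_const

theorem convex_poly (p : ι → D3) : Convex ℝ (Poly p) := by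
  have : Poly p = ⋂ k, {x | p k x ≤ 1} := by ext x; simp [Poly]
  rw [this]
  exact convex_iInter fun k => convex_halfSpace_le (p k).toLinearMap.isLinear 1

theorem isCompact_poly {p : ι → D3} (hb : Bornology.IsBounded (Poly p)) : IsCompact (Poly p) :=
  Metric.isCompact_of_isClosed_isBounded (isClosed_poly p) hb

theorem zero_mem_poly (p : ι → D3) : (0 : V3) ∈ Poly p := by
  intro k; simp

theorem ball_subset_poly [Finite ι] (p : ι → D3) :
    ∃ r : ℝ, 0 < r ∧ closedBall (0 : V3) r ⊆ Poly p := by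
  classical
  have := Fintype.ofFinite ι
  refine ⟨1 / (1 + ∑ k, ‖p k‖), by positivity, fun x hx k => ?_⟩
  rw [mem_closedBall_zero_iff] at hx
  have h1 : p k x ≤ ‖p k‖ * ‖x‖ := (le_abs_self _).trans ((p k).le_opNorm x)
  have h2 : ‖p k‖ ≤ 1 + ∑ i, ‖p i‖ := by
    have : ‖p k‖ ≤ ∑ i, ‖p i‖ := Finset.single_le_sum (f := fun i => ‖p i‖)
      (fun i _ => norm_nonneg _) (Finset.mem_univ k)
    linarith
  have h3 : (0 : ℝ) < 1 + ∑ i, ‖p i‖ := by positivity
  calc p k x ≤ ‖p k‖ * ‖x‖ := h1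
    _ ≤ (1 + ∑ i, ‖p i‖) * (1 / (1 + ∑ i, ‖p i‖)) := by
        apply mul_le_mul h2 hx (norm_nonneg _) h3.le
    _ = 1 := by field_simp

theorem zero_mem_interior_poly [Finite ι] (p : ι → D3) : (0 : V3) ∈ interior (Poly p) := by
  obtain ⟨r, hr, h⟩ := ball_subset_poly p
  rw [mem_interior]
  exact ⟨ball 0 r, ball_subset_closedBall.trans h, isOpen_ball, mem_ball_self hr⟩

theorem nonempty_index {p : ι → D3} (hb : Bornology.IsBounded (Poly p)) : Nonempty ι := by
  by_contra h
  rw [not_nonempty_iff] at h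
  have : Poly p = univ := by
    ext x; simp [Poly]
  rw [this] at hb
  obtain ⟨R, hR⟩ := (Metric.isBounded_iff_subset_closedBall (0 : V3)).1 hb
  have h1 : ((|R| + 1, (0, 0)) : V3) ∈ closedBall (0 : V3) R := hR (mem_univ _)
  rw [mem_closedBall_zero_iff] at h1
  have h2 : |(|R| + 1)| ≤ ‖((|R| + 1, (0, 0)) : V3)‖ := norm_fst_le ((|R| + 1, (0, 0)) : V3)
  have h3 : |(|R| + 1)| = |R| + 1 := abs_of_nonneg (by positivity)
  have h4 := le_abs_self R
  linarith

/-- for a bounded polytope the gauge `max_k p_k` is bounded below by a multiple of the norm -/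
theorem gauge_lower [Finite ι] {p : ι → D3} (hb : Bornology.IsBounded (Poly p)) :
    ∃ m : ℝ, 0 < m ∧ ∀ y : V3, ∃ k, m * ‖y‖ ≤ p k y := by
  obtain ⟨R, hR⟩ := (Metric.isBounded_iff_subset_closedBall (0 : V3)).1 hb
  have hne := nonempty_index hb
  refine ⟨1 / (|R| + 1), by positivity, fun y => ?_⟩
  by_contra hcon
  push Not at hcon
  obtain ⟨k0⟩ := hne
  rcases eq_or_ne y 0 with rfl | hy
  · have := hcon k0
    simp at this
  have hy' : 0 < ‖y‖ := norm_pos_iff.2 hy
  have hpos : 0 < |R| + 1 := by positivity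
  -- scale `y` to norm `|R| + 1`
  have hmem : ((|R| + 1) / ‖y‖) • y ∈ Poly p := by
    intro k
    rw [map_smul, smul_eq_mul]
    have h1 := hcon k
    have h2 : (|R| + 1) / ‖y‖ * p k y ≤ (|R| + 1) / ‖y‖ * (1 / (|R| + 1) * ‖y‖) :=
      mul_le_mul_of_nonneg_left h1.le (by positivity)
    refine h2.trans (le_of_eq ?_)
    field_simp
  have h3 := hR hmem
  rw [mem_closedBall_zero_iff, norm_smul, Real.norm_of_nonneg (by positivity),
    div_mul_cancel₀ _ hy'.ne'] at h3
  linarith [le_abs_self R]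

theorem sym_subset (K : Set V3) (c : V3) : Sym K c ⊆ K := fun _ hx => hx.1

theorem sym_refl {K : Set V3} {c x : V3} (hx : x ∈ Sym K c) : (2 : ℝ) • c - x ∈ Sym K c := by
  refine ⟨hx.2, ?_⟩
  rw [sub_sub_cancel]
  exact hx.1

theorem convex_sym {K : Set V3} (hK : Convex ℝ K) (c : V3) : Convex ℝ (Sym K c) := by
  intro x hx y hy a b ha hb hab
  refine ⟨hK hx.1 hy.1 ha hb hab, ?_⟩
  have := hK hx.2 hy.2 ha hb hab
  have h2 : (2 : ℝ) • c - (a • x + b • y) = a • ((2 : ℝ) • c - x) + b • ((2 : ℝ) • c - y) := by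
    rw [smul_sub, smul_sub]
    have : (2 : ℝ) • c = a • (2 : ℝ) • c + b • (2 : ℝ) • c := by rw [← add_smul, hab, one_smul]
    nth_rewrite 1 [this]
    abel
  rw [h2]
  exact this

theorem isClosed_sym {K : Set V3} (hK : IsClosed K) (c : V3) : IsClosed (Sym K c) := by
  have : Sym K c = K ∩ (fun x => (2 : ℝ) • c - x) ⁻¹' K := rfl
  rw [this]
  exact hK.inter (hK.preimage (by fun_prop))

theorem isCompact_sym {K : Set V3} (hK : IsCompact K) (c : V3) : IsCompact (Sym K c) :=
  hK.of_isClosed_subset (isClosed_sym hK.isClosed c) (sym_subset K c)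

theorem vol_nonneg (S : Set V3) : 0 ≤ vol S := ENNReal.toReal_nonneg

theorem area_nonneg (S : Set (ℝ × ℝ)) : 0 ≤ area S := ENNReal.toReal_nonneg

theorem vol_mono {S T : Set V3} (h : S ⊆ T) (hT : Bornology.IsBounded T) : vol S ≤ vol T :=
  ENNReal.toReal_mono hT.measure_lt_top.ne (measure_mono h)

theorem area_mono {S T : Set (ℝ × ℝ)} (h : S ⊆ T) (hT : Bornology.IsBounded T) :
    area S ≤ area T :=
  ENNReal.toReal_mono hT.measure_lt_top.ne (measure_mono h)

theorem vol_pos_of_interior {S : Set V3} (hS : Bornology.IsBounded S)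
    (hi : (interior S).Nonempty) : 0 < vol S :=
  ENNReal.toReal_pos (Measure.measure_pos_of_nonempty_interior _ hi).ne' hS.measure_lt_top.ne

theorem vol_translate (S : Set V3) (a : V3) : vol ((fun x => a + x) '' S) = vol S := by
  unfold vol
  rw [Set.image_add_left, measure_preimage_add]

theorem vol_smul (S : Set V3) (r : ℝ) : vol (r • S) = |r| ^ 3 * vol S := by
  unfold vol
  rw [Measure.addHaar_smul]
  have h3 : Module.finrank ℝ V3 = 3 := by simp [V3]
  rw [h3, ENNReal.toReal_mul, abs_pow, ENNReal.toReal_ofReal (by positivity)]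

theorem area_smul (S : Set (ℝ × ℝ)) (r : ℝ) : area (r • S) = |r| ^ 2 * area S := by
  unfold area
  rw [Measure.addHaar_smul]
  have h3 : Module.finrank ℝ (ℝ × ℝ) = 2 := by simp
  rw [h3, ENNReal.toReal_mul, abs_pow, ENNReal.toReal_ofReal (by positivity)]

theorem vol_poly_pos [Finite ι] {p : ι → D3} (hb : Bornology.IsBounded (Poly p)) :
    0 < vol (Poly p) :=
  vol_pos_of_interior hb ⟨0, zero_mem_interior_poly p⟩

theorem vol_sym_zero_pos [Finite ι] {p : ι → D3} (hb : Bornology.IsBounded (Poly p)) :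
    0 < vol (Sym (Poly p) 0) := by
  refine vol_pos_of_interior (hb.subset (sym_subset _ _)) ⟨0, ?_⟩
  obtain ⟨r, hr, h⟩ := ball_subset_poly p
  rw [mem_interior]
  refine ⟨ball 0 r, fun x hx => ⟨h (ball_subset_closedBall hx), ?_⟩, isOpen_ball, mem_ball_self hr⟩
  rw [smul_zero, zero_sub]
  apply h
  rw [mem_closedBall_zero_iff, norm_neg]
  exact (mem_ball_zero_iff.1 hx).le

end Pool.Agent.H48.OR
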