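import Pool.Agent.H48.OR.Basic

/-!
# OR-C1: volumes as exponential integrals of gauges
-/

set_option autoImplicit false

namespace Pool.Agent.H48.OR

open MeasureTheory Set
open scoped Pointwise

/-- `max_k p_k y` -/
noncomputable def gmax {N : ℕ} (p : Fin N → D3) (y : V3) : ℝ := ⨆ k, p k y

/-- `max_k |p_k y| / (1 - p_k c)` -/
noncomputable def nmax {N : ℕ} (p : Fin N → D3) (c y : V3) : ℝ := ⨆ k, |p k y| / (1 - p k c)

theorem C1_gamma4 : ∫⁻ r in Ioi (0 : ℝ), ENNReal.ofReal (Real.exp (-r) * r ^ 3) =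
    ENNReal.ofReal 6 := by
  have h1 := Real.Gamma_eq_integral (s := 4) (by norm_num)
  have h2 := Real.GammaIntegral_convergent (s := 4) (by norm_num)
  have h3 : ∀ r : ℝ, r ^ ((4 : ℝ) - 1) = r ^ 3 := by
    intro r
    have : (4 : ℝ) - 1 = ((3 : ℕ) : ℝ) := by norm_num
    rw [this, Real.rpow_natCast]
  simp_rw [h3] at h1 h2
  have h4 : Real.Gamma 4 = 6 := by
    have h5 := Real.Gamma_nat_eq_factorial 3
    have h6 : ((3 : ℕ) : ℝ) + 1 = 4 := by norm_num
    rw [h6] at h5
    rw [h5]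
    simp [Nat.factorial]
  rw [← h4, h1, ofReal_integral_eq_lintegral_ofReal h2]
  filter_upwards [ae_restrict_mem measurableSet_Ioi] with r hr
  have : (0 : ℝ) < r := hr
  positivity

theorem C1_lint_exp (a : ℝ) : ENNReal.ofReal (Real.exp (-a)) =
    ∫⁻ r, (Ici a).indicator (fun r => ENNReal.ofReal (Real.exp (-r))) r := by
  rw [lintegral_indicator measurableSet_Ici, setLIntegral_congr Ioi_ae_eq_Ici.symm,
    ← integral_exp_neg_Ioi a, ofReal_integral_eq_lintegral_ofReal]
  · exact integrableOn_exp_neg_Ioi a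
  · exact Filter.Eventually.of_forall fun r => (Real.exp_pos _).le

theorem C1_scale {C : Set V3} (hcone : ∀ x ∈ C, ∀ r : ℝ, 0 < r → r • x ∈ C) {g : V3 → ℝ}
    (hg1 : ∀ x, ∀ r : ℝ, 0 ≤ r → g (r • x) = r * g x) {r : ℝ} (hr : 0 < r) :
    volume {x | x ∈ C ∧ g x ≤ r} = ENNReal.ofReal (r ^ 3) * volume {x | x ∈ C ∧ g x ≤ 1} := by
  have h1 : {x | x ∈ C ∧ g x ≤ r} = r • {x | x ∈ C ∧ g x ≤ 1} := by
    ext x
    rw [Set.mem_smul_set_iff_inv_smul_mem₀ hr.ne']
    constructor
    · rintro ⟨h1, h2⟩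
      refine ⟨hcone x h1 _ (by positivity), ?_⟩
      rw [hg1 _ _ (by positivity)]
      rw [inv_mul_le_iff₀ hr]
      linarith
    · rintro ⟨h1, h2⟩
      have h3 := hcone _ h1 r hr
      rw [smul_inv_smul₀ hr.ne'] at h3
      refine ⟨h3, ?_⟩
      rw [hg1 _ _ (by positivity), inv_mul_le_iff₀ hr] at h2
      linarith
  rw [h1, Measure.addHaar_smul]
  have h3 : Module.finrank ℝ V3 = 3 := by simp [V3]
  rw [h3, abs_of_pos (by positivity)]

/-- `∫_C e^{-g} = 6 vol (C ∩ {g ≤ 1})` for a cone `C` and a positively homogeneous `g`.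
Proof: layer cake, `∫_C e^{-g} = ∫_0^∞ e^{-r} vol (C ∩ {g ≤ r}) dr` (Fubini for
`e^{-g(x)} = ∫_0^∞ e^{-r} 1[g(x) ≤ r] dr`, as `g ≥ 0`), and
`vol (C ∩ {g ≤ r}) = r^3 vol (C ∩ {g ≤ 1})` for `r > 0` (`vol_smul`), `∫_0^∞ r^3 e^{-r} dr = 6`. -/
theorem integral_exp_cone {C : Set V3} (hC : MeasurableSet C)
    (hcone : ∀ x ∈ C, ∀ r : ℝ, 0 < r → r • x ∈ C) {g : V3 → ℝ} (hg : Continuous g)
    (hg1 : ∀ x, ∀ r : ℝ, 0 ≤ r → g (r • x) = r * g x) {m : ℝ} (hm : 0 < m)
    (hgm : ∀ x, m * ‖x‖ ≤ g x) :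
    ∫ x in C, Real.exp (-g x) = 6 * vol {x | x ∈ C ∧ g x ≤ 1} := by
  rw [integral_eq_lintegral_of_nonneg_ae (Filter.Eventually.of_forall fun x => (Real.exp_pos _).le)
    (by fun_prop)]
  have hg0 : ∀ x, 0 ≤ g x := fun x => le_trans (by positivity) (hgm x)
  have key : ∫⁻ x in C, ENNReal.ofReal (Real.exp (-g x)) =
      ENNReal.ofReal 6 * volume {x | x ∈ C ∧ g x ≤ 1} := by
    have h1 : ∀ x, ENNReal.ofReal (Real.exp (-g x)) =
        ∫⁻ r, ({q : V3 × ℝ | g q.1 ≤ q.2}).indicator
          (fun q => ENNReal.ofReal (Real.exp (-q.2))) (x, r) := by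
      intro x
      rw [C1_lint_exp]
      rfl
    simp_rw [h1]
    have hmeas : Measurable (({q : V3 × ℝ | g q.1 ≤ q.2}).indicator
          (fun q => ENNReal.ofReal (Real.exp (-q.2)))) := by
      apply Measurable.indicator (by fun_prop)
      exact measurableSet_le (by fun_prop) (by fun_prop)
    rw [lintegral_lintegral_swap]
    · have h2 : ∀ r : ℝ, ∫⁻ x in C, ({q : V3 × ℝ | g q.1 ≤ q.2}).indicator
          (fun q => ENNReal.ofReal (Real.exp (-q.2))) (x, r) =
          ENNReal.ofReal (Real.exp (-r)) * volume {x | x ∈ C ∧ g x ≤ r} := by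
        intro r
        have h3 : ∀ x : V3, ({q : V3 × ℝ | g q.1 ≤ q.2}).indicator
          (fun q => ENNReal.ofReal (Real.exp (-q.2))) (x, r) =
            ({x | g x ≤ r}).indicator (fun _ => ENNReal.ofReal (Real.exp (-r))) x := by
          intro x
          rfl
        simp_rw [h3]
        have hm' : MeasurableSet {x | g x ≤ r} := measurableSet_le (by fun_prop) (by fun_prop)
        rw [lintegral_indicator hm', lintegral_const, Measure.restrict_restrict hm',
          Measure.restrict_apply_univ]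
        congr 2
        ext x
        simp [and_comm]
      simp_rw [h2]
      have h4 : ∫⁻ r : ℝ, ENNReal.ofReal (Real.exp (-r)) * volume {x | x ∈ C ∧ g x ≤ r} =
          ∫⁻ r : ℝ, (Ioi (0 : ℝ)).indicator (fun r => ENNReal.ofReal (Real.exp (-r) * r ^ 3) *
            volume {x | x ∈ C ∧ g x ≤ 1}) r := by
        apply lintegral_congr_ae
        filter_upwards [Measure.ae_ne volume (0 : ℝ)] with r hr
        rcases lt_or_gt_of_ne hr with hr | hr
        · rw [indicator_of_notMem (by simpa using hr.le)]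
          have : {x | x ∈ C ∧ g x ≤ r} = ∅ := by
            ext x
            simp only [mem_ofPred_eq, mem_empty_iff_false, iff_false, not_and, not_le]
            intro _
            exact lt_of_lt_of_le hr (hg0 x)
          rw [this]
          simp
        · rw [indicator_of_mem (by simpa using hr), C1_scale hcone hg1 hr,
            ENNReal.ofReal_mul (Real.exp_pos _).le, mul_assoc]
      rw [h4, lintegral_indicator measurableSet_Ioi, lintegral_mul_const _ (by fun_prop),
        C1_gamma4]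
    · exact hmeas.aemeasurable
  rw [key, ENNReal.toReal_mul, ENNReal.toReal_ofReal (by norm_num)]
  rfl

/-- integrability of `‖x‖^i e^{-m‖x‖}` on `V3` -/
theorem integrable_norm_pow_exp {m : ℝ} (hm : 0 < m) (i : ℕ) :
    Integrable (fun x : V3 => ‖x‖ ^ i * Real.exp (-(m * ‖x‖))) := by
  rw [integrable_fun_norm_addHaar volume (f := fun r : ℝ => r ^ i * Real.exp (-(m * r)))]
  have h3 : Module.finrank ℝ V3 = 3 := by simp [V3]
  rw [h3]
  have h4 := integrableOn_rpow_mul_exp_neg_mul_rpow (p := 1) (s := i + 2) (b := m)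
    (by have : (0 : ℝ) ≤ i := Nat.cast_nonneg i
        linarith) one_pos hm
  refine h4.congr_fun (fun r hr => ?_) measurableSet_Ioi
  have hr' : (0 : ℝ) < r := hr
  have h5 : r ^ ((i : ℝ) + 2) = r ^ (i + 2) := by
    rw [← Real.rpow_natCast]
    push_cast
    rfl
  simp only [smul_eq_mul, Real.rpow_one]
  rw [h5]
  have : (3 - 1 : ℕ) = 2 := rfl
  rw [this, pow_add]
  ring_nf

theorem C1_continuous_iSup {N : ℕ} [NeZero N] {f : Fin N → V3 → ℝ} (hf : ∀ k, Continuous (f k)) :
    Continuous fun y => ⨆ k, f k y := by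
  have : (fun y => ⨆ k, f k y) = fun y => Finset.univ.sup' Finset.univ_nonempty (fun k => f k y) := by
    ext y
    rw [Finset.sup'_univ_eq_ciSup]
  rw [this]
  exact Continuous.finset_sup'_apply _ fun k _ => hf k

theorem C1_iSup_le {N : ℕ} [NeZero N] {f : Fin N → ℝ} {r : ℝ} : (⨆ k, f k) ≤ r ↔ ∀ k, f k ≤ r :=
  ciSup_le_iff (Set.finite_range f).bddAbove

theorem C1_le_iSup {N : ℕ} (f : Fin N → ℝ) (k : Fin N) : f k ≤ ⨆ k, f k :=
  le_ciSup (Set.finite_range f).bddAbove k

theorem C1_neZero {N : ℕ} {p : Fin N → D3} (hb : Bornology.IsBounded (Poly p)) : NeZero N := by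
  obtain ⟨k⟩ := nonempty_index hb
  exact ⟨by rintro rfl; exact k.elim0⟩

theorem vol_poly_eq {N : ℕ} {p : Fin N → D3} (hb : Bornology.IsBounded (Poly p)) :
    vol (Poly p) = (1 / 6) * ∫ y, Real.exp (-gmax p y) := by
  have := C1_neZero hb
  obtain ⟨m, hm, hgm⟩ := gauge_lower hb
  have h1 := integral_exp_cone (C := univ) (g := gmax p) MeasurableSet.univ (fun _ _ _ _ => mem_univ _)
    (C1_continuous_iSup fun k => (p k).continuous)
    (by
      intro x r hr
      unfold gmax
      rw [Real.mul_iSup_of_nonneg hr]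
      simp) hm
    (by
      intro x
      obtain ⟨k, hk⟩ := hgm x
      exact hk.trans (C1_le_iSup (fun k => p k x) k))
  rw [setIntegral_univ] at h1
  rw [h1]
  have h2 : {x : V3 | x ∈ univ ∧ gmax p x ≤ 1} = Poly p := by
    ext x
    simp only [mem_univ, true_and, mem_ofPred_eq, Poly]
    exact C1_iSup_le
  rw [h2]
  ring

/-- Here `Sym (Poly p) c = c + {y | ∀ k, |p k y| ≤ 1 - p k c}`. -/
theorem vol_sym_eq {N : ℕ} {p : Fin N → D3} (hb : Bornology.IsBounded (Poly p)) {c : V3}
    (hc : ∀ k, p k c < 1) :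
    vol (Sym (Poly p) c) = (1 / 6) * ∫ y, Real.exp (-nmax p c y) := by
  have := C1_neZero hb
  obtain ⟨m, hm, hgm⟩ := gauge_lower hb
  have hpos : ∀ k, 0 < 1 - p k c := fun k => sub_pos.2 (hc k)
  have hD : ∃ D : ℝ, 0 < D ∧ ∀ k, 1 - p k c ≤ D := by
    refine ⟨⨆ k, (1 - p k c), ?_, fun k => C1_le_iSup (fun k => 1 - p k c) k⟩
    exact lt_of_lt_of_le (hpos 0) (C1_le_iSup (fun k => 1 - p k c) 0)
  obtain ⟨D, hD, hDk⟩ := hD
  have h1 := integral_exp_cone (C := univ) (g := nmax p c) (m := m / D) MeasurableSet.univ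
    (fun _ _ _ _ => mem_univ _)
    (C1_continuous_iSup fun k => ((p k).continuous.abs.div_const _))
    (by
      intro x r hr
      unfold nmax
      rw [Real.mul_iSup_of_nonneg hr]
      congr 1
      ext k
      rw [map_smul, smul_eq_mul, abs_mul, abs_of_nonneg hr, mul_div_assoc]) (by positivity)
    (by
      intro x
      obtain ⟨k, hk⟩ := hgm x
      refine le_trans ?_ (C1_le_iSup (fun k => |p k x| / (1 - p k c)) k)
      rw [div_mul_eq_mul_div]
      exact div_le_div₀ (abs_nonneg _) (hk.trans (le_abs_self _)) (hpos k) (hDk k))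
  rw [setIntegral_univ] at h1
  rw [h1]
  have h2 : Sym (Poly p) c = (fun x => c + x) '' {x : V3 | x ∈ univ ∧ nmax p c x ≤ 1} := by
    ext x
    simp only [mem_univ, true_and, mem_image, mem_ofPred_eq]
    constructor
    · rintro ⟨h3, h4⟩
      refine ⟨x - c, ?_, by abel⟩
      refine C1_iSup_le.2 fun k => ?_
      rw [div_le_one (hpos k), abs_le]
      have h5 := h3 k
      have h6 := h4 k
      simp only [map_sub, map_smul, smul_eq_mul] at h6 ⊢
      constructor <;> linarith
    · rintro ⟨y, hy, rfl⟩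
      have h7 : ∀ k, |p k y| ≤ 1 - p k c := by
        intro k
        have h8 := C1_iSup_le.1 hy k
        rwa [div_le_one (hpos k)] at h8
      constructor
      · intro k
        have h9 := (abs_le.1 (h7 k)).2
        rw [map_add]
        linarith
      · intro k
        have h9 := (abs_le.1 (h7 k)).1
        simp only [map_sub, map_add, map_smul, smul_eq_mul]
        linarith
  rw [h2, vol_translate]
  ring

end Pool.Agent.H48.OR
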