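import Pool.Agent.H48.OR.B1
import Pool.Agent.H48.OR.C1

/-!
# OR-C2: derivative of the volume of a polytope when one facet plane moves
-/

set_option autoImplicit false

namespace Pool.Agent.H48.OR

open MeasureTheory Set Filter Topology

theorem C2_pert_of_eq {ι : Type} {p : ι → D3} {j k : ι} (h : p k = p j) (η : D3) (t : ℝ) (y : V3) :
    pert p j η t k y = p j y + t * η y := by
  simp [pert, h]

theorem C2_pert_of_ne {ι : Type} {p : ι → D3} {j k : ι} (h : p k ≠ p j) (η : D3) (t : ℝ) (y : V3) :
    pert p j η t k y = p k y := by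
  simp [pert, h]

theorem C2_pert_sub {ι : Type} (p : ι → D3) (j k : ι) (η : D3) (t : ℝ) (y : V3) :
    |pert p j η t k y - p k y| ≤ |t| * ‖η‖ * ‖y‖ := by
  by_cases h : p k = p j
  · rw [C2_pert_of_eq h, h]
    have h1 : p j y + t * η y - p j y = t * η y := by ring
    rw [h1, abs_mul, mul_assoc]
    exact mul_le_mul_of_nonneg_left (η.le_opNorm y) (abs_nonneg t)
  · rw [C2_pert_of_ne h, sub_self, abs_zero]
    positivity

/-- uniform lower bound for the gauges of the perturbed polytopes -/
theorem gauge_lower_pert {N : ℕ} {p : Fin N → D3} (hb : Bornology.IsBounded (Poly p)) (j : Fin N)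
    (η : D3) :
    ∃ m : ℝ, 0 < m ∧ ∀ᶠ t in 𝓝 (0 : ℝ), ∀ y : V3, ∃ k, m * ‖y‖ ≤ pert p j η t k y := by
  obtain ⟨m, hm, h⟩ := gauge_lower hb
  refine ⟨m / 2, by positivity, ?_⟩
  have h1 : Tendsto (fun t : ℝ => |t| * ‖η‖) (𝓝 0) (𝓝 (|0| * ‖η‖)) := by
    exact (continuous_abs.tendsto 0).mul_const _
  rw [abs_zero, zero_mul] at h1
  have h2 : ∀ᶠ t : ℝ in 𝓝 0, |t| * ‖η‖ < m / 2 := h1.eventually_lt_const (by positivity)
  filter_upwards [h2] with t ht y
  obtain ⟨k, hk⟩ := h y
  refine ⟨k, ?_⟩
  have h3 := (abs_le.1 (C2_pert_sub p j k η t y)).1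
  have h4 : |t| * ‖η‖ * ‖y‖ ≤ m / 2 * ‖y‖ := mul_le_mul_of_nonneg_right ht.le (norm_nonneg y)
  linarith

/-- the perturbed polytopes are bounded, uniformly -/
theorem bounded_pert {N : ℕ} {p : Fin N → D3} (hb : Bornology.IsBounded (Poly p)) (j : Fin N)
    (η : D3) :
    ∃ R : ℝ, ∀ᶠ t in 𝓝 (0 : ℝ), Poly (pert p j η t) ⊆ Metric.closedBall 0 R := by
  obtain ⟨m, hm, h⟩ := gauge_lower_pert hb j η
  refine ⟨1 / m, ?_⟩
  filter_upwards [h] with t ht y hy
  obtain ⟨k, hk⟩ := ht y
  rw [mem_closedBall_zero_iff, le_div_iff₀ hm, mul_comm]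
  exact hk.trans (hy k)

theorem C2_gmax_sub {N : ℕ} [NeZero N] {p q : Fin N → D3} {y : V3} {d : ℝ}
    (h : ∀ k, |q k y - p k y| ≤ d) : |gmax q y - gmax p y| ≤ d := by
  rw [abs_le]
  constructor
  · have h1 : gmax p y ≤ gmax q y + d := by
      refine C1_iSup_le.2 fun k => ?_
      have h2 := C1_le_iSup (fun k => q k y) k
      have h3 := (abs_le.1 (h k)).1
      change _ ≤ (⨆ k, q k y) + d
      linarith
    linarith
  · have h1 : gmax q y ≤ gmax p y + d := by
      refine C1_iSup_le.2 fun k => ?_
      have h2 := C1_le_iSup (fun k => p k y) k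
      have h3 := (abs_le.1 (h k)).2
      change _ ≤ (⨆ k, p k y) + d
      linarith
    linarith

theorem C2_exp_sub {a b c : ℝ} (ha : c ≤ a) (hb : c ≤ b) :
    |Real.exp (-a) - Real.exp (-b)| ≤ |a - b| * Real.exp (-c) := by
  have key : ∀ a b : ℝ, c ≤ a → a ≤ b → |Real.exp (-a) - Real.exp (-b)| ≤ |a - b| * Real.exp (-c) := by
    intro a b hca hab
    have h1 : Real.exp (-b) ≤ Real.exp (-a) := Real.exp_le_exp.2 (by linarith)
    rw [abs_of_nonneg (by linarith), abs_of_nonpos (by linarith)]
    have h2 : Real.exp (-b) = Real.exp (-a) * Real.exp (a - b) := by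
      rw [← Real.exp_add]
      ring_nf
    have h3 := Real.add_one_le_exp (a - b)
    have h4 : Real.exp (-a) ≤ Real.exp (-c) := Real.exp_le_exp.2 (by linarith)
    have h5 := Real.exp_pos (-a)
    calc Real.exp (-a) - Real.exp (-b) = Real.exp (-a) * (1 - Real.exp (a - b)) := by
          rw [h2]; ring
      _ ≤ Real.exp (-a) * (b - a) := mul_le_mul_of_nonneg_left (by linarith) h5.le
      _ ≤ Real.exp (-c) * (b - a) := mul_le_mul_of_nonneg_right h4 (by linarith)
      _ = -(a - b) * Real.exp (-c) := by ring
  rcases le_total a b with h | h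
  · exact key a b ha h
  · rw [abs_sub_comm, abs_sub_comm a b]
    exact key b a hb h

theorem C2_continuous_gmax {N : ℕ} [NeZero N] (p : Fin N → D3) : Continuous (gmax p) :=
  C1_continuous_iSup fun k => (p k).continuous

theorem C2_integrable_gmax {N : ℕ} [NeZero N] {p : Fin N → D3} {m : ℝ} (hm : 0 < m)
    (h : ∀ y : V3, m * ‖y‖ ≤ gmax p y) : Integrable (fun y => Real.exp (-gmax p y)) := by
  have h1 := integrable_norm_pow_exp hm 0
  simp only [pow_zero, one_mul] at h1
  refine h1.mono' ?_ ?_
  · exact (Real.continuous_exp.comp (C2_continuous_gmax p).neg).aestronglyMeasurable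
  · refine Eventually.of_forall fun y => ?_
    rw [Real.norm_of_nonneg (Real.exp_pos _).le]
    exact Real.exp_le_exp.2 (neg_le_neg (h y))

theorem C2_deriv (a b : ℝ) :
    Tendsto (fun t : ℝ => (Real.exp (-(a + t * b)) - Real.exp (-a)) / t) (𝓝[≠] 0)
      (𝓝 (-(b * Real.exp (-a)))) := by
  have h1 : HasDerivAt (fun t : ℝ => Real.exp (-(a + t * b))) (Real.exp (-(a + 0 * b)) * (-(1 * b)))
      0 := by
    apply HasDerivAt.exp
    exact (((hasDerivAt_id (0 : ℝ)).mul_const b).const_add a).neg
  rw [hasDerivAt_iff_tendsto_slope] at h1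
  have h2 : Real.exp (-(a + 0 * b)) * (-(1 * b)) = -(b * Real.exp (-a)) := by
    rw [zero_mul, add_zero]
    ring
  rw [h2] at h1
  refine h1.congr fun t => ?_
  rw [slope_def_field]
  simp

/-- Derivative of the volume.
Proof: `vol (Poly (pert t)) = (1/6) ∫ exp(-gmax (pert t) y) dy` (`vol_poly_eq`).  Dominated
convergence for the difference quotients: with `J = {k | p k = p j}`, for almost every `y` the
maximum of the `p k y` is attained either exactly on `J`, and then for small `t` the value of `gmax`
is `p j y + t η y`, or only outside of `J` and `gmax` does not depend on `t` for small `t` (ties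
between different functionals are null sets by `null_level`).  So the quotient tends to
`-η y exp(-p j y)` on `Cone p j` and to `0` outside, a.e.  Domination:
`|gmax (pert t) y - gmax p y| ≤ |t| ‖η‖ ‖y‖` and both are `≥ m ‖y‖`, so the quotient is bounded by
`‖η‖ ‖y‖ exp(-m ‖y‖)` (mean value theorem for `exp`), integrable by `integrable_norm_pow_exp`. -/
theorem tendsto_poly_quot {N : ℕ} {p : Fin N → D3} (hb : Bornology.IsBounded (Poly p))
    (j : Fin N) (η : D3) :
    Tendsto (fun t : ℝ => (vol (Poly (pert p j η t)) - vol (Poly p)) / t) (𝓝[≠] 0)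
      (𝓝 (-(1 / 6) * ∫ y in Cone p j, η y * Real.exp (-(p j y)))) := by
  have := C1_neZero hb
  obtain ⟨m1, hm1, hg1⟩ := gauge_lower_pert hb j η
  obtain ⟨m2, hm2, hg2⟩ := gauge_lower hb
  obtain ⟨R, hR⟩ := bounded_pert hb j η
  set m := min m1 m2 with hmdef
  have hm : 0 < m := lt_min hm1 hm2
  have hgp : ∀ y : V3, m * ‖y‖ ≤ gmax p y := by
    intro y
    obtain ⟨k, hk⟩ := hg2 y
    exact ((mul_le_mul_of_nonneg_right (min_le_right _ _) (norm_nonneg y)).trans hk).trans
      (C1_le_iSup (fun k => p k y) k)
  have hgt : ∀ᶠ t in 𝓝 (0 : ℝ), ∀ y : V3, m * ‖y‖ ≤ gmax (pert p j η t) y := by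
    filter_upwards [hg1] with t ht y
    obtain ⟨k, hk⟩ := ht y
    exact ((mul_le_mul_of_nonneg_right (min_le_left _ _) (norm_nonneg y)).trans hk).trans
      (C1_le_iSup (fun k => pert p j η t k y) k)
  have hmeasC : MeasurableSet (Cone p j) := by
    have : Cone p j = ⋂ k, {x | p k x ≤ p j x} := by ext x; simp [Cone]
    rw [this]
    exact MeasurableSet.iInter fun k => measurableSet_le (p k).continuous.measurable
      (p j).continuous.measurable
  have hnull : ∀ᵐ y : V3, ∀ k, p k ≠ p j → p k y ≠ p j y := by
    rw [ae_all_iff]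
    intro k
    by_cases hk : p k = p j
    · exact Eventually.of_forall fun y h => absurd hk h
    · have h1 := null_level (l := p k - p j) (sub_ne_zero.2 hk) 0
      filter_upwards [compl_mem_ae_iff.2 h1] with y hy _ h2
      apply hy
      simp [h2]
  have key : Tendsto (fun t : ℝ => ∫ y, (Real.exp (-gmax (pert p j η t) y) -
      Real.exp (-gmax p y)) / t) (𝓝[≠] 0)
      (𝓝 (∫ y, (Cone p j).indicator (fun y => -(η y * Real.exp (-(p j y)))) y)) := by
    apply tendsto_integral_filter_of_dominated_convergence
      (fun y => ‖η‖ * (‖y‖ ^ 1 * Real.exp (-(m * ‖y‖))))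
    · refine Eventually.of_forall fun t => ?_
      apply Continuous.aestronglyMeasurable
      exact ((Real.continuous_exp.comp (C2_continuous_gmax _).neg).sub
        (Real.continuous_exp.comp (C2_continuous_gmax p).neg)).div_const _
    · filter_upwards [nhdsWithin_le_nhds hgt, self_mem_nhdsWithin] with t ht ht0
      refine Eventually.of_forall fun y => ?_
      have ht0' : 0 < |t| := abs_pos.2 ht0
      rw [norm_div, Real.norm_eq_abs, Real.norm_eq_abs, div_le_iff₀ ht0']
      refine (C2_exp_sub (ht y) (hgp y)).trans ?_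
      have h1 := C2_gmax_sub (fun k => C2_pert_sub p j k η t y)
      calc |gmax (pert p j η t) y - gmax p y| * Real.exp (-(m * ‖y‖))
          ≤ (|t| * ‖η‖ * ‖y‖) * Real.exp (-(m * ‖y‖)) :=
            mul_le_mul_of_nonneg_right h1 (Real.exp_pos _).le
        _ = ‖η‖ * (‖y‖ ^ 1 * Real.exp (-(m * ‖y‖))) * |t| := by ring
    · exact (integrable_norm_pow_exp hm 1).const_mul _
    · filter_upwards [hnull] with y hy
      by_cases hyC : y ∈ Cone p j
      · rw [indicator_of_mem hyC]
        refine (C2_deriv (p j y) (η y)).congr' ?_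
        have h1 : ∀ᶠ t : ℝ in 𝓝 0, ∀ k, p k ≠ p j → p k y < p j y + t * η y := by
          rw [eventually_all]
          intro k
          by_cases hk : p k = p j
          · exact Eventually.of_forall fun t h => absurd hk h
          · have h2 : p k y < p j y := lt_of_le_of_ne (hyC k) (hy k hk)
            have h3 : Tendsto (fun t : ℝ => p j y + t * η y) (𝓝 0) (𝓝 (p j y + 0 * η y)) :=
              (tendsto_id.mul_const _).const_add _
            rw [zero_mul, add_zero] at h3
            filter_upwards [h3.eventually_const_lt h2] with t ht _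
            exact ht
        filter_upwards [nhdsWithin_le_nhds h1] with t ht
        have h4 : gmax (pert p j η t) y = p j y + t * η y := by
          apply le_antisymm
          · refine C1_iSup_le.2 fun k => ?_
            by_cases hk : p k = p j
            · rw [C2_pert_of_eq hk]
            · rw [C2_pert_of_ne hk]
              exact (ht k hk).le
          · rw [← C2_pert_of_eq (p := p) (j := j) (k := j) rfl η t y]
            exact C1_le_iSup (fun k => pert p j η t k y) j
        have h5 : gmax p y = p j y := by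
          apply le_antisymm
          · exact C1_iSup_le.2 fun k => hyC k
          · exact C1_le_iSup (fun k => p k y) j
        rw [h4, h5]
      · rw [indicator_of_notMem hyC]
        have h6 : ∃ k, p j y < p k y := by
          by_contra hcon
          push Not at hcon
          exact hyC hcon
        obtain ⟨k, hk⟩ := h6
        have hkj : p k ≠ p j := by
          intro h
          rw [h] at hk
          exact lt_irrefl _ hk
        refine tendsto_const_nhds.congr' ?_
        have h3 : Tendsto (fun t : ℝ => p j y + t * η y) (𝓝 0) (𝓝 (p j y + 0 * η y)) :=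
          (tendsto_id.mul_const _).const_add _
        rw [zero_mul, add_zero] at h3
        filter_upwards [nhdsWithin_le_nhds (h3.eventually_lt_const hk)] with t ht
        have h4 : gmax (pert p j η t) y = gmax p y := by
          apply le_antisymm
          · refine C1_iSup_le.2 fun i => ?_
            by_cases hi : p i = p j
            · rw [C2_pert_of_eq hi]
              exact ht.le.trans (C1_le_iSup (fun k => p k y) k)
            · rw [C2_pert_of_ne hi]
              exact C1_le_iSup (fun k => p k y) i
          · refine C1_iSup_le.2 fun i => ?_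
            by_cases hi : p i = p j
            · rw [hi]
              refine hk.le.trans ?_
              rw [← C2_pert_of_ne hkj η t y]
              exact C1_le_iSup (fun k => pert p j η t k y) k
            · rw [← C2_pert_of_ne hi η t y]
              exact C1_le_iSup (fun k => pert p j η t k y) i
        rw [h4, sub_self, zero_div]
  have hfin := key.const_mul (1 / 6)
  rw [integral_indicator hmeasC] at hfin
  have hlim : (1 / 6 : ℝ) * ∫ y in Cone p j, -(η y * Real.exp (-(p j y))) =
      -(1 / 6) * ∫ y in Cone p j, η y * Real.exp (-(p j y)) := by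
    rw [integral_neg]
    ring
  rw [hlim] at hfin
  refine hfin.congr' ?_
  filter_upwards [nhdsWithin_le_nhds hgt, nhdsWithin_le_nhds hR] with t ht htR
  have hbt : Bornology.IsBounded (Poly (pert p j η t)) :=
    Metric.isBounded_closedBall.subset htR
  rw [vol_poly_eq hbt, vol_poly_eq hb, integral_div,
    integral_sub (C2_integrable_gmax hm ht) (C2_integrable_gmax hm hgp)]
  ring

end Pool.Agent.H48.OR
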