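import Pool.Agent.H48.OR.C2

/-!
# OR-C3: derivative of the volume of the symmetric part, uniformly in the centre
-/

set_option autoImplicit false

namespace Pool.Agent.H48.OR

open MeasureTheory Set Filter Topology

/-! ### auxiliary lemmas: real analysis -/

/-- difference of exponentials -/
theorem C3_exp_sub_le {A B M : ℝ} (hA : M ≤ A) (hB : M ≤ B) :
    |Real.exp (-A) - Real.exp (-B)| ≤ |A - B| * Real.exp (-M) := by
  wlog h : A ≤ B generalizing A B
  · rw [abs_sub_comm, abs_sub_comm A B]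
    exact this hB hA (le_of_not_ge h)
  have h1 : Real.exp (-B) ≤ Real.exp (-A) := Real.exp_le_exp.2 (by linarith)
  rw [abs_of_nonneg (sub_nonneg.2 h1), abs_of_nonpos (sub_nonpos.2 h)]
  have h2 : Real.exp (-B) = Real.exp (-A) * Real.exp (-(B - A)) := by
    rw [← Real.exp_add]; congr 1; ring
  have h3 : 1 - (B - A) ≤ Real.exp (-(B - A)) := by
    have := Real.add_one_le_exp (-(B - A)); linarith
  have h4 : Real.exp (-A) ≤ Real.exp (-M) := Real.exp_le_exp.2 (by linarith)
  have h5 := Real.exp_pos (-A)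
  rw [h2]
  have h6 : Real.exp (-A) * (1 - Real.exp (-(B - A))) ≤ Real.exp (-A) * (B - A) :=
    mul_le_mul_of_nonneg_left (by linarith) h5.le
  have h7 : Real.exp (-A) * (B - A) ≤ Real.exp (-M) * (B - A) :=
    mul_le_mul_of_nonneg_right h4 (by linarith)
  nlinarith [h6, h7]

theorem C3_iSup_sub_le {N : ℕ} (j : Fin N) {a b : Fin N → ℝ} {D : ℝ}
    (h : ∀ k, |a k - b k| ≤ D) : |(⨆ k, a k) - ⨆ k, b k| ≤ D := by
  have : Nonempty (Fin N) := ⟨j⟩
  rw [abs_sub_le_iff]
  constructor
  · have : (⨆ k, a k) ≤ (⨆ k, b k) + D := ciSup_le fun k => by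
      have h1 := (abs_sub_le_iff.1 (h k)).1
      have h2 : b k ≤ ⨆ k, b k := le_ciSup (Set.finite_range b).bddAbove k
      linarith
    linarith
  · have : (⨆ k, b k) ≤ (⨆ k, a k) + D := ciSup_le fun k => by
      have h1 := (abs_sub_le_iff.1 (h k)).2
      have h2 : a k ≤ ⨆ k, a k := le_ciSup (Set.finite_range a).bddAbove k
      linarith
    linarith

theorem C3_iSup_eq {N : ℕ} (j : Fin N) {a : Fin N → ℝ} (h : ∀ k, a k ≤ a j) :
    ⨆ k, a k = a j := by
  have : Nonempty (Fin N) := ⟨j⟩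
  exact le_antisymm (ciSup_le h) (le_ciSup (Set.finite_range a).bddAbove j)

/-- two maxima agree, when they agree except for irrelevant entries -/
theorem C3_iSup_congr {N : ℕ} (k0 : Fin N) {a b : Fin N → ℝ} (h0 : a k0 = b k0)
    (h : ∀ k, a k = b k ∨ (a k ≤ a k0 ∧ b k ≤ b k0)) : ⨆ k, a k = ⨆ k, b k := by
  have : Nonempty (Fin N) := ⟨k0⟩
  apply le_antisymm
  · refine ciSup_le fun k => ?_
    rcases h k with h1 | h1
    · rw [h1]; exact le_ciSup (Set.finite_range b).bddAbove k
    · refine h1.1.trans ?_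
      rw [h0]; exact le_ciSup (Set.finite_range b).bddAbove k0
  · refine ciSup_le fun k => ?_
    rcases h k with h1 | h1
    · rw [← h1]; exact le_ciSup (Set.finite_range a).bddAbove k
    · refine h1.2.trans ?_
      rw [← h0]; exact le_ciSup (Set.finite_range a).bddAbove k0

theorem C3_exp_quot {A B : ℝ → ℝ} {L D : ℝ} (hA : Tendsto A (𝓝[≠] 0) (𝓝 L))
    (hB : Tendsto B (𝓝[≠] 0) (𝓝 L))
    (hD : Tendsto (fun t => (A t - B t) / t) (𝓝[≠] 0) (𝓝 D)) :
    Tendsto (fun t => (Real.exp (-A t) - Real.exp (-B t)) / t) (𝓝[≠] 0)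
      (𝓝 (-(D * Real.exp (-L)))) := by
  have hd : ContinuousAt (dslope Real.exp 0) 0 :=
    continuousAt_dslope_same.2 Real.differentiableAt_exp
  have hu : Tendsto (fun t => -(A t - B t)) (𝓝[≠] 0) (𝓝 0) := by
    have := (hA.sub hB).neg
    simpa using this
  have h1 : Tendsto (fun t => dslope Real.exp 0 (-(A t - B t))) (𝓝[≠] 0) (𝓝 1) := by
    have := hd.tendsto.comp hu
    simpa [dslope_same, Function.comp_def] using this
  have h2 : Tendsto (fun t => Real.exp (-B t)) (𝓝[≠] 0) (𝓝 (Real.exp (-L))) :=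
    (Real.continuous_exp.tendsto _).comp hB.neg
  have h3 := h2.mul (hD.neg.mul h1)
  have h4 : Real.exp (-L) * (-D * 1) = -(D * Real.exp (-L)) := by ring
  rw [h4] at h3
  refine h3.congr fun t => ?_
  have h5 := sub_smul_dslope Real.exp 0 (-(A t - B t))
  rw [smul_eq_mul, sub_zero, Real.exp_zero] at h5
  have h6 : Real.exp (-A t) = Real.exp (-B t) * Real.exp (-(A t - B t)) := by
    rw [← Real.exp_add]; congr 1; ring
  have h7 : Real.exp (-A t) - Real.exp (-B t) =
      Real.exp (-B t) * (-(A t - B t) * dslope Real.exp 0 (-(A t - B t))) := by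
    rw [h5, h6]; ring
  rw [h7]
  ring

/-! ### auxiliary lemmas: the terms of the maxima -/

theorem C3_add_apply (a b : D3) (x : V3) : (a + b) x = a x + b x := rfl

theorem C3_smul_apply (t : ℝ) (b : D3) (x : V3) : (t • b) x = t * b x := rfl

theorem C3_pert_eq {N : ℕ} {p : Fin N → D3} {j k : Fin N} {η : D3} {t : ℝ} (h : p k = p j) :
    pert p j η t k = p j + t • η := by
  simp [pert, h]

theorem C3_pert_ne {N : ℕ} {p : Fin N → D3} {j k : Fin N} {η : D3} {t : ℝ} (h : p k ≠ p j) :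
    pert p j η t k = p k := by
  simp [pert, h]

theorem C3_tendsto_pert {N : ℕ} (p : Fin N → D3) (j k : Fin N) (η : D3) :
    Tendsto (fun t => pert p j η t k) (𝓝[≠] 0) (𝓝 (p k)) := by
  by_cases h : p k = p j
  · have h1 : Tendsto (fun t : ℝ => p j + t • η) (𝓝[≠] 0) (𝓝 (p j + (0 : ℝ) • η)) :=
      Tendsto.mono_left (Continuous.tendsto (by fun_prop) 0) nhdsWithin_le_nhds
    simp only [zero_smul, add_zero] at h1
    rw [h]
    refine h1.congr fun t => ?_
    rw [C3_pert_eq h]
  · refine tendsto_const_nhds.congr fun t => ?_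
    rw [C3_pert_ne h]

theorem C3_tendsto_term {x : ℝ → D3} {x0 : D3} {c : ℝ → V3}
    (hx : Tendsto x (𝓝[≠] 0) (𝓝 x0)) (hc : Tendsto c (𝓝[≠] 0) (𝓝 0)) (y : V3) :
    Tendsto (fun t => |x t y| / (1 - x t (c t))) (𝓝[≠] 0) (𝓝 |x0 y|) := by
  have hap : Continuous fun q : D3 × V3 => q.1 q.2 := isBoundedBilinearMap_apply.continuous
  have h1 : Tendsto (fun t => x t y) (𝓝[≠] 0) (𝓝 (x0 y)) :=
    (hap.tendsto (x0, y)).comp (hx.prodMk_nhds tendsto_const_nhds)
  have h2 : Tendsto (fun t => x t (c t)) (𝓝[≠] 0) (𝓝 (x0 0)) :=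
    (hap.tendsto (x0, 0)).comp (hx.prodMk_nhds hc)
  rw [map_zero] at h2
  have h3 : Tendsto (fun t => |x t y| / (1 - x t (c t))) (𝓝[≠] 0) (𝓝 (|x0 y| / (1 - 0))) :=
    h1.abs.div (tendsto_const_nhds.sub h2) (by norm_num : (1 : ℝ) - 0 ≠ 0)
  simpa using h3

theorem C3_den {P : ℝ} (hP : 0 < P) {x : D3} {c : V3} (hx : ‖x‖ ≤ P)
    (hc : ‖c‖ ≤ 1 / (2 * P)) : |x c| ≤ 1 / 2 := by
  have h1 : |x c| ≤ ‖x‖ * ‖c‖ := x.le_opNorm c
  have h2 : ‖x‖ * ‖c‖ ≤ P * (1 / (2 * P)) := mul_le_mul hx hc (norm_nonneg _) hP.le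
  have h3 : P * (1 / (2 * P)) = 1 / 2 := by field_simp
  linarith

theorem C3_term {P : ℝ} (hP : 0 < P) {l η : D3} {c y : V3} {t : ℝ} (hl : ‖l‖ ≤ P)
    (hlt : ‖l + t • η‖ ≤ P) (hc : ‖c‖ ≤ 1 / (2 * P)) :
    abs (abs ((l + t • η) y) / (1 - (l + t • η) c) - abs (l y) / (1 - l c)) ≤
      4 * ‖η‖ * ‖y‖ * |t| := by
  have h1 := (abs_le.1 (C3_den hP hl hc)).2
  have h2 := (abs_le.1 (C3_den hP hlt hc)).2
  set d' := 1 - (l + t • η) c with hd'
  set d := 1 - l c with hd
  have hd1 : 1 / 2 ≤ d := by rw [hd]; linarith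
  have hd1' : 1 / 2 ≤ d' := by rw [hd']; linarith
  have hd2 : 0 < d := by linarith
  have hd2' : 0 < d' := by linarith
  have hdd : d - d' = t * η c := by
    simp only [hd, hd', C3_add_apply, C3_smul_apply]
    ring
  have he : |d - d'| ≤ |t| * (‖η‖ * (1 / (2 * P))) := by
    rw [hdd, abs_mul]
    refine mul_le_mul_of_nonneg_left ?_ (abs_nonneg t)
    exact (η.le_opNorm c).trans (mul_le_mul_of_nonneg_left hc (norm_nonneg _))
  have ha : |l y| ≤ P * ‖y‖ :=
    (l.le_opNorm y).trans (mul_le_mul_of_nonneg_right hl (norm_nonneg _))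
  have hb : abs (abs ((l + t • η) y) - abs (l y)) ≤ |t| * (‖η‖ * ‖y‖) := by
    refine (abs_abs_sub_abs_le _ _).trans ?_
    have : (l + t • η) y - l y = t * η y := by
      simp only [C3_add_apply, C3_smul_apply]
      ring
    rw [this, abs_mul]
    exact mul_le_mul_of_nonneg_left (η.le_opNorm y) (abs_nonneg t)
  have key : |(l + t • η) y| / d' - |l y| / d =
      (|(l + t • η) y| - |l y|) / d' + |l y| * (d - d') / (d * d') := by
    field_simp
    ring
  rw [key]
  refine (abs_add_le _ _).trans ?_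
  have e1 : abs ((abs ((l + t • η) y) - abs (l y)) / d') ≤ 2 * (|t| * (‖η‖ * ‖y‖)) := by
    rw [abs_div, abs_of_pos hd2', div_le_iff₀ hd2']
    have : 0 ≤ |t| * (‖η‖ * ‖y‖) := by positivity
    nlinarith
  have e2 : abs (abs (l y) * (d - d') / (d * d')) ≤ 2 * (|t| * (‖η‖ * ‖y‖)) := by
    rw [abs_div, abs_mul, abs_abs, abs_of_pos (mul_pos hd2 hd2'), div_le_iff₀ (mul_pos hd2 hd2')]
    have h3 : |l y| * |d - d'| ≤ (P * ‖y‖) * (|t| * (‖η‖ * (1 / (2 * P)))) :=
      mul_le_mul ha he (abs_nonneg _) (by positivity)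
    have h4 : (P * ‖y‖) * (|t| * (‖η‖ * (1 / (2 * P)))) = (|t| * (‖η‖ * ‖y‖)) / 2 := by
      field_simp
    have h5 : 1 / 4 ≤ d * d' := by nlinarith
    have h6 : 0 ≤ |t| * (‖η‖ * ‖y‖) := by positivity
    nlinarith
  calc _ ≤ 2 * (|t| * (‖η‖ * ‖y‖)) + 2 * (|t| * (‖η‖ * ‖y‖)) := add_le_add e1 e2
    _ = 4 * ‖η‖ * ‖y‖ * |t| := by ring

theorem C3_quot_term {l η : D3} {c : ℝ → V3} (hc : Tendsto c (𝓝[≠] 0) (𝓝 0)) {y : V3} {s : ℝ}
    (hs : s = 1 ∨ s = -1) (hy : 0 < s * l y) :
    Tendsto (fun t : ℝ =>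
      (|(l + t • η) y| / (1 - (l + t • η) (c t)) - |l y| / (1 - l (c t))) / t) (𝓝[≠] 0)
      (𝓝 (s * η y)) := by
  have habs : ∀ x : ℝ, 0 < s * x → |x| = s * x := by
    intro x hx
    rcases hs with rfl | rfl
    · rw [one_mul] at hx ⊢; exact abs_of_pos hx
    · rw [abs_of_neg (by linarith)]; ring
  have hlc : Tendsto (fun t => l (c t)) (𝓝[≠] 0) (𝓝 0) := by
    have := (l.continuous.tendsto 0).comp hc
    simpa [Function.comp_def] using this
  have hηc : Tendsto (fun t => η (c t)) (𝓝[≠] 0) (𝓝 0) := by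
    have := (η.continuous.tendsto 0).comp hc
    simpa [Function.comp_def] using this
  have ht : Tendsto (fun t : ℝ => t) (𝓝[≠] 0) (𝓝 0) := tendsto_id.mono_left nhdsWithin_le_nhds
  have hq : Tendsto (fun t : ℝ => s * (l y + t * η y)) (𝓝[≠] 0) (𝓝 (s * (l y + 0 * η y))) :=
    (tendsto_const_nhds.add (ht.mul_const _)).const_mul s
  have e1 : ∀ᶠ t : ℝ in 𝓝[≠] 0, 0 < s * (l y + t * η y) :=
    hq.eventually_const_lt (by simpa using hy)
  have hd1 : Tendsto (fun t => 1 - l (c t)) (𝓝[≠] 0) (𝓝 (1 - 0)) := tendsto_const_nhds.sub hlc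
  have hd2 : Tendsto (fun t => 1 - (l (c t) + t * η (c t))) (𝓝[≠] 0) (𝓝 (1 - (0 + 0 * 0))) :=
    tendsto_const_nhds.sub (hlc.add (ht.mul hηc))
  have e2 : ∀ᶠ t : ℝ in 𝓝[≠] 0, 0 < 1 - l (c t) := hd1.eventually_const_lt (by norm_num)
  have e3 : ∀ᶠ t : ℝ in 𝓝[≠] 0, 0 < 1 - (l (c t) + t * η (c t)) :=
    hd2.eventually_const_lt (by norm_num)
  have e4 : ∀ᶠ t : ℝ in 𝓝[≠] 0, t ≠ 0 := self_mem_nhdsWithin
  have main : Tendsto (fun t => s * (η y * (1 - l (c t)) + l y * η (c t)) /
      ((1 - l (c t)) * (1 - (l (c t) + t * η (c t))))) (𝓝[≠] 0)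
      (𝓝 (s * (η y * (1 - 0) + l y * 0) / ((1 - 0) * (1 - (0 + 0 * 0))))) := by
    refine Tendsto.div ?_ (hd1.mul hd2) (by norm_num)
    exact ((hd1.const_mul _).add (hηc.const_mul _)).const_mul s
  have hval : s * (η y * (1 - 0) + l y * 0) / ((1 - 0) * (1 - (0 + 0 * 0))) = s * η y := by
    simp
  rw [hval] at main
  refine main.congr' ?_
  filter_upwards [e1, e2, e3, e4] with t h1 h2 h3 h4
  simp only [C3_add_apply, C3_smul_apply]
  rw [habs _ h1, habs _ hy, div_sub_div _ _ h3.ne' h2.ne', div_div,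
    div_eq_div_iff (mul_pos h2 h3).ne' (mul_ne_zero (mul_pos h3 h2).ne' h4)]
  ring

theorem C3_nmax_measurable {N : ℕ} (q : Fin N → D3) (c : V3) :
    Measurable (fun y => nmax q c y) := by
  unfold nmax
  refine Measurable.iSup fun k => ?_
  exact Continuous.measurable (by fun_prop)

theorem C3_nmax_lower {N : ℕ} {q : Fin N → D3} {c : V3} {m : ℝ}
    (hden : ∀ k, |q k c| ≤ 1 / 2) (hg : ∀ y, ∃ k, m * ‖y‖ ≤ q k y) (y : V3) :
    (m / 2) * ‖y‖ ≤ nmax q c y := by
  obtain ⟨k, hk⟩ := hg y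
  have h1 : |q k y| / (1 - q k c) ≤ nmax q c y :=
    le_ciSup (f := fun k => |q k y| / (1 - q k c)) (Set.finite_range _).bddAbove k
  refine le_trans ?_ h1
  have h2 := abs_le.1 (hden k)
  have h3 : 0 < 1 - q k c := by linarith [h2.2]
  rw [le_div_iff₀ h3]
  have h4 : m * ‖y‖ ≤ |q k y| := hk.trans (le_abs_self _)
  have h5 := abs_nonneg (q k y)
  rcases le_or_gt 0 (m / 2 * ‖y‖) with h6 | h6
  · nlinarith [h2.1]
  · nlinarith [h2.1]

theorem C3_integrable {N : ℕ} {q : Fin N → D3} {c : V3} {m : ℝ} (hm : 0 < m)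
    (hq : ∀ y, m * ‖y‖ ≤ nmax q c y) : Integrable (fun y => Real.exp (-nmax q c y)) := by
  refine Integrable.mono' (integrable_norm_pow_exp hm 0)
    ((C3_nmax_measurable q c).neg.exp.aestronglyMeasurable) (ae_of_all _ fun y => ?_)
  rw [Real.norm_of_nonneg (Real.exp_pos _).le, pow_zero, one_mul]
  exact Real.exp_le_exp.2 (neg_le_neg (hq y))

/-- the integrand of the limit -/
noncomputable def C3_g {N : ℕ} (p : Fin N → D3) (j : Fin N) (η : D3) (y : V3) : ℝ :=
  -(η y * Real.exp (-(p j y)))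

theorem C3_coneS_closed {N : ℕ} (p : Fin N → D3) (j : Fin N) : IsClosed (ConeS p j) := by
  have : ConeS p j = ⋂ k, {x | |p k x| ≤ p j x} := by ext; simp [ConeS]
  rw [this]
  exact isClosed_iInter fun k => isClosed_le (by fun_prop) (by fun_prop)

theorem C3_null {N : ℕ} (p : Fin N → D3) (j : Fin N) (hj : ∀ k, p k ≠ -p j) :
    ∀ᵐ y : V3, p j y ≠ 0 ∧ ∀ k, p k ≠ p j → |p k y| ≠ |p j y| := by
  have h0 : p j ≠ 0 := by
    intro h; exact hj j (by rw [h, neg_zero])
  have h1 : ∀ᵐ y : V3, p j y ≠ 0 := by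
    rw [ae_iff]; simpa using null_level h0 0
  have h2 : ∀ᵐ y : V3, ∀ k, p k ≠ p j → |p k y| ≠ |p j y| := by
    rw [ae_all_iff]
    intro k
    by_cases hk : p k = p j
    · exact ae_of_all _ fun y h => absurd hk h
    · have h3 : p k - p j ≠ 0 := sub_ne_zero.2 hk
      have h4 : p k + p j ≠ 0 := fun h => hj k (eq_neg_of_add_eq_zero_left h)
      have h5 : ∀ᵐ y : V3, (p k - p j) y ≠ 0 := by
        have := null_level h3 0
        rw [ae_iff]
        simpa only [ne_eq, not_not] using this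
      have h6 : ∀ᵐ y : V3, (p k + p j) y ≠ 0 := by
        have := null_level h4 0
        rw [ae_iff]
        simpa only [ne_eq, not_not] using this
      filter_upwards [h5, h6] with y h7 h8 _ h9
      rcases abs_eq_abs.1 h9 with h | h
      · exact h7 (by change p k y - p j y = 0; linarith)
      · exact h8 (by change p k y + p j y = 0; linarith)
  filter_upwards [h1, h2] with y h3 h4 using ⟨h3, h4⟩

/-- the limit of the difference quotients of the integrands -/
theorem C3_limit {N : ℕ} {p : Fin N → D3} {j : Fin N} (η : D3) {c : ℝ → V3}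
    (hc : Tendsto c (𝓝[≠] 0) (𝓝 0)) {y : V3} (h0 : p j y ≠ 0)
    (hne : ∀ k, p k ≠ p j → |p k y| ≠ |p j y|) :
    Tendsto (fun t : ℝ =>
      (Real.exp (-nmax (pert p j η t) (c t) y) - Real.exp (-nmax p (c t) y)) / t) (𝓝[≠] 0)
      (𝓝 ((ConeS p j).indicator (C3_g p j η) y + (ConeS p j).indicator (C3_g p j η) (-y))) := by
  have hta : ∀ k, Tendsto (fun t => |pert p j η t k y| / (1 - pert p j η t k (c t))) (𝓝[≠] 0)
      (𝓝 |p k y|) := fun k => C3_tendsto_term (C3_tendsto_pert p j k η) hc y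
  have htb : ∀ k, Tendsto (fun t => |p k y| / (1 - p k (c t))) (𝓝[≠] 0) (𝓝 |p k y|) :=
    fun k => C3_tendsto_term (x := fun _ => p k) tendsto_const_nhds hc y
  by_cases hA : ∀ k, |p k y| ≤ |p j y|
  · have evA : ∀ᶠ t in 𝓝[≠] (0 : ℝ), ∀ k, |pert p j η t k y| / (1 - pert p j η t k (c t)) ≤
        |pert p j η t j y| / (1 - pert p j η t j (c t)) := by
      rw [eventually_all]
      intro k
      by_cases hk : p k = p j
      · refine Eventually.of_forall fun t => ?_
        rw [C3_pert_eq hk, C3_pert_eq rfl]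
      · have hlt : |p k y| < |p j y| := lt_of_le_of_ne (hA k) (hne k hk)
        exact ((hta k).eventually_lt (hta j) hlt).mono fun t ht => ht.le
    have evB : ∀ᶠ t in 𝓝[≠] (0 : ℝ), ∀ k, |p k y| / (1 - p k (c t)) ≤
        |p j y| / (1 - p j (c t)) := by
      rw [eventually_all]
      intro k
      by_cases hk : p k = p j
      · refine Eventually.of_forall fun t => ?_
        rw [hk]
      · have hlt : |p k y| < |p j y| := lt_of_le_of_ne (hA k) (hne k hk)
        exact ((htb k).eventually_lt (htb j) hlt).mono fun t ht => ht.le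
    obtain ⟨s, hs, hsy⟩ : ∃ s : ℝ, (s = 1 ∨ s = -1) ∧ 0 < s * p j y := by
      rcases lt_or_gt_of_ne h0 with h | h
      · exact ⟨-1, Or.inr rfl, by linarith⟩
      · exact ⟨1, Or.inl rfl, by linarith⟩
    have hta' : Tendsto (fun t : ℝ => |(p j + t • η) y| / (1 - (p j + t • η) (c t))) (𝓝[≠] 0)
        (𝓝 |p j y|) := by
      refine (hta j).congr fun t => ?_
      rw [C3_pert_eq rfl]
    have hq := C3_exp_quot hta' (htb j) (C3_quot_term hc hs hsy)
    have hval : -(s * η y * Real.exp (-|p j y|)) =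
        (ConeS p j).indicator (C3_g p j η) y + (ConeS p j).indicator (C3_g p j η) (-y) := by
      rcases hs with rfl | rfl
      · rw [one_mul] at hsy
        have m1 : y ∈ ConeS p j := fun k => (hA k).trans_eq (abs_of_pos hsy)
        have m2 : -y ∉ ConeS p j := by
          intro hm
          have := hm j
          rw [map_neg] at this
          have h3 := abs_nonneg (-(p j y))
          linarith
        rw [indicator_of_mem m1, indicator_of_notMem m2, C3_g, abs_of_pos hsy]
        ring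
      · have hneg : p j y < 0 := by linarith
        have m1 : -y ∈ ConeS p j := by
          intro k
          rw [map_neg, map_neg, abs_neg]
          exact (hA k).trans_eq (abs_of_neg hneg)
        have m2 : y ∉ ConeS p j := by
          intro hm
          have := hm j
          have h3 := abs_nonneg (p j y)
          linarith
        rw [indicator_of_mem m1, indicator_of_notMem m2, C3_g, abs_of_neg hneg, map_neg, map_neg]
        ring
    rw [← hval]
    refine hq.congr' ?_
    filter_upwards [evA, evB] with t h1 h2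
    have e1 : nmax (pert p j η t) (c t) y =
        |(p j + t • η) y| / (1 - (p j + t • η) (c t)) := by
      unfold nmax
      rw [C3_iSup_eq j h1, C3_pert_eq rfl]
    have e2 : nmax p (c t) y = |p j y| / (1 - p j (c t)) := by
      unfold nmax
      rw [C3_iSup_eq j h2]
    rw [e1, e2]
  · push Not at hA
    obtain ⟨k0, hk0⟩ := hA
    have hk0' : p k0 ≠ p j := by
      intro h
      rw [h] at hk0
      exact lt_irrefl _ hk0
    have m1 : y ∉ ConeS p j := by
      intro hm
      have h1 := hm k0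
      have h2 := le_abs_self (p j y)
      linarith
    have m2 : -y ∉ ConeS p j := by
      intro hm
      have h1 := hm k0
      rw [map_neg, map_neg, abs_neg] at h1
      have h2 := neg_abs_le (p j y)
      linarith
    rw [indicator_of_notMem m1, indicator_of_notMem m2, add_zero]
    refine tendsto_const_nhds.congr' ?_
    filter_upwards [(hta j).eventually_lt (hta k0) hk0, (htb j).eventually_lt (htb k0) hk0]
      with t h1 h2
    have e : nmax (pert p j η t) (c t) y = nmax p (c t) y := by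
      unfold nmax
      refine C3_iSup_congr k0 ?_ fun k => ?_
      · rw [C3_pert_ne hk0']
      · by_cases hk : p k = p j
        · right
          constructor
          · rw [C3_pert_eq hk]
            rw [C3_pert_eq rfl] at h1
            exact h1.le
          · rw [hk]
            exact h2.le
        · left
          rw [C3_pert_ne hk]
    rw [e, sub_self, zero_div]

/-- Difference quotients of `vol (Sym (Poly (pert t)) c)` at `t → 0`, with centres `c t → 0`, when
no facet is parallel to facet `j` at the same distance on the other side (`hj`; it implies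
`p j ≠ 0`).
Proof: by `vol_sym_eq` both volumes are `(1/6) ∫ exp(-nmax ..)` (for small `t` all denominators
`1 - pert k (c t)` are at least `1/2`).  For almost every `y` the maximum of `|p k y|` over `k` is
attained exactly for the `k` with `p k = p j` (`y ∈ ConeS p j` or `-y ∈ ConeS p j`), or only for
other `k` (ties `|p k y| = |p j y|`, `p k ≠ ± p j`, are null).  In the second case both integrands
agree for small `t`.  In the first, for small `t`, `nmax (pert t) (c t) y = |p j y + t η y| /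
(1 - p j (c t) - t η (c t))` and `nmax p (c t) y = |p j y| / (1 - p j (c t))`, whose difference is
`t (± η y + o(1))`, `±` the sign of `p j y`; so the quotient of the integrands tends to
`-(± η y) exp(-|p j y|)`.  Domination as in `tendsto_poly_quot`: for `‖c‖`, `|t|` small,
`|nmax (pert t) c y - nmax p c y| ≤ C |t| ‖y‖` and `nmax ≥ m ‖y‖`.  The limit of the integrals is
`-∫_{ConeS} η y e^{-p j y} - ∫_{-ConeS} (-η y) e^{p j y} = -2 ∫_{ConeS} η y e^{-p j y}`. -/
theorem tendsto_sym_quot {N : ℕ} {p : Fin N → D3} (hb : Bornology.IsBounded (Poly p))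
    (j : Fin N) (hj : ∀ k, p k ≠ -p j) (η : D3) {c : ℝ → V3}
    (hc : Tendsto c (𝓝[≠] 0) (𝓝 0)) :
    Tendsto (fun t : ℝ =>
        (vol (Sym (Poly (pert p j η t)) (c t)) - vol (Sym (Poly p) (c t))) / t) (𝓝[≠] 0)
      (𝓝 (-(1 / 3) * ∫ y in ConeS p j, η y * Real.exp (-(p j y)))) := by
  obtain ⟨m, hm, hgl⟩ := gauge_lower_pert hb j η
  obtain ⟨R, hR⟩ := bounded_pert hb j η
  set P : ℝ := 1 + ∑ k, ‖p k‖ + ‖η‖ with hPdef
  have hsum : (0 : ℝ) ≤ ∑ k, ‖p k‖ := Finset.sum_nonneg fun k _ => norm_nonneg _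
  have hη := norm_nonneg η
  have hP : 0 < P := by linarith
  have hpk : ∀ k, ‖p k‖ + ‖η‖ ≤ P := by
    intro k
    have : ‖p k‖ ≤ ∑ i, ‖p i‖ := Finset.single_le_sum (f := fun i => ‖p i‖)
      (fun i _ => norm_nonneg _) (Finset.mem_univ k)
    linarith
  have hgl0 : ∀ y : V3, ∃ k, m * ‖y‖ ≤ p k y := by
    have h := hgl.self_of_nhds
    intro y
    obtain ⟨k, hk⟩ := h y
    refine ⟨k, ?_⟩
    have h2 : pert p j η 0 k = p k := by simp [pert]
    rwa [h2] at hk
  have evc : ∀ᶠ t in 𝓝[≠] (0 : ℝ), ‖c t‖ ≤ 1 / (2 * P) := by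
    have h1 := hc.norm
    rw [norm_zero] at h1
    exact (h1.eventually_lt_const (by positivity)).mono fun t ht => ht.le
  have evt : ∀ᶠ t in 𝓝[≠] (0 : ℝ), |t| ≤ 1 := by
    have h1 : Tendsto (fun t : ℝ => |t|) (𝓝[≠] 0) (𝓝 |0|) :=
      (continuous_abs.tendsto 0).mono_left nhdsWithin_le_nhds
    rw [abs_zero] at h1
    exact (h1.eventually_lt_const one_pos).mono fun t ht => ht.le
  have ev0 : ∀ᶠ t in 𝓝[≠] (0 : ℝ), t ≠ 0 := self_mem_nhdsWithin
  have evg : ∀ᶠ t in 𝓝[≠] (0 : ℝ), ∀ y : V3, ∃ k, m * ‖y‖ ≤ pert p j η t k y :=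
    hgl.filter_mono nhdsWithin_le_nhds
  have evR : ∀ᶠ t in 𝓝[≠] (0 : ℝ), Poly (pert p j η t) ⊆ Metric.closedBall 0 R :=
    hR.filter_mono nhdsWithin_le_nhds
  have hnorm : ∀ t : ℝ, |t| ≤ 1 → ∀ k, ‖pert p j η t k‖ ≤ P := by
    intro t ht k
    by_cases hk : p k = p j
    · rw [C3_pert_eq hk, ← hk]
      refine (norm_add_le _ _).trans (le_trans ?_ (hpk k))
      rw [norm_smul, Real.norm_eq_abs]
      nlinarith [norm_nonneg (p k), abs_nonneg t]
    · rw [C3_pert_ne hk]
      linarith [hpk k]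
  -- dominated convergence
  have key : Tendsto (fun t : ℝ => ∫ y : V3,
      (Real.exp (-nmax (pert p j η t) (c t) y) - Real.exp (-nmax p (c t) y)) / t) (𝓝[≠] 0)
      (𝓝 (∫ y : V3, ((ConeS p j).indicator (C3_g p j η) y +
        (ConeS p j).indicator (C3_g p j η) (-y)))) := by
    refine tendsto_integral_filter_of_dominated_convergence
      (fun y => 4 * ‖η‖ * (‖y‖ ^ 1 * Real.exp (-(m / 2 * ‖y‖)))) ?_ ?_ ?_ ?_
    · refine Eventually.of_forall fun t => ?_
      exact (((C3_nmax_measurable _ _).neg.exp.sub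
        (C3_nmax_measurable _ _).neg.exp).div_const t).aestronglyMeasurable
    · filter_upwards [evc, evt, ev0, evg] with t h1 h2 h3 h4
      refine ae_of_all _ fun y => ?_
      have hden : ∀ k, |pert p j η t k (c t)| ≤ 1 / 2 := fun k => C3_den hP (hnorm t h2 k) h1
      have hden0 : ∀ k, |p k (c t)| ≤ 1 / 2 := fun k =>
        C3_den hP (by linarith [hpk k]) h1
      have l1 := C3_nmax_lower hden h4 y
      have l2 := C3_nmax_lower hden0 hgl0 y
      have h5 := C3_exp_sub_le l1 l2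
      have h6 : |nmax (pert p j η t) (c t) y - nmax p (c t) y| ≤ 4 * ‖η‖ * ‖y‖ * |t| := by
        unfold nmax
        refine C3_iSup_sub_le j fun k => ?_
        by_cases hk : p k = p j
        · rw [C3_pert_eq hk, ← hk]
          have h7 : ‖p k + t • η‖ ≤ P := by
            have := hnorm t h2 k
            rwa [C3_pert_eq hk, ← hk] at this
          exact C3_term hP (by linarith [hpk k]) h7 h1
        · rw [C3_pert_ne hk, sub_self, abs_zero]
          positivity
      rw [Real.norm_eq_abs, abs_div, div_le_iff₀ (abs_pos.2 h3)]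
      refine h5.trans ?_
      calc _ ≤ 4 * ‖η‖ * ‖y‖ * |t| * Real.exp (-(m / 2 * ‖y‖)) :=
            mul_le_mul_of_nonneg_right h6 (Real.exp_pos _).le
        _ = 4 * ‖η‖ * (‖y‖ ^ 1 * Real.exp (-(m / 2 * ‖y‖))) * |t| := by ring
    · exact (integrable_norm_pow_exp (half_pos hm) 1).const_mul _
    · filter_upwards [C3_null p j hj] with y hy
      exact C3_limit η hc hy.1 hy.2
  -- the limit of the integrals
  have hgint : Integrable ((ConeS p j).indicator (C3_g p j η)) := by
    refine Integrable.mono' ((integrable_norm_pow_exp hm 1).const_mul ‖η‖) ?_ ?_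
    · refine (Measurable.indicator ?_ (C3_coneS_closed p j).measurableSet).aestronglyMeasurable
      unfold C3_g
      exact Continuous.measurable (by fun_prop)
    · refine ae_of_all _ fun y => ?_
      by_cases hy : y ∈ ConeS p j
      · rw [indicator_of_mem hy, C3_g, norm_neg, norm_mul, Real.norm_of_nonneg (Real.exp_pos _).le]
        obtain ⟨k, hk⟩ := hgl0 y
        have h1 := hy k
        have h2 := le_abs_self (p k y)
        have h3 : Real.exp (-(p j y)) ≤ Real.exp (-(m * ‖y‖)) :=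
          Real.exp_le_exp.2 (by linarith)
        calc ‖η y‖ * Real.exp (-(p j y)) ≤ (‖η‖ * ‖y‖) * Real.exp (-(m * ‖y‖)) :=
              mul_le_mul (η.le_opNorm y) h3 (Real.exp_pos _).le (by positivity)
          _ = ‖η‖ * (‖y‖ ^ 1 * Real.exp (-(m * ‖y‖))) := by ring
      · rw [indicator_of_notMem hy, norm_zero]
        positivity
  have hlim : (∫ y : V3, ((ConeS p j).indicator (C3_g p j η) y +
      (ConeS p j).indicator (C3_g p j η) (-y))) =
      2 * ∫ y in ConeS p j, -(η y * Real.exp (-(p j y))) := by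
    rw [integral_add hgint hgint.comp_neg,
      integral_neg_eq_self ((ConeS p j).indicator (C3_g p j η)) volume,
      integral_indicator (C3_coneS_closed p j).measurableSet]
    unfold C3_g
    ring
  rw [hlim, integral_neg] at key
  have key2 := key.const_mul (1 / 6 : ℝ)
  have hval : (1 / 6 : ℝ) * (2 * -∫ y in ConeS p j, η y * Real.exp (-(p j y))) =
      -(1 / 3) * ∫ y in ConeS p j, η y * Real.exp (-(p j y)) := by ring
  rw [hval] at key2
  refine key2.congr' ?_
  filter_upwards [evc, evt, ev0, evg, evR] with t h1 h2 h3 h4 h5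
  have hden : ∀ k, |pert p j η t k (c t)| ≤ 1 / 2 := fun k => C3_den hP (hnorm t h2 k) h1
  have hden0 : ∀ k, |p k (c t)| ≤ 1 / 2 := fun k => C3_den hP (by linarith [hpk k]) h1
  have hbt : Bornology.IsBounded (Poly (pert p j η t)) := Metric.isBounded_closedBall.subset h5
  rw [vol_sym_eq hbt (fun k => by have := (abs_le.1 (hden k)).2; linarith),
    vol_sym_eq hb (fun k => by have := (abs_le.1 (hden0 k)).2; linarith), integral_div,
    integral_sub (C3_integrable (half_pos hm) (C3_nmax_lower hden h4))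
      (C3_integrable (half_pos hm) (C3_nmax_lower hden0 hgl0))]
  ring

end Pool.Agent.H48.OR
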