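import Pool.Agent.H48.OR.A5
import Pool.Agent.H48.OR.C3

/-!
# OR-C4: first order conditions
-/

set_option autoImplicit false

namespace Pool.Agent.H48.OR

open MeasureTheory Set Filter Topology

/-- the perturbed data converge -/
theorem C4_tendsto_pert {N : ℕ} (p : Fin N → D3) (j : Fin N) (η : D3) :
    Tendsto (fun t : ℝ => pert p j η t) (𝓝 0) (𝓝 p) := by
  rw [tendsto_pi_nhds]
  intro k
  by_cases h : p k = p j
  · have h1 : (fun t : ℝ => pert p j η t k) = fun t : ℝ => p k + t • η := by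
      funext t
      simp [pert, h]
    rw [h1]
    have h2 : Tendsto (fun t : ℝ => p k + t • η) (𝓝 0) (𝓝 (p k + (0 : ℝ) • η)) :=
      tendsto_const_nhds.add (tendsto_id.smul_const η)
    simpa using h2
  · have h1 : (fun t : ℝ => pert p j η t k) = fun _ : ℝ => p k := by
      funext t
      simp [pert, h]
    rw [h1]
    exact tendsto_const_nhds

/-- optimal centres of the perturbed polytopes tend to the (unique) optimal centre `0`.
Proof: they stay in a compact set (`bounded_pert`); if they did not tend to `0`, a subsequence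
would tend to some `c ≠ 0`; by `tendsto_vol_sym`,
`vol (Sym (Poly p) c) = lim vol (Sym (Poly (pert t)) (c t)) ≥ lim vol (Sym (Poly (pert t)) 0)
= vol (Sym (Poly p) 0)`, so `c` is another optimal centre, contradicting `sym_unique`. -/
theorem exists_centres {N : ℕ} {p : Fin N → D3} (hb : Bornology.IsBounded (Poly p))
    (hopt : ∀ c, vol (Sym (Poly p) c) ≤ vol (Sym (Poly p) 0)) (j : Fin N) (η : D3) :
    ∃ c : ℝ → V3, Tendsto c (𝓝[≠] 0) (𝓝 0) ∧ ∀ᶠ t in 𝓝[≠] (0 : ℝ),
      ∀ c', vol (Sym (Poly (pert p j η t)) c') ≤ vol (Sym (Poly (pert p j η t)) (c t)) := by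
  classical
  obtain ⟨R, hR⟩ := bounded_pert hb j η
  have hex : ∀ t : ℝ, Bornology.IsBounded (Poly (pert p j η t)) →
      ∃ c, c ∈ Poly (pert p j η t) ∧ ∀ c', vol (Sym (Poly (pert p j η t)) c') ≤
        vol (Sym (Poly (pert p j η t)) c) := fun t ht => exists_centre ht
  let c : ℝ → V3 := fun t => if h : Bornology.IsBounded (Poly (pert p j η t)) then
    (hex t h).choose else 0
  have hc : ∀ t, Bornology.IsBounded (Poly (pert p j η t)) → c t ∈ Poly (pert p j η t) ∧
      ∀ c', vol (Sym (Poly (pert p j η t)) c') ≤ vol (Sym (Poly (pert p j η t)) (c t)) := by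
    intro t ht
    have h1 : c t = (hex t ht).choose := by
      simp only [c, ht, dite_true]
    rw [h1]
    exact (hex t ht).choose_spec
  have hRn : ∀ᶠ t in 𝓝[≠] (0 : ℝ), Poly (pert p j η t) ⊆ Metric.closedBall 0 R :=
    hR.filter_mono nhdsWithin_le_nhds
  have hopt' : ∀ᶠ t in 𝓝[≠] (0 : ℝ),
      ∀ c', vol (Sym (Poly (pert p j η t)) c') ≤ vol (Sym (Poly (pert p j η t)) (c t)) := by
    filter_upwards [hRn] with t ht
    exact (hc t (Metric.isBounded_closedBall.subset ht)).2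
  refine ⟨c, ?_, hopt'⟩
  have hmem : ∀ᶠ t in 𝓝[≠] (0 : ℝ), c t ∈ Metric.closedBall (0 : V3) R := by
    filter_upwards [hRn] with t ht
    exact ht (hc t (Metric.isBounded_closedBall.subset ht)).1
  refine (isCompact_closedBall (0 : V3) R).tendsto_nhds_of_unique_mapClusterPt hmem ?_
  intro y _ hy
  have hne : (𝓝[≠] (0 : ℝ) ⊓ comap c (𝓝 y)).NeBot := by
    rw [neBot_inf_comap_iff_map, inf_comm]
    exact hy
  set l : Filter ℝ := 𝓝[≠] (0 : ℝ) ⊓ comap c (𝓝 y) with hl
  have hl1 : l ≤ 𝓝[≠] (0 : ℝ) := inf_le_left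
  have hl2 : l ≤ 𝓝 (0 : ℝ) := hl1.trans nhdsWithin_le_nhds
  have hcy : Tendsto c l (𝓝 y) := tendsto_comap.mono_left inf_le_right
  have hpl : Tendsto (fun t : ℝ => pert p j η t) l (𝓝 p) := (C4_tendsto_pert p j η).mono_left hl2
  have hRl : ∀ᶠ t in l, Poly (pert p j η t) ⊆ Metric.closedBall 0 R := hR.filter_mono hl2
  have t1 : Tendsto (fun t => vol (Sym (Poly (pert p j η t)) (c t))) l
      (𝓝 (vol (Sym (Poly p) y))) := tendsto_vol_sym hpl hcy hRl
  have t2 : Tendsto (fun t => vol (Sym (Poly (pert p j η t)) 0)) l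
      (𝓝 (vol (Sym (Poly p) 0))) :=
    tendsto_vol_sym hpl (tendsto_const_nhds (x := (0 : V3))) hRl
  have hle : vol (Sym (Poly p) 0) ≤ vol (Sym (Poly p) y) := by
    refine le_of_tendsto_of_tendsto t2 t1 ?_
    filter_upwards [hopt'.filter_mono hl1] with t ht
    exact ht 0
  have heq : vol (Sym (Poly p) y) = vol (Sym (Poly p) 0) := le_antisymm (hopt y) hle
  exact (sym_unique (convex_poly p) (isCompact_poly hb) hopt heq (vol_sym_zero_pos hb)).symm

/-- First order conditions.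
Proof: with `a = V(L)/V(K)`, `K_t = Poly (pert t)`, `c_t` the optimal centres: by minimality
`a V(K_t) ≤ vol (Sym K_t c_t)`, and `vol (Sym K c_t) ≤ vol (Sym K 0) = a V(K)`.  Subtract and divide
by `t > 0`, let `t → 0`: `-(a/6) ∫_{Cone} η e^{-p j} ≤ -(1/3) ∫_{ConeS} η e^{-p j}` by
`tendsto_poly_quot`, `tendsto_sym_quot`; `t < 0` gives the opposite inequality. -/
theorem first_order {N : ℕ} {p : Fin N → D3} (hb : Bornology.IsBounded (Poly p))
    (hopt : ∀ c, vol (Sym (Poly p) c) ≤ vol (Sym (Poly p) 0))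
    (hmin : ∀ q : Fin N → D3, Bornology.IsBounded (Poly q) → ∃ c,
        vol (Sym (Poly p) 0) * vol (Poly q) ≤ vol (Sym (Poly q) c) * vol (Poly p))
    (j : Fin N) (hj : ∀ k, p k ≠ -p j) (η : D3) :
    2 * vol (Poly p) * ∫ y in ConeS p j, η y * Real.exp (-(p j y)) =
      vol (Sym (Poly p) 0) * ∫ y in Cone p j, η y * Real.exp (-(p j y)) := by
  obtain ⟨c, hc, hcopt⟩ := exists_centres hb hopt j η
  obtain ⟨R, hR⟩ := bounded_pert hb j η
  have hRn : ∀ᶠ t in 𝓝[≠] (0 : ℝ), Poly (pert p j η t) ⊆ Metric.closedBall 0 R :=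
    hR.filter_mono nhdsWithin_le_nhds
  have hA := tendsto_poly_quot hb j η
  have hB := tendsto_sym_quot hb j hj η hc
  have hV : 0 < vol (Poly p) := vol_poly_pos hb
  have hkey : ∀ᶠ t in 𝓝[≠] (0 : ℝ),
      vol (Sym (Poly p) 0) * (vol (Poly (pert p j η t)) - vol (Poly p)) ≤
        vol (Poly p) * (vol (Sym (Poly (pert p j η t)) (c t)) - vol (Sym (Poly p) (c t))) := by
    filter_upwards [hRn, hcopt] with t ht hopt_t
    obtain ⟨c', hc'⟩ := hmin _ (Metric.isBounded_closedBall.subset ht)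
    have h1 : vol (Sym (Poly p) 0) * vol (Poly (pert p j η t)) ≤
        vol (Sym (Poly (pert p j η t)) (c t)) * vol (Poly p) :=
      hc'.trans (mul_le_mul_of_nonneg_right (hopt_t c') hV.le)
    have h2 : vol (Sym (Poly p) (c t)) * vol (Poly p) ≤ vol (Sym (Poly p) 0) * vol (Poly p) :=
      mul_le_mul_of_nonneg_right (hopt (c t)) hV.le
    nlinarith [h1, h2]
  have hgt : (𝓝[>] (0 : ℝ)) ≤ 𝓝[≠] 0 := nhdsWithin_mono _ fun x hx => ne_of_gt hx
  have hlt : (𝓝[<] (0 : ℝ)) ≤ 𝓝[≠] 0 := nhdsWithin_mono _ fun x hx => ne_of_lt hx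
  have e1 : vol (Sym (Poly p) 0) *
      (-(1 / 6) * ∫ y in Cone p j, η y * Real.exp (-(p j y))) ≤
      vol (Poly p) * (-(1 / 3) * ∫ y in ConeS p j, η y * Real.exp (-(p j y))) := by
    refine le_of_tendsto_of_tendsto ((hA.mono_left hgt).const_mul _)
      ((hB.mono_left hgt).const_mul _) ?_
    filter_upwards [hkey.filter_mono hgt, self_mem_nhdsWithin] with t ht htpos
    have htpos' : (0 : ℝ) < t := htpos
    rw [← mul_div_assoc, ← mul_div_assoc]
    exact div_le_div_of_nonneg_right ht htpos'.le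
  have e2 : vol (Poly p) * (-(1 / 3) * ∫ y in ConeS p j, η y * Real.exp (-(p j y))) ≤
      vol (Sym (Poly p) 0) *
      (-(1 / 6) * ∫ y in Cone p j, η y * Real.exp (-(p j y))) := by
    refine le_of_tendsto_of_tendsto ((hB.mono_left hlt).const_mul _)
      ((hA.mono_left hlt).const_mul _) ?_
    filter_upwards [hkey.filter_mono hlt, self_mem_nhdsWithin] with t ht htneg
    have htneg' : t < (0 : ℝ) := htneg
    rw [← mul_div_assoc, ← mul_div_assoc]
    exact div_le_div_of_nonpos_of_le htneg'.le ht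
  linarith [e1, e2]

end Pool.Agent.H48.OR
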