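import Pool.Agent.H48.OR.Basic

/-!
# OR-D1: cone coordinates
-/

set_option autoImplicit false

namespace Pool.Agent.H48.OR

open MeasureTheory Set
open scoped Pointwise ENNReal

/-- the facet `F` in the plane `{height = 1}` -/
def Fset {N : ℕ} (p : Fin N → D3) : Set (ℝ × ℝ) := {z | ∀ k, p k (1, z) ≤ 1}

/-- the facet `G = F ∩ (-K)` of the symmetric part -/
def Gset {N : ℕ} (p : Fin N → D3) : Set (ℝ × ℝ) := {z | ∀ k, |p k (1, z)| ≤ 1}

/-- gauge of `-K` on the plane `{height = 1}` -/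
noncomputable def gneg {N : ℕ} (p : Fin N → D3) (z : ℝ × ℝ) : ℝ := ⨆ k, -(p k (1, z))

theorem D1_gneg_le {N : ℕ} (p : Fin N → D3) (z : ℝ × ℝ) (k : Fin N) : -(p k (1, z)) ≤ gneg p z :=
  le_ciSup (f := fun k => -(p k (1, z))) (Set.finite_range _).bddAbove k

theorem D1_gneg_pos {N : ℕ} {p : Fin N → D3} (hb : Bornology.IsBounded (Poly p)) (z : ℝ × ℝ) :
    0 < gneg p z := by
  obtain ⟨m, hm, h⟩ := gauge_lower hb
  obtain ⟨k, hk⟩ := h (-((1, z) : V3))
  rw [map_neg, norm_neg] at hk
  have h1 : 0 < ‖((1, z) : V3)‖ := by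
    rw [norm_pos_iff]
    intro h0
    have := congrArg Prod.fst h0
    simp at this
  exact lt_of_lt_of_le (mul_pos hm h1) (hk.trans (D1_gneg_le p z k))

theorem D1_gneg_measurable {N : ℕ} (p : Fin N → D3) : Measurable (gneg p) := by
  unfold gneg
  refine Measurable.iSup fun k => ?_
  have : Continuous fun z : ℝ × ℝ => -(p k (1, z)) := by fun_prop
  exact this.measurable

theorem D1_isClosed_F {N : ℕ} (p : Fin N → D3) : IsClosed (Fset p) := by
  have : Fset p = (fun z : ℝ × ℝ => ((1, z) : V3)) ⁻¹' (Poly p) := rfl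
  rw [this]
  exact (isClosed_poly p).preimage (by fun_prop)

theorem D1_isClosed_G {N : ℕ} (p : Fin N → D3) : IsClosed (Gset p) := by
  have : Gset p = ⋂ k, {z | |p k (1, z)| ≤ 1} := by ext x; simp [Gset]
  rw [this]
  exact isClosed_iInter fun k => isClosed_le (by fun_prop) continuous_const

theorem D1_G_sub_F {N : ℕ} (p : Fin N → D3) : Gset p ⊆ Fset p :=
  fun _ hz k => (le_abs_self _).trans (hz k)

/-- `F` is compact and convex; `gneg` is positive (because `Poly p` is bounded) -/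
theorem fset_facts {N : ℕ} {p : Fin N → D3} (hb : Bornology.IsBounded (Poly p)) :
    Convex ℝ (Fset p) ∧ IsCompact (Fset p) ∧ IsCompact (Gset p) ∧ ∀ z, 0 < gneg p z := by
  have hFc : IsCompact (Fset p) := by
    refine Metric.isCompact_of_isClosed_isBounded (D1_isClosed_F p) ?_
    obtain ⟨R, hR⟩ := (Metric.isBounded_iff_subset_closedBall (0 : V3)).1 hb
    refine (Metric.isBounded_iff_subset_closedBall (0 : ℝ × ℝ)).2 ⟨R, fun z hz => ?_⟩
    have h1 : ((1, z) : V3) ∈ Metric.closedBall (0 : V3) R := hR hz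
    rw [mem_closedBall_zero_iff] at h1 ⊢
    exact (norm_snd_le ((1, z) : V3)).trans h1
  refine ⟨?_, hFc, hFc.of_isClosed_subset (D1_isClosed_G p) (D1_G_sub_F p), D1_gneg_pos hb⟩
  intro x hx y hy a b ha hb' hab
  have h := convex_poly p (x := ((1, x) : V3)) hx (y := ((1, y) : V3)) hy ha hb' hab
  have h2 : a • ((1, x) : V3) + b • ((1, y) : V3) = (1, a • x + b • y) := by
    ext <;> simp [hab]
  rw [h2] at h
  exact h

/-! ### cone coordinates -/

/-- the open cone over `S ⊂ {height = 1}` -/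
def D1_cone (S : Set (ℝ × ℝ)) : Set V3 := {y | 0 < y.1 ∧ y.1⁻¹ • y.2 ∈ S}

/-- cone coordinates -/
def D1_phi (q : ℝ × (ℝ × ℝ)) : V3 := (q.1, q.1 • q.2)

theorem D1_phi_measurable : Measurable D1_phi := by
  have : Continuous D1_phi := by unfold D1_phi; fun_prop
  exact this.measurable

/-- the measure in cone coordinates -/
noncomputable def D1_mu (S : Set (ℝ × ℝ)) : Measure (ℝ × (ℝ × ℝ)) :=
  (((volume : Measure ℝ).restrict (Ioi 0)).prod
    ((volume : Measure (ℝ × ℝ)).restrict S)).withDensity fun q => ENNReal.ofReal (q.1 ^ 2)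

theorem D1_cone_measurable {S : Set (ℝ × ℝ)} (hS : MeasurableSet S) :
    MeasurableSet (D1_cone S) := by
  have h1 : MeasurableSet {y : V3 | 0 < y.1} := measurableSet_lt measurable_const measurable_fst
  have h2 : Measurable fun y : V3 => y.1⁻¹ • y.2 := by fun_prop
  exact h1.inter (h2 hS)

theorem D1_map {S : Set (ℝ × ℝ)} (hS : MeasurableSet S) :
    Measure.map D1_phi (D1_mu S) = (volume : Measure V3).restrict (D1_cone S) := by
  refine Measure.ext fun A hA => ?_
  rw [Measure.map_apply D1_phi_measurable hA, Measure.restrict_apply hA]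
  have hpA := D1_phi_measurable hA
  rw [D1_mu, withDensity_apply _ hpA, ← lintegral_indicator hpA,
    lintegral_prod _ (by
      refine (Measurable.indicator ?_ hpA).aemeasurable
      fun_prop),
    show (volume : Measure V3) = (volume : Measure ℝ).prod (volume : Measure (ℝ × ℝ)) from
      Measure.volume_eq_prod _ _,
    Measure.prod_apply (hA.inter (D1_cone_measurable hS)),
    ← lintegral_indicator measurableSet_Ioi]
  refine lintegral_congr fun h => ?_
  by_cases hh : 0 < h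
  · rw [indicator_of_mem (show h ∈ Ioi (0:ℝ) from hh)]
    have hset : Prod.mk h ⁻¹' (A ∩ D1_cone S) = h • {z | z ∈ S ∧ D1_phi (h, z) ∈ A} := by
      ext w
      rw [Set.mem_smul_set_iff_inv_smul_mem₀ hh.ne']
      simp only [mem_preimage, mem_inter_iff, D1_cone, mem_ofPred_eq, D1_phi, hh, true_and]
      rw [smul_inv_smul₀ hh.ne']
      exact and_comm
    rw [hset, Measure.addHaar_smul]
    have h3 : Module.finrank ℝ (ℝ × ℝ) = 2 := by simp
    rw [h3, abs_of_nonneg (by positivity)]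
    have h4 : (fun z => (D1_phi ⁻¹' A).indicator
        (fun q : ℝ × (ℝ × ℝ) => ENNReal.ofReal (q.1 ^ 2)) (h, z)) =
        (Prod.mk h ⁻¹' (D1_phi ⁻¹' A)).indicator fun _ => ENNReal.ofReal (h ^ 2) := by
      funext z
      rfl
    rw [h4, lintegral_indicator (measurable_prodMk_left hpA), lintegral_const,
      Measure.restrict_apply MeasurableSet.univ, univ_inter,
      Measure.restrict_apply (measurable_prodMk_left hpA)]
    congr 2
    ext z
    simp only [mem_inter_iff, mem_preimage, mem_ofPred_eq]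
    exact and_comm
  · rw [indicator_of_notMem (show h ∉ Ioi (0:ℝ) from hh)]
    have hset : Prod.mk h ⁻¹' (A ∩ D1_cone S) = ∅ := by
      ext w
      simp [D1_cone, hh]
    rw [hset, measure_empty]

theorem D1_lintegral {S : Set (ℝ × ℝ)} (hS : MeasurableSet S) {g : V3 → ℝ≥0∞}
    (hg : Measurable g) :
    ∫⁻ y in D1_cone S, g y = ∫⁻ z in S, ∫⁻ h in Ioi (0:ℝ), ENNReal.ofReal (h ^ 2) * g (h, h • z) := by
  rw [← D1_map hS, lintegral_map hg D1_phi_measurable, D1_mu]
  change ∫⁻ a, (g ∘ D1_phi) a ∂_ = _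
  rw [lintegral_withDensity_eq_lintegral_mul _ (by fun_prop) (hg.comp D1_phi_measurable),
    lintegral_prod_symm _ (by
      refine Measurable.aemeasurable ?_
      exact Measurable.mul (by fun_prop) (hg.comp D1_phi_measurable))]
  rfl

theorem D1_volume {S : Set (ℝ × ℝ)} (hS : MeasurableSet S) {A : Set V3} (hA : MeasurableSet A) :
    volume (A ∩ D1_cone S) =
      ∫⁻ z in S, ∫⁻ h in Ioi (0:ℝ), ENNReal.ofReal (h ^ 2) * A.indicator 1 ((h, h • z) : V3) := by
  rw [← D1_lintegral hS (measurable_one.indicator hA), lintegral_indicator_one hA,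
    Measure.restrict_apply hA]

/-! ### the cones of the polytope -/

theorem D1_height {N : ℕ} {p : Fin N → D3} (hb : Bornology.IsBounded (Poly p)) {j : Fin N}
    (hj : ∀ x, p j x = x.1) {y : V3} (hy : y ∈ Cone p j) : y = 0 ∨ 0 < y.1 := by
  obtain ⟨m, hm, h⟩ := gauge_lower hb
  obtain ⟨k, hk⟩ := h y
  have h1 : m * ‖y‖ ≤ y.1 := by rw [← hj y]; exact hk.trans (hy k)
  rcases eq_or_ne y 0 with h0 | h0
  · exact Or.inl h0
  · exact Or.inr (lt_of_lt_of_le (mul_pos hm (norm_pos_iff.2 h0)) h1)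

theorem D1_scale {N : ℕ} (p : Fin N → D3) (k : Fin N) {y : V3} (hy : 0 < y.1) :
    p k y = y.1 * p k (1, y.1⁻¹ • y.2) := by
  rw [← smul_eq_mul, ← map_smul]
  congr 1
  ext <;> simp [hy.ne']

theorem D1_cone_eq {N : ℕ} {p : Fin N → D3} (hb : Bornology.IsBounded (Poly p)) {j : Fin N}
    (hj : ∀ x, p j x = x.1) : Cone p j \ {0} = D1_cone (Fset p) := by
  ext y
  constructor
  · rintro ⟨hy, h0⟩
    have hpos : 0 < y.1 := (D1_height hb hj hy).resolve_left h0
    refine ⟨hpos, fun k => ?_⟩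
    have h1 := hy k
    rw [hj, D1_scale p k hpos] at h1
    exact le_of_mul_le_mul_left (by linarith) hpos
  · rintro ⟨hpos, hF⟩
    refine ⟨fun k => ?_, ?_⟩
    · rw [hj, D1_scale p k hpos]
      have := mul_le_mul_of_nonneg_left (hF k) hpos.le
      linarith
    · rintro rfl
      simp at hpos

theorem D1_coneS_eq {N : ℕ} {p : Fin N → D3} (hb : Bornology.IsBounded (Poly p)) {j : Fin N}
    (hj : ∀ x, p j x = x.1) : ConeS p j \ {0} = D1_cone (Gset p) := by
  ext y
  constructor
  · rintro ⟨hy, h0⟩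
    have hy' : y ∈ Cone p j := fun k => (le_abs_self _).trans (hy k)
    have hpos : 0 < y.1 := (D1_height hb hj hy').resolve_left h0
    refine ⟨hpos, fun k => ?_⟩
    have h1 := hy k
    rw [hj, D1_scale p k hpos, abs_mul, abs_of_pos hpos] at h1
    exact le_of_mul_le_mul_left (by linarith) hpos
  · rintro ⟨hpos, hF⟩
    refine ⟨fun k => ?_, ?_⟩
    · rw [hj, D1_scale p k hpos, abs_mul, abs_of_pos hpos]
      have := mul_le_mul_of_nonneg_left (hF k) hpos.le
      linarith
    · rintro rfl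
      simp at hpos

theorem D1_singleton_null : (volume : Measure V3) {0} = 0 := by
  have : (volume : Measure V3).IsAddHaarMeasure := inferInstance
  exact measure_singleton 0

theorem D1_cone_ae {N : ℕ} {p : Fin N → D3} (hb : Bornology.IsBounded (Poly p)) {j : Fin N}
    (hj : ∀ x, p j x = x.1) : (Cone p j : Set V3) =ᵐ[volume] D1_cone (Fset p) := by
  rw [← D1_cone_eq hb hj]
  exact (sdiff_null_ae_eq_self D1_singleton_null).symm

theorem D1_coneS_ae {N : ℕ} {p : Fin N → D3} (hb : Bornology.IsBounded (Poly p)) {j : Fin N}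
    (hj : ∀ x, p j x = x.1) : (ConeS p j : Set V3) =ᵐ[volume] D1_cone (Gset p) := by
  rw [← D1_coneS_eq hb hj]
  exact (sdiff_null_ae_eq_self D1_singleton_null).symm

theorem D1_gamma : ∫ h in Ioi (0:ℝ), h ^ 3 * Real.exp (-h) = 6 := by
  have h1 := Real.Gamma_eq_integral (s := 4) (by norm_num)
  have h2 : Real.Gamma 4 = 6 := by
    have h4 : (4 : ℝ) = ((3 : ℕ) : ℝ) + 1 := by norm_num
    rw [h4, Real.Gamma_nat_eq_factorial 3]
    norm_num [Nat.factorial]
  rw [h2] at h1
  rw [h1]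
  refine setIntegral_congr_fun measurableSet_Ioi fun h _ => ?_
  have h3 : (4:ℝ) - 1 = ((3:ℕ):ℝ) := by norm_num
  rw [h3, Real.rpow_natCast, mul_comm]

theorem D1_integral {S : Set (ℝ × ℝ)} (hS : MeasurableSet S) (η : D3) :
    ∫ y in D1_cone S, η y * Real.exp (-y.1) = 6 * ∫ z in S, η (1, z) := by
  have hf : Measurable fun y : V3 => η y * Real.exp (-y.1) := by
    have : Continuous fun y : V3 => η y * Real.exp (-y.1) := by fun_prop
    exact this.measurable
  rw [← D1_map hS, integral_map D1_phi_measurable.aemeasurable hf.aestronglyMeasurable, D1_mu,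
    integral_withDensity_eq_integral_toReal_smul (by fun_prop)
      (Filter.Eventually.of_forall fun _ => ENNReal.ofReal_lt_top)]
  have h1 : ∀ q : ℝ × (ℝ × ℝ), (ENNReal.ofReal (q.1 ^ 2)).toReal •
      (η (D1_phi q) * Real.exp (-(D1_phi q).1)) = (q.1 ^ 3 * Real.exp (-q.1)) * η (1, q.2) := by
    intro q
    have h2 : D1_phi q = q.1 • ((1, q.2) : V3) := by
      ext <;> simp [D1_phi]
    have h3 : (D1_phi q).1 = q.1 := rfl
    rw [h3, h2, map_smul, smul_eq_mul, smul_eq_mul, ENNReal.toReal_ofReal (sq_nonneg _)]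
    ring
  simp_rw [h1]
  rw [integral_prod_mul (μ := (volume : Measure ℝ).restrict (Ioi 0))
    (ν := (volume : Measure (ℝ × ℝ)).restrict S) (fun h => h ^ 3 * Real.exp (-h))
    (fun z => η (1, z)), D1_gamma]

/-- Cone coordinates for integrals.  If `p j` is the first coordinate, then
`Cone p j ∩ {height = h} = h F` for `h > 0` and is null for `h ≤ 0`, so
`∫_{Cone} η y e^{-y.1} dy = ∫_0^∞ h^2 e^{-h} ∫_F η (h, h z) dz dh = 6 ∫_F η (1, z) dz`. -/
theorem integral_cone {N : ℕ} {p : Fin N → D3} (hb : Bornology.IsBounded (Poly p)) {j : Fin N}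
    (hj : ∀ x, p j x = x.1) (η : D3) :
    ∫ y in Cone p j, η y * Real.exp (-(p j y)) = 6 * ∫ z in Fset p, η (1, z) := by
  simp_rw [hj]
  rw [setIntegral_congr_set (D1_cone_ae hb hj)]
  exact D1_integral (D1_isClosed_F p).measurableSet η

theorem integral_coneS {N : ℕ} {p : Fin N → D3} (hb : Bornology.IsBounded (Poly p)) {j : Fin N}
    (hj : ∀ x, p j x = x.1) (η : D3) :
    ∫ y in ConeS p j, η y * Real.exp (-(p j y)) = 6 * ∫ z in Gset p, η (1, z) := by
  simp_rw [hj]
  rw [setIntegral_congr_set (D1_coneS_ae hb hj)]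
  exact D1_integral (D1_isClosed_G p).measurableSet η

theorem D1_inner {r : ℝ} (hr : 0 < r) {A : Set V3} {z : ℝ × ℝ}
    (hA : ∀ h : ℝ, 0 < h → (((h, h • z) : V3) ∈ A ↔ h * r ≤ 1)) :
    ∫⁻ h in Ioi (0:ℝ), ENNReal.ofReal (h ^ 2) * A.indicator 1 ((h, h • z) : V3) =
      ENNReal.ofReal ((1 / 3) * (r ^ 3)⁻¹) := by
  have h1 : ∫⁻ h in Ioi (0:ℝ), ENNReal.ofReal (h ^ 2) * A.indicator 1 ((h, h • z) : V3) =
      ∫⁻ h in Ioi (0:ℝ), (Ioc 0 (1 / r)).indicator (fun h => ENNReal.ofReal (h ^ 2)) h := by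
    refine setLIntegral_congr_fun measurableSet_Ioi fun h hh => ?_
    have hh' : 0 < h := hh
    by_cases hA' : ((h, h • z) : V3) ∈ A
    · have h2 : h ∈ Ioc 0 (1 / r) := ⟨hh', by rw [le_div_iff₀ hr]; exact (hA h hh').1 hA'⟩
      rw [indicator_of_mem hA', indicator_of_mem h2, Pi.one_apply, mul_one]
    · have h2 : h ∉ Ioc 0 (1 / r) := fun h3 => hA' ((hA h hh').2 (by
        rw [← le_div_iff₀ hr]; exact h3.2))
      rw [indicator_of_notMem hA', indicator_of_notMem h2, mul_zero]
  rw [h1, lintegral_indicator measurableSet_Ioc, Measure.restrict_restrict measurableSet_Ioc,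
    inter_eq_left.2 Ioc_subset_Ioi_self,
    ← ofReal_integral_eq_lintegral_ofReal
      ((continuous_pow 2).integrableOn_Icc.mono_set Ioc_subset_Icc_self)
      (Filter.Eventually.of_forall fun h => sq_nonneg h),
    ← intervalIntegral.integral_of_le (by positivity), integral_pow]
  congr 1
  norm_num
  ring

theorem D1_vol {S : Set (ℝ × ℝ)} (hS : MeasurableSet S) {A : Set V3} (hA : MeasurableSet A)
    {r : ℝ × ℝ → ℝ} (hr : ∀ z, 0 < r z) (hrm : Measurable r)
    (h : ∀ z ∈ S, ∀ h : ℝ, 0 < h → (((h, h • z) : V3) ∈ A ↔ h * r z ≤ 1)) :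
    (volume (A ∩ D1_cone S)).toReal = (1 / 3) * ∫ z in S, ((r z) ^ 3)⁻¹ := by
  rw [D1_volume hS hA, setLIntegral_congr_fun hS (fun z hz => D1_inner (hr z) (h z hz)),
    ← integral_const_mul, integral_eq_lintegral_of_nonneg_ae
      (Filter.Eventually.of_forall fun z => by have := hr z; positivity)
      (by
        refine Measurable.aestronglyMeasurable ?_
        exact ((hrm.pow_const 3).inv).const_mul _)]

/-- volume of the cone over `G` -/
theorem vol_coneS {N : ℕ} {p : Fin N → D3} (hb : Bornology.IsBounded (Poly p)) {j : Fin N}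
    (hj : ∀ x, p j x = x.1) :
    vol {y | y ∈ ConeS p j ∧ p j y ≤ 1} = area (Gset p) / 3 := by
  have hA : MeasurableSet {y : V3 | y.1 ≤ 1} := measurableSet_le measurable_fst measurable_const
  have h1 : {y | y ∈ ConeS p j ∧ p j y ≤ 1} = {y : V3 | y.1 ≤ 1} ∩ ConeS p j := by
    ext y
    simp only [mem_ofPred_eq, mem_inter_iff, hj]
    exact and_comm
  have h2 : ({y : V3 | y.1 ≤ 1} ∩ ConeS p j : Set V3) =ᵐ[volume]
      ({y : V3 | y.1 ≤ 1} ∩ D1_cone (Gset p) : Set V3) :=
    Filter.EventuallyEq.inter (Filter.EventuallyEq.refl _ _) (D1_coneS_ae hb hj)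
  unfold vol
  rw [h1, measure_congr h2, D1_vol (D1_isClosed_G p).measurableSet hA (r := fun _ => 1)
    (fun _ => one_pos) measurable_const (fun z _ h _ => by simp)]
  simp only [one_pow, inv_one, integral_const, smul_eq_mul, mul_one, area]
  rw [measureReal_restrict_apply MeasurableSet.univ, univ_inter]
  unfold Measure.real
  ring

/-- volume of the part of `-K` in the cone over `G`: at `y = (h, h z)`, `z ∈ G`, the condition is
`h * gneg p z ≤ 1`, so the volume is `∫_G ∫_0^{1/gneg} h^2 dh dz` -/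
theorem vol_coneS_opp {N : ℕ} {p : Fin N → D3} (hb : Bornology.IsBounded (Poly p)) {j : Fin N}
    (hj : ∀ x, p j x = x.1) :
    vol {y | y ∈ ConeS p j ∧ ∀ k, -(p k y) ≤ 1} =
      (1 / 3) * ∫ z in Gset p, ((gneg p z) ^ 3)⁻¹ := by
  have hA : MeasurableSet {y : V3 | ∀ k, -(p k y) ≤ 1} := by
    have : {y : V3 | ∀ k, -(p k y) ≤ 1} = ⋂ k, {y : V3 | -(p k y) ≤ 1} := by ext x; simp
    rw [this]
    exact (isClosed_iInter fun k => isClosed_le (by fun_prop) continuous_const).measurableSet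
  have h1 : {y | y ∈ ConeS p j ∧ ∀ k, -(p k y) ≤ 1} =
      {y : V3 | ∀ k, -(p k y) ≤ 1} ∩ ConeS p j := by
    ext y
    simp only [mem_ofPred_eq, mem_inter_iff]
    exact and_comm
  have h2 : ({y : V3 | ∀ k, -(p k y) ≤ 1} ∩ ConeS p j : Set V3) =ᵐ[volume]
      ({y : V3 | ∀ k, -(p k y) ≤ 1} ∩ D1_cone (Gset p) : Set V3) :=
    Filter.EventuallyEq.inter (Filter.EventuallyEq.refl _ _) (D1_coneS_ae hb hj)
  have hne : Nonempty (Fin N) := ⟨j⟩
  unfold vol
  rw [h1, measure_congr h2, D1_vol (D1_isClosed_G p).measurableSet hA (r := gneg p)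
    (D1_gneg_pos hb) (D1_gneg_measurable p) (fun z _ h hh => ?_)]
  have h3 : ∀ k, p k ((h, h • z) : V3) = h * p k (1, z) := by
    intro k
    rw [← smul_eq_mul, ← map_smul]
    congr 1
    ext <;> simp
  simp only [mem_ofPred_eq, h3]
  constructor
  · intro h4
    have h5 : gneg p z ≤ 1 / h := by
      refine ciSup_le fun k => ?_
      rw [le_div_iff₀ hh]
      have := h4 k
      linarith
    rw [le_div_iff₀ hh] at h5
    linarith
  · intro h4 k
    have h5 := mul_le_mul_of_nonneg_left (D1_gneg_le p z k) hh.le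
    linarith

end Pool.Agent.H48.OR
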