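import Pool.Agent.H48.OR.A5
import Pool.Agent.H48.OR.D1

/-!
# OR-D2: the inequality for one facet from the planar inequality
-/

set_option autoImplicit false

namespace Pool.Agent.H48.OR

open MeasureTheory Set

theorem D2_split {N : ℕ} (p : Fin N → D3) (k : Fin N) (z : ℝ × ℝ) :
    p k ((1, z) : V3) = p k ((1, 0) : V3) + p k ((0, z) : V3) := by
  rw [← map_add]
  simp

theorem D2_gneg {N : ℕ} (p : Fin N → D3) (j : Fin N) (z : ℝ × ℝ) :
    (∃ k, -(p k ((1, z) : V3)) = gneg p z) ∧ ∀ k, -(p k ((1, z) : V3)) ≤ gneg p z := by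
  haveI : Nonempty (Fin N) := ⟨j⟩
  constructor
  · exact exists_eq_ciSup_of_finite (f := fun k => -(p k ((1, z) : V3)))
  · intro k
    exact le_ciSup (f := fun k => -(p k ((1, z) : V3))) (Set.finite_range _).bddAbove k

/-- The inequality for one facet, when the functional is the first coordinate.
Proof: apply the planar inequality with `b k z = (1 - p k (1,z)) / 2`, `B = (1 + gneg) / 2`,
`F = Fset p`, `{B ≤ 1} ∩ F = Gset p`, `2 B - 1 = gneg`; `hFO` for `η = ` first coordinate gives
`area G = ρ area F` (`integral_cone`, `integral_coneS`), the two planar coordinates give the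
centroid conditions.  If the interior of `F` is empty, `area F = 0`, hence `area G = 0` and both
sides vanish (`vol_coneS`, `vol_coneS_opp`). -/
theorem facet_fst {κ : ℝ} (hκ : 1 ≤ κ) (hP : PlanarIneq κ) {N : ℕ} {p : Fin N → D3}
    (hb : Bornology.IsBounded (Poly p)) {j : Fin N} (hj : ∀ x, p j x = x.1) {ρ : ℝ} (hρ : 0 < ρ)
    (hρ1 : ρ < 1 / (1 + κ))
    (hFO : ∀ η : D3, ∫ y in ConeS p j, η y * Real.exp (-(p j y)) =
      ρ * ∫ y in Cone p j, η y * Real.exp (-(p j y))) :
    vol {y | y ∈ ConeS p j ∧ ∀ k, -(p k y) ≤ 1} ≤ κ * vol {y | y ∈ ConeS p j ∧ p j y ≤ 1} := by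
  obtain ⟨hFv, hFc, hGc, hg⟩ := fset_facts hb
  have hGF : Gset p ⊆ Fset p := fun z hz k => (le_abs_self _).trans (hz k)
  rw [vol_coneS_opp hb hj, vol_coneS hb hj]
  by_cases hint : (interior (Fset p)).Nonempty
  · -- the planar inequality
    set β : Fin N → (ℝ × ℝ) →L[ℝ] ℝ := fun k =>
      (-(1 / 2) : ℝ) • ((p k).comp (ContinuousLinearMap.inr ℝ ℝ (ℝ × ℝ))) with hβ
    set γ : Fin N → ℝ := fun k => (1 - p k ((1, 0) : V3)) / 2 with hγ
    have hb' : ∀ k z, β k z + γ k = (1 - p k ((1, z) : V3)) / 2 := by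
      intro k z
      rw [D2_split p k z]
      simp only [hβ, hγ, ContinuousLinearMap.smul_apply, ContinuousLinearMap.comp_apply,
        ContinuousLinearMap.inr_apply, smul_eq_mul]
      ring
    set B : ℝ × ℝ → ℝ := fun z => (1 + gneg p z) / 2 with hB
    have hset : {z | z ∈ Fset p ∧ B z ≤ 1} = Gset p := by
      ext z
      obtain ⟨⟨k0, hk0⟩, hk1⟩ := D2_gneg p j z
      simp only [mem_setOf_eq, hB, Gset, Fset]
      constructor
      · rintro ⟨h1, h2⟩ k
        rw [abs_le]
        have := hk1 k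
        exact ⟨by linarith, h1 k⟩
      · intro h
        refine ⟨fun k => (le_abs_self _).trans (h k), ?_⟩
        have := (neg_le_abs (p k0 ((1, z) : V3))).trans (h k0)
        linarith
    have hvolG : (6 : ℝ) * area (Gset p) = ρ * (6 * area (Fset p)) := by
      have h1 := hFO (ContinuousLinearMap.fst ℝ ℝ (ℝ × ℝ))
      rw [integral_cone hb hj, integral_coneS hb hj] at h1
      simpa [area, Measure.real] using h1
    have hc1 : (∫ z in Gset p, z.1) = ρ * ∫ z in Fset p, z.1 := by
      have h1 := hFO ((ContinuousLinearMap.fst ℝ ℝ ℝ).comp (ContinuousLinearMap.snd ℝ ℝ (ℝ × ℝ)))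
      rw [integral_cone hb hj, integral_coneS hb hj] at h1
      simp only [ContinuousLinearMap.comp_apply, ContinuousLinearMap.coe_snd',
        ContinuousLinearMap.coe_fst'] at h1
      linarith
    have hc2 : (∫ z in Gset p, z.2) = ρ * ∫ z in Fset p, z.2 := by
      have h1 := hFO ((ContinuousLinearMap.snd ℝ ℝ ℝ).comp (ContinuousLinearMap.snd ℝ ℝ (ℝ × ℝ)))
      rw [integral_cone hb hj, integral_coneS hb hj] at h1
      simp only [ContinuousLinearMap.comp_apply, ContinuousLinearMap.coe_snd'] at h1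
      linarith
    have key := hP N β γ (Fset p) B ρ hFv hFc hint
      (by
        intro k z hz
        rw [hb']
        have : p k ((1, z) : V3) ≤ 1 := hz k
        linarith)
      (by
        intro z
        obtain ⟨⟨k0, hk0⟩, hk1⟩ := D2_gneg p j z
        constructor
        · refine ⟨k0, ?_⟩
          show β k0 z + γ k0 = B z
          rw [hb', hB]
          simp only
          rw [← hk0]
          ring
        · rintro _ ⟨k, rfl⟩
          show β k z + γ k ≤ B z
          rw [hb', hB]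
          have := hk1 k
          simp only
          linarith)
      (by
        intro z _
        have := hg z
        simp only [hB]
        linarith)
      hρ hρ1
      (by rw [hset]; linarith)
      (by rw [hset]; exact hc1)
      (by rw [hset]; exact hc2)
    rw [hset] at key
    have e1 : ∀ z, 2 * B z - 1 = gneg p z := by
      intro z; simp only [hB]; ring
    simp only [e1] at key
    linarith
  · -- degenerate facet
    have h0 : volume (Fset p) = 0 := by
      have h1 := hFv.addHaar_frontier (volume : Measure (ℝ × ℝ))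
      have h2 : Fset p ⊆ frontier (Fset p) := by
        intro z hz
        rw [frontier, not_nonempty_iff_eq_empty.mp hint]
        simpa using subset_closure hz
      exact measure_mono_null h2 h1
    have h1 : volume (Gset p) = 0 := measure_mono_null hGF h0
    have h2 : area (Gset p) = 0 := by simp [area, h1]
    have h3 : (volume.restrict (Gset p)) = 0 := Measure.restrict_eq_zero.mpr h1
    rw [h2, h3]
    simp

theorem D2_map (T : V3 ≃L[ℝ] V3) : ∃ c : ℝ, 0 < c ∧ (∀ S : Set V3, vol (T ⁻¹' S) = c * vol S) ∧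
    ∀ (S : Set V3) (f : V3 → ℝ), ∫ y in T ⁻¹' S, f (T y) = c * ∫ x in S, f x := by
  have hdet : LinearMap.det ((T : V3 →L[ℝ] V3) : V3 →ₗ[ℝ] V3) ≠ 0 := by
    have : ((T : V3 →L[ℝ] V3) : V3 →ₗ[ℝ] V3) = (T.toLinearEquiv : V3 →ₗ[ℝ] V3) := rfl
    rw [this]
    exact (LinearEquiv.isUnit_det' T.toLinearEquiv).ne_zero
  set c : ℝ := |(LinearMap.det ((T : V3 →L[ℝ] V3) : V3 →ₗ[ℝ] V3))⁻¹| with hc
  have hc0 : 0 < c := abs_pos.mpr (inv_ne_zero hdet)
  have hmap : Measure.map (T : V3 → V3) (volume : Measure V3) = ENNReal.ofReal c • volume :=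
    Measure.map_linearMap_addHaar_eq_smul_addHaar volume hdet
  refine ⟨c, hc0, fun S => ?_, fun S f => ?_⟩
  · have h1 : volume (T ⁻¹' S) = ENNReal.ofReal c * volume S :=
      Measure.addHaar_preimage_linearMap volume hdet S
    rw [vol, h1, ENNReal.toReal_mul, ENNReal.toReal_ofReal hc0.le, vol]
  · have hemb : MeasurableEmbedding (T : V3 → V3) := T.toHomeomorph.measurableEmbedding
    have h1 := hemb.setIntegral_map (μ := volume) f S
    rw [← h1, hmap, Measure.restrict_smul, integral_smul_measure, ENNReal.toReal_ofReal hc0.le,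
      smul_eq_mul]

/-- The inequality for one facet, general case: change of coordinates `T` with
`p j (T x) = x.1` (`exists_equiv_fst`), `p' k = p k ∘ T`; volumes and integrals are multiplied by
the same constant (`exists_vol_equiv`, and for integrals
`MeasurePreserving`/`integral_map` for the measure `c⁻¹ • map T volume`). -/
theorem facet_ineq {κ : ℝ} (hκ : 1 ≤ κ) (hP : PlanarIneq κ) {N : ℕ} {p : Fin N → D3}
    (hb : Bornology.IsBounded (Poly p)) {j : Fin N} (hj : p j ≠ 0) {ρ : ℝ} (hρ : 0 < ρ)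
    (hρ1 : ρ < 1 / (1 + κ))
    (hFO : ∀ η : D3, ∫ y in ConeS p j, η y * Real.exp (-(p j y)) =
      ρ * ∫ y in Cone p j, η y * Real.exp (-(p j y))) :
    vol {y | y ∈ ConeS p j ∧ ∀ k, -(p k y) ≤ 1} ≤ κ * vol {y | y ∈ ConeS p j ∧ p j y ≤ 1} := by
  obtain ⟨T, hT⟩ := exists_equiv_fst hj
  obtain ⟨c, hc0, hcv, hci⟩ := D2_map T
  set p' : Fin N → D3 := fun k => (p k).comp (T : V3 →L[ℝ] V3) with hp'
  have hp'a : ∀ k x, p' k x = p k (T x) := fun k x => rfl
  have hPoly : Poly p' = T ⁻¹' (Poly p) := rfl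
  have hb' : Bornology.IsBounded (Poly p') := by
    have h1 : Poly p' = T.symm '' (Poly p) := by
      rw [hPoly, ← ContinuousLinearEquiv.image_symm_eq_preimage]
    rw [h1]
    exact hb.image (T.symm : V3 →L[ℝ] V3)
  have hj' : ∀ x, p' j x = x.1 := fun x => hT x
  have hCone : Cone p' j = T ⁻¹' (Cone p j) := rfl
  have hConeS : ConeS p' j = T ⁻¹' (ConeS p j) := rfl
  have key := facet_fst hκ hP hb' hj' hρ hρ1 (by
    intro η
    set η' : D3 := η.comp (T.symm : V3 →L[ℝ] V3) with hη'
    have h1 := hFO η'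
    have e1 := hci (ConeS p j) (fun x => η' x * Real.exp (-(p j x)))
    have e2 := hci (Cone p j) (fun x => η' x * Real.exp (-(p j x)))
    have e3 : ∀ y, η' (T y) = η y := by
      intro y; simp [hη']
    simp only [e3] at e1 e2
    rw [hConeS, hCone]
    show ∫ y in T ⁻¹' (ConeS p j), η y * Real.exp (-(p j (T y))) =
      ρ * ∫ y in T ⁻¹' (Cone p j), η y * Real.exp (-(p j (T y)))
    rw [e1, e2, h1]
    ring)
  have s1 : {y | y ∈ ConeS p' j ∧ ∀ k, -(p' k y) ≤ 1} =
      T ⁻¹' {y | y ∈ ConeS p j ∧ ∀ k, -(p k y) ≤ 1} := rfl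
  have s2 : {y | y ∈ ConeS p' j ∧ p' j y ≤ 1} = T ⁻¹' {y | y ∈ ConeS p j ∧ p j y ≤ 1} := rfl
  rw [s1, s2, hcv, hcv] at key
  have h2 : c * vol {y | y ∈ ConeS p j ∧ ∀ k, -(p k y) ≤ 1} ≤
      c * (κ * vol {y | y ∈ ConeS p j ∧ p j y ≤ 1}) := by linarith
  exact le_of_mul_le_mul_left h2 hc0

end Pool.Agent.H48.OR
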