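import Pool.Agent.H48.OR.B1

/-!
# OR-D3: summation over the facets
-/

set_option autoImplicit false

namespace Pool.Agent.H48.OR

open MeasureTheory Set

/-- splitting of a volume along a measurable set -/
theorem D3_split {S U : Set V3} (hS : volume S ≠ ⊤) (hU : MeasurableSet U) :
    vol S = vol (S ∩ U) + vol (S \ U) := by
  unfold vol
  rw [← ENNReal.toReal_add (ne_top_of_le_ne_top hS (measure_mono inter_subset_left))
    (ne_top_of_le_ne_top hS (measure_mono sdiff_subset)), measure_inter_add_sdiff S hU]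

theorem D3_vol_neg (S : Set V3) : vol {y | -y ∈ S} = vol S := by
  unfold vol
  have h : {y : V3 | -y ∈ S} = Neg.neg ⁻¹' S := rfl
  rw [h, Measure.measure_preimage_neg]

theorem D3_isClosed_coneS {N : ℕ} (p : Fin N → D3) (j : Fin N) : IsClosed (ConeS p j) := by
  have : ConeS p j = ⋂ k, {x | |p k x| ≤ p j x} := by ext x; simp [ConeS]
  rw [this]
  exact isClosed_iInter fun k => isClosed_le ((p k).continuous.abs) (p j).continuous

theorem D3_isOpen_U {N : ℕ} (p : Fin N → D3) :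
    IsOpen {y : V3 | ∃ j, ∀ k, -(p k y) < p j y} := by
  have : {y : V3 | ∃ j, ∀ k, -(p k y) < p j y} = ⋃ j, ⋂ k, {y | -(p k y) < p j y} := by
    ext x; simp
  rw [this]
  exact isOpen_iUnion fun j => isOpen_iInter_of_finite fun k =>
    isOpen_lt (p k).continuous.neg (p j).continuous

/-- the main estimate: the part outside is covered by the cones over unpaired facets -/
theorem D3_main {κ : ℝ} {N : ℕ} {p : Fin N → D3} (hκ : 1 ≤ κ)
    (hb : Bornology.IsBounded (Poly p))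
    (h : ∀ j, (∀ k, p k ≠ -p j) →
      vol {y | y ∈ ConeS p j ∧ ∀ k, -(p k y) ≤ 1} ≤
        κ * vol {y | y ∈ ConeS p j ∧ p j y ≤ 1}) :
    vol {y | (∃ j, ∀ k, -(p k y) < p j y) ∧ -y ∈ Poly p} ≤
      κ * vol (Poly p ∩ {y | ∃ j, ∀ k, -(p k y) < p j y}) := by
  classical
  -- values of unpaired functionals
  set W : Finset D3 := (Finset.univ.image p).filter (fun v => ∀ k, p k ≠ -v) with hW
  have hrep : ∀ v ∈ W, ∃ j, p j = v ∧ ∀ k, p k ≠ -p j := by
    intro v hv
    rw [hW, Finset.mem_filter, Finset.mem_image] at hv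
    obtain ⟨⟨j, _, hj⟩, hv2⟩ := hv
    exact ⟨j, hj, by rw [hj]; exact hv2⟩
  -- sets indexed by the values
  let A : D3 → Set V3 := fun v => {y | (∀ k, |p k y| ≤ v y) ∧ v y ≤ 1}
  let B : D3 → Set V3 := fun v => {y | (∀ k, |p k y| ≤ v y) ∧ ∀ k, -(p k y) ≤ 1}
  have hAB : ∀ v ∈ W, vol (B v) ≤ κ * vol (A v) := by
    intro v hv
    obtain ⟨j, hj, hj2⟩ := hrep v hv
    have := h j hj2
    have e1 : {y | y ∈ ConeS p j ∧ ∀ k, -(p k y) ≤ 1} = B v := by
      ext y
      simp [B, ConeS, hj]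
    have e2 : {y | y ∈ ConeS p j ∧ p j y ≤ 1} = A v := by
      ext y
      simp [A, ConeS, hj]
    rw [e1, e2] at this
    exact this
  have hfinK : volume (Poly p) ≠ ⊤ := hb.measure_lt_top.ne
  have hfinK' : volume {y : V3 | -y ∈ Poly p} ≠ ⊤ := by
    have : {y : V3 | -y ∈ Poly p} = Neg.neg ⁻¹' (Poly p) := rfl
    rw [this, Measure.measure_preimage_neg]
    exact hfinK
  have hBsub : ∀ v, B v ⊆ {y : V3 | -y ∈ Poly p} := by
    intro v y hy k
    have := hy.2 k
    rw [map_neg]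
    exact this
  have hAsub : ∀ v, A v ⊆ Poly p := by
    intro v y hy k
    exact (le_abs_self _).trans ((hy.1 k).trans hy.2)
  have hBfin : ∀ v, volume (B v) ≠ ⊤ := fun v =>
    ne_top_of_le_ne_top hfinK' (measure_mono (hBsub v))
  have hAfin : ∀ v, volume (A v) ≠ ⊤ := fun v =>
    ne_top_of_le_ne_top hfinK (measure_mono (hAsub v))
  -- covering
  have hcov : {y | (∃ j, ∀ k, -(p k y) < p j y) ∧ -y ∈ Poly p} ⊆ ⋃ v ∈ W, B v := by
    rintro y ⟨⟨j0, hj0⟩, hy⟩
    obtain ⟨j, -, hj⟩ := Finset.exists_max_image (Finset.univ : Finset (Fin N))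
      (fun k => p k y) ⟨j0, Finset.mem_univ _⟩
    have hlt : ∀ k, -(p k y) < p j y := fun k =>
      (hj0 k).trans_le (hj j0 (Finset.mem_univ _))
    have hun : ∀ k, p k ≠ -p j := by
      intro k hk
      have h1 := hlt k
      rw [hk] at h1
      simp at h1
    rw [mem_iUnion₂]
    refine ⟨p j, ?_, ?_, ?_⟩
    · rw [hW, Finset.mem_filter, Finset.mem_image]
      exact ⟨⟨j, Finset.mem_univ _, rfl⟩, hun⟩
    · intro k
      rw [abs_le]
      constructor
      · linarith [hlt k]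
      · exact hj k (Finset.mem_univ _)
    · intro k
      have := hy k
      rw [map_neg] at this
      exact this
  have h1 : vol {y | (∃ j, ∀ k, -(p k y) < p j y) ∧ -y ∈ Poly p} ≤ ∑ v ∈ W, vol (B v) := by
    unfold vol
    rw [← ENNReal.toReal_sum (fun v _ => hBfin v)]
    refine ENNReal.toReal_mono ?_ ((measure_mono hcov).trans (measure_biUnion_finset_le W B))
    exact (ENNReal.sum_lt_top.2 (fun v _ => (hBfin v).lt_top)).ne
  -- measurability and almost disjointness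
  have hAm : ∀ v, MeasurableSet (A v) := by
    intro v
    have : A v = (⋂ k, {y | |p k y| ≤ v y}) ∩ {y | v y ≤ 1} := by
      ext y; simp [A]
    rw [this]
    exact ((isClosed_iInter fun k => isClosed_le ((p k).continuous.abs) v.continuous).inter
      (isClosed_le v.continuous continuous_const)).measurableSet
  have hdisj : Set.Pairwise (↑W : Set D3) (Function.onFun (AEDisjoint volume) A) := by
    intro v hv w hw hvw
    have hsub : A v ∩ A w ⊆ {y : V3 | (v - w) y = 0} := by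
      rintro y ⟨hy1, hy2⟩
      obtain ⟨i, hi, -⟩ := hrep v hv
      obtain ⟨j, hj, -⟩ := hrep w hw
      have a1 := hy1.1 j
      have a2 := hy2.1 i
      rw [hj] at a1
      rw [hi] at a2
      have b1 := (le_abs_self _).trans a1
      have b2 := (le_abs_self _).trans a2
      show (v - w) y = 0
      rw [sub_apply]
      linarith
    show volume (A v ∩ A w) = 0
    exact measure_mono_null hsub (null_level (sub_ne_zero.2 hvw) 0)
  have hAP : ∀ v ∈ W, volume (A v \ (Poly p ∩ {y | ∃ j, ∀ k, -(p k y) < p j y})) = 0 := by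
    intro v hv
    obtain ⟨j, hj, hun⟩ := hrep v hv
    have hsub : A v \ (Poly p ∩ {y | ∃ j, ∀ k, -(p k y) < p j y}) ⊆
        ⋃ k, {y : V3 | (p k + p j) y = 0} := by
      rintro y ⟨hy1, hy2⟩
      by_contra hcon
      rw [mem_iUnion] at hcon
      push Not at hcon
      apply hy2
      refine ⟨hAsub v hy1, j, fun k => ?_⟩
      have h3 := hy1.1 k
      rw [← hj, abs_le] at h3
      have h4 : (p k + p j) y ≠ 0 := hcon k
      rw [add_apply] at h4
      have h5 : -(p k y) ≤ p j y := by linarith [h3.1]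
      refine lt_of_le_of_ne h5 ?_
      intro h6
      apply h4
      linarith
    refine measure_mono_null hsub ?_
    rw [measure_iUnion_null_iff]
    intro k
    refine null_level ?_ 0
    intro h0
    exact hun k (eq_neg_of_add_eq_zero_left h0)
  have h2 : ∑ v ∈ W, vol (A v) ≤ vol (Poly p ∩ {y | ∃ j, ∀ k, -(p k y) < p j y}) := by
    have e : ∑ v ∈ W, volume (A v) = volume (⋃ v ∈ W, A v) :=
      (measure_biUnion_finset₀ hdisj (fun v _ => (hAm v).nullMeasurableSet)).symm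
    have hle : volume (⋃ v ∈ W, A v) ≤
        volume (Poly p ∩ {y | ∃ j, ∀ k, -(p k y) < p j y}) := by
      apply measure_mono_ae
      rw [ae_le_set]
      have hsub2 : (⋃ v ∈ W, A v) \ (Poly p ∩ {y | ∃ j, ∀ k, -(p k y) < p j y}) ⊆
          ⋃ v ∈ W, (A v \ (Poly p ∩ {y | ∃ j, ∀ k, -(p k y) < p j y})) := by
        rintro y ⟨hy1, hy2⟩
        rw [mem_iUnion₂] at hy1 ⊢
        obtain ⟨v, hv, hy⟩ := hy1
        exact ⟨v, hv, hy, hy2⟩
      refine measure_mono_null hsub2 ?_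
      exact (measure_biUnion_null_iff (μ := volume) (Finset.countable_toSet W)).2 hAP
    unfold vol
    rw [← ENNReal.toReal_sum (fun v _ => hAfin v), e]
    exact ENNReal.toReal_mono (ne_top_of_le_ne_top hfinK (measure_mono inter_subset_left)) hle
  calc vol {y | (∃ j, ∀ k, -(p k y) < p j y) ∧ -y ∈ Poly p} ≤ ∑ v ∈ W, vol (B v) := h1
    _ ≤ ∑ v ∈ W, κ * vol (A v) := Finset.sum_le_sum hAB
    _ = κ * ∑ v ∈ W, vol (A v) := by rw [Finset.mul_sum]
    _ ≤ κ * vol (Poly p ∩ {y | ∃ j, ∀ k, -(p k y) < p j y}) :=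
        mul_le_mul_of_nonneg_left h2 (by linarith)

/-- Summation over the facets.
Proof: let `g y = max_k p k y`, `E = {y ∈ K | g(-y) = g(y)}`, `P = {y ∈ K | g(-y) < g(y)}`,
`Q = {y ∈ K | g(y) < g(-y)}`.  Then `vol K = vol E + vol P + vol Q` and
`vol (Sym K 0) = vol E + 2 vol P` (`Sym K 0 = E ∪ P ∪ -P`, disjoint).
Choose one index `j` for each value of `p`, call `j` unpaired if `p k ≠ - p j` for all `k`.
If `g(-y) < g(y) = p j y`, then `j` is unpaired and `y ∈ ConeS p j`.  So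
`vol Q = vol (-Q) = vol {y | g(-y) ≤ 1, g(-y) < g(y)}
  ≤ ∑_{j unpaired} vol {y ∈ ConeS p j | ∀ k, -p k y ≤ 1}
  ≤ κ ∑_{j unpaired} vol {y ∈ ConeS p j | p j y ≤ 1} ≤ κ vol P`;
in the last step the sets `ConeS p j` for different (values) `p j` are disjoint up to null sets
and for unpaired `j` almost every point of `ConeS p j` satisfies `g(-y) < g(y)` (ties are null by
`null_level`).  Hence `vol K ≤ vol E + (1+κ) vol P ≤ (1+κ)/2 vol (Sym K 0)`, as `κ ≥ 1`. -/
theorem sum_facets {κ : ℝ} (hκ : 1 ≤ κ) {N : ℕ} {p : Fin N → D3}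
    (hb : Bornology.IsBounded (Poly p))
    (h : ∀ j, (∀ k, p k ≠ -p j) →
      vol {y | y ∈ ConeS p j ∧ ∀ k, -(p k y) ≤ 1} ≤
        κ * vol {y | y ∈ ConeS p j ∧ p j y ≤ 1}) :
    vol (Poly p) ≤ (1 + κ) / 2 * vol (Sym (Poly p) 0) := by
  have hmain := D3_main hκ hb h
  set U : Set V3 := {y | ∃ j, ∀ k, -(p k y) < p j y} with hU
  set U' : Set V3 := {y | -y ∈ U} with hU'
  have hUo : IsOpen U := D3_isOpen_U p
  have hUm : MeasurableSet U := hUo.measurableSet
  have hUm' : MeasurableSet U' := (hUo.preimage continuous_neg).measurableSet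
  have hfinK : volume (Poly p) ≠ ⊤ := hb.measure_lt_top.ne
  have hLsub : Sym (Poly p) 0 ⊆ Poly p := sym_subset _ _
  have hfinL : volume (Sym (Poly p) 0) ≠ ⊤ := ne_top_of_le_ne_top hfinK (measure_mono hLsub)
  have hLmem : ∀ y, y ∈ Sym (Poly p) 0 ↔ y ∈ Poly p ∧ -y ∈ Poly p := by
    intro y
    show (y ∈ Poly p ∧ (2 : ℝ) • (0 : V3) - y ∈ Poly p) ↔ _
    rw [smul_zero, zero_sub]
  -- `U` and `U'` are disjoint
  have hdis : ∀ y, y ∈ U → y ∉ U' := by
    rintro y ⟨j, hj⟩ ⟨j', hj'⟩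
    have h1 := hj j'
    have h2 := hj' j
    rw [map_neg, map_neg, neg_neg] at h2
    linarith
  -- points of `K` in `U` lie in `-K`
  have hUK : ∀ y, y ∈ Poly p → y ∈ U → -y ∈ Poly p := by
    rintro y hy ⟨j, hj⟩ k
    rw [map_neg]
    exact (hj k).le.trans (hy j)
  -- points of `K` outside `U'` lie in `-K`
  have hEK : ∀ y, y ∈ Poly p → y ∉ U' → -y ∈ Poly p := by
    intro y hy hy' k
    rw [map_neg]
    by_contra hcon
    push Not at hcon
    apply hy'
    refine ⟨k, fun i => ?_⟩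
    rw [map_neg, map_neg, neg_neg]
    exact (hy i).trans_lt hcon
  have s1 := D3_split hfinK hUm
  have s2 := D3_split (S := Poly p \ U) (ne_top_of_le_ne_top hfinK (measure_mono sdiff_subset)) hUm'
  have s3 := D3_split hfinL hUm
  have s4 := D3_split (S := Sym (Poly p) 0 \ U)
    (ne_top_of_le_ne_top hfinL (measure_mono sdiff_subset)) hUm'
  have e1 : Sym (Poly p) 0 ∩ U = Poly p ∩ U := by
    ext y
    constructor
    · rintro ⟨h1, h2⟩
      exact ⟨((hLmem y).1 h1).1, h2⟩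
    · rintro ⟨h1, h2⟩
      exact ⟨(hLmem y).2 ⟨h1, hUK y h1 h2⟩, h2⟩
  have e2 : (Sym (Poly p) 0 \ U) ∩ U' = {y | -y ∈ Poly p ∩ U} := by
    ext y
    constructor
    · rintro ⟨⟨h1, _⟩, h3⟩
      exact ⟨((hLmem y).1 h1).2, h3⟩
    · rintro ⟨h1, h2⟩
      have h3 := hUK (-y) h1 h2
      rw [neg_neg] at h3
      exact ⟨⟨(hLmem y).2 ⟨h3, h1⟩, fun h4 => hdis y h4 h2⟩, h2⟩
  have e3 : (Sym (Poly p) 0 \ U) \ U' = (Poly p \ U) \ U' := by
    ext y
    constructor
    · rintro ⟨⟨h1, h2⟩, h3⟩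
      exact ⟨⟨((hLmem y).1 h1).1, h2⟩, h3⟩
    · rintro ⟨⟨h1, h2⟩, h3⟩
      exact ⟨⟨(hLmem y).2 ⟨h1, hEK y h1 h3⟩, h2⟩, h3⟩
  have e4 : (Poly p \ U) ∩ U' = {y | -y ∈ {z | z ∈ U ∧ -z ∈ Poly p}} := by
    ext y
    constructor
    · rintro ⟨⟨h1, _⟩, h3⟩
      refine ⟨h3, ?_⟩
      rw [neg_neg]
      exact h1
    · rintro ⟨h1, h2⟩
      rw [neg_neg] at h2
      exact ⟨⟨h2, fun h4 => hdis y h4 h1⟩, h1⟩
  rw [e4, D3_vol_neg] at s2
  rw [e1] at s3
  rw [e2, e3, D3_vol_neg] at s4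
  have hE : 0 ≤ vol ((Poly p \ U) \ U') := vol_nonneg _
  have hmain' : vol {z | z ∈ U ∧ -z ∈ Poly p} ≤ κ * vol (Poly p ∩ U) := hmain
  have hP : 0 ≤ vol (Poly p ∩ U) := vol_nonneg _
  rw [s1, s2, s3, s4]
  nlinarith [mul_nonneg (sub_nonneg.2 hκ) hE]

end Pool.Agent.H48.OR
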