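import Mathlib

/-!
# Outer reduction for MP_0069fb: definitions

`V3 = ℝ × (ℝ × ℝ)`, first coordinate = height, second = planar coordinate.
-/

set_option autoImplicit false

namespace Pool.Agent.H48.OR

open MeasureTheory Set

/-- three dimensional space; first coordinate is the height, the second the planar coordinate -/
abbrev V3 : Type := ℝ × (ℝ × ℝ)

instance instHaarV3 : (volume : Measure V3).IsAddHaarMeasure := by
  rw [Measure.volume_eq_prod]
  have : (volume : Measure (ℝ × ℝ)).IsAddHaarMeasure := inferInstance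
  exact Measure.prod.instIsAddHaarMeasure volume volume

/-- linear functionals on `V3` -/
abbrev D3 : Type := V3 →L[ℝ] ℝ

/-- the polytope `{x : p_k x ≤ 1 for all k}` -/
def Poly {ι : Type} (p : ι → D3) : Set V3 := {x | ∀ k, p k x ≤ 1}

/-- the part of `K` which is symmetric about `c`: `K ∩ (2c - K)` -/
def Sym (K : Set V3) (c : V3) : Set V3 := {x | x ∈ K ∧ (2 : ℝ) • c - x ∈ K}

/-- volume in `V3` as a real number -/
noncomputable def vol (S : Set V3) : ℝ := (volume S).toReal

/-- area in the plane as a real number -/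
noncomputable def area (S : Set (ℝ × ℝ)) : ℝ := (volume S).toReal

/-- the cone over the facet number `j` -/
def Cone {ι : Type} (p : ι → D3) (j : ι) : Set V3 := {x | ∀ k, p k x ≤ p j x}

/-- the cone over the part of the facet number `j` which lies in `-K` -/
def ConeS {ι : Type} (p : ι → D3) (j : ι) : Set V3 := {x | ∀ k, |p k x| ≤ p j x}

/-- the perturbation of the facet number `j` (and of all its duplicates) -/
noncomputable def pert {ι : Type} (p : ι → D3) (j : ι) (η : D3) (t : ℝ) : ι → D3 :=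
  fun k => open Classical in if p k = p j then p k + t • η else p k

/-- The planar inequality with constant `κ` (`κ = 3` is the sharp one, inequality (C') of the
route).  `F` is a planar convex body, `b k` are finitely many affine functions which are
nonnegative on `F`, `B` is their maximum, `G = {B ≤ 1} ∩ F`.  If `G` and `F` have the same
centroid and `|G| = ρ |F|` with `ρ < 1 / (1 + κ)`, then `∫_G (2B-1)⁻³ ≤ κ |G|`. -/
def PlanarIneq (κ : ℝ) : Prop :=
  ∀ (n : ℕ) (β : Fin n → (ℝ × ℝ) →L[ℝ] ℝ) (γ : Fin n → ℝ) (F : Set (ℝ × ℝ)) (B : ℝ × ℝ → ℝ)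
    (ρ : ℝ),
    Convex ℝ F → IsCompact F → (interior F).Nonempty →
    (∀ k, ∀ z ∈ F, 0 ≤ β k z + γ k) →
    (∀ z, IsGreatest (range fun k => β k z + γ k) (B z)) →
    (∀ z ∈ F, 1 / 2 < B z) →
    0 < ρ → ρ < 1 / (1 + κ) →
    area {z | z ∈ F ∧ B z ≤ 1} = ρ * area F →
    (∫ z in {z | z ∈ F ∧ B z ≤ 1}, z.1) = ρ * ∫ z in F, z.1 →
    (∫ z in {z | z ∈ F ∧ B z ≤ 1}, z.2) = ρ * ∫ z in F, z.2 →
    (∫ z in {z | z ∈ F ∧ B z ≤ 1}, ((2 * B z - 1) ^ 3)⁻¹) ≤
      κ * area {z | z ∈ F ∧ B z ≤ 1}

end Pool.Agent.H48.OR
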