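import Pool.Agent.H48.OR.B4
import Pool.Agent.H48.OR.C4
import Pool.Agent.H48.OR.D2
import Pool.Agent.H48.OR.D3

/-!
# OR-E1: the theorem for polytopes
-/

set_option autoImplicit false

namespace Pool.Agent.H48.OR

open MeasureTheory Set Filter Topology

/-- The theorem for polytopes.
Proof: take the minimiser `p` (`exists_minimiser`), `a = V(L)/V(K)`.  If `a < 2/(1+κ)`, put
`ρ = a/2 < 1/(1+κ)`; for every unpaired `j` (then `p j ≠ 0`), `first_order` gives `hFO` of
`facet_ineq`; `sum_facets` gives `V(K) ≤ (1+κ)/2 V(L)`, i.e. `a ≥ 2/(1+κ)`, a contradiction.  So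
`a ≥ 2/(1+κ)`, and minimality gives the claim for `q`. -/
theorem poly_main {κ : ℝ} (hκ : 1 ≤ κ) (hP : PlanarIneq κ) {N : ℕ} {q : Fin N → D3}
    (hq : Bornology.IsBounded (Poly q)) :
    ∃ c, vol (Poly q) ≤ (1 + κ) / 2 * vol (Sym (Poly q) c) := by
  obtain ⟨p, hb, hopt, hmin⟩ := exists_minimiser ⟨q, hq⟩
  have hK : 0 < vol (Poly p) := vol_poly_pos hb
  have hL : 0 < vol (Sym (Poly p) 0) := vol_sym_zero_pos hb
  have hmain : vol (Poly p) ≤ (1 + κ) / 2 * vol (Sym (Poly p) 0) := by
    by_contra hcon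
    push Not at hcon
    refine absurd (sum_facets hκ hb fun j hj => ?_) (not_le.2 hcon)
    have hj0 : p j ≠ 0 := by
      intro h0
      apply hj j
      rw [h0, neg_zero]
    have hρ1 : vol (Sym (Poly p) 0) / (2 * vol (Poly p)) < 1 / (1 + κ) := by
      rw [div_lt_div_iff₀ (by positivity) (by positivity)]
      nlinarith
    refine facet_ineq hκ hP hb hj0 (ρ := vol (Sym (Poly p) 0) / (2 * vol (Poly p)))
      (by positivity) hρ1 fun η => ?_
    have h1 := first_order hb hopt hmin j hj η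
    rw [div_mul_eq_mul_div, eq_div_iff (by positivity)]
    linarith
  obtain ⟨c, hc⟩ := hmin q hq
  refine ⟨c, ?_⟩
  have h1 : vol (Sym (Poly p) 0) * vol (Poly q)
      ≤ vol (Sym (Poly p) 0) * ((1 + κ) / 2 * vol (Sym (Poly q) c)) := by
    have := mul_le_mul_of_nonneg_left hmain (vol_nonneg (Sym (Poly q) c))
    linarith
  exact le_of_mul_le_mul_left h1 hL

end Pool.Agent.H48.OR
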