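import Pool.Agent.H48.OR.E1

/-!
# OR-E2: general convex bodies by approximation
-/

set_option autoImplicit false

namespace Pool.Agent.H48.OR

open MeasureTheory Set Filter Topology

/-- the first coordinate -/
noncomputable def e2X : D3 := ContinuousLinearMap.fst ℝ ℝ (ℝ × ℝ)

/-- the second coordinate -/
noncomputable def e2Y : D3 :=
  (ContinuousLinearMap.fst ℝ ℝ ℝ).comp (ContinuousLinearMap.snd ℝ ℝ (ℝ × ℝ))

/-- the third coordinate -/
noncomputable def e2Z : D3 :=
  (ContinuousLinearMap.snd ℝ ℝ ℝ).comp (ContinuousLinearMap.snd ℝ ℝ (ℝ × ℝ))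

/-- six functionals which bound a cube -/
noncomputable def e2six (R : ℝ) : ℕ → D3
  | 0 => R⁻¹ • e2X
  | 1 => -(R⁻¹ • e2X)
  | 2 => R⁻¹ • e2Y
  | 3 => -(R⁻¹ • e2Y)
  | 4 => R⁻¹ • e2Z
  | 5 => -(R⁻¹ • e2Z)
  | _ => 0

theorem e2six_le {R : ℝ} (hR : 0 < R) {y : V3} (hy : ‖y‖ ≤ R) (k : ℕ) : e2six R k y ≤ 1 := by
  have h1 : |y.1| ≤ R := (norm_fst_le y).trans hy
  have h2 : |y.2.1| ≤ R := ((norm_fst_le y.2).trans (norm_snd_le y)).trans hy
  have h3 : |y.2.2| ≤ R := ((norm_snd_le y.2).trans (norm_snd_le y)).trans hy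
  have key : ∀ t : ℝ, |t| ≤ R → R⁻¹ * t ≤ 1 ∧ -(R⁻¹ * t) ≤ 1 := by
    intro t ht
    rw [abs_le] at ht
    constructor
    · rw [inv_mul_le_iff₀ hR]; linarith
    · rw [← mul_neg, inv_mul_le_iff₀ hR]; linarith
  rcases k with _ | _ | _ | _ | _ | _ | k
  · simpa [e2six, e2X] using (key _ h1).1
  · simpa [e2six, e2X] using (key _ h1).2
  · simpa [e2six, e2Y] using (key _ h2).1
  · simpa [e2six, e2Y] using (key _ h2).2
  · simpa [e2six, e2Z] using (key _ h3).1
  · simpa [e2six, e2Z] using (key _ h3).2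
  · simp [e2six]

theorem e2six_bound {R : ℝ} (hR : 0 < R) {y : V3} (hy : ∀ k < 6, e2six R k y ≤ 1) : ‖y‖ ≤ R := by
  have key : ∀ t : ℝ, R⁻¹ * t ≤ 1 → -(R⁻¹ * t) ≤ 1 → |t| ≤ R := by
    intro t h1 h2
    rw [← mul_neg, inv_mul_le_iff₀ hR] at h2
    rw [inv_mul_le_iff₀ hR] at h1
    rw [abs_le]
    constructor <;> linarith
  have h0 := hy 0 (by norm_num)
  have h1 := hy 1 (by norm_num)
  have h2 := hy 2 (by norm_num)
  have h3 := hy 3 (by norm_num)
  have h4 := hy 4 (by norm_num)
  have h5 := hy 5 (by norm_num)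
  rw [Prod.norm_def, Prod.norm_def]
  refine max_le ?_ (max_le ?_ ?_)
  · exact key _ (by simpa [e2six, e2X] using h0) (by simpa [e2six, e2X] using h1)
  · exact key _ (by simpa [e2six, e2Y] using h2) (by simpa [e2six, e2Y] using h3)
  · exact key _ (by simpa [e2six, e2Z] using h4) (by simpa [e2six, e2Z] using h5)

/-- A compact convex set with `0` in its interior is the intersection of a decreasing sequence of
bounded polytopes `Poly (q n)`.
Proof: for `x ∉ K` separate strictly (`geometric_hahn_banach_closed_point`): `l y < 1 < l x` for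
`y ∈ K` after scaling (`0` interior gives a positive separating level); the open sets `{l > 1}`
cover the complement of `K`; Lindelöf (`TopologicalSpace.isOpen_iUnion_countable` or
`HereditarilyLindelof`) gives a countable subfamily `l_n`; take `Poly (q n)` with the first `n` of
them and six more functionals `± x_i / R` which bound a cube containing `K`. -/
theorem exists_polys {K : Set V3} (hK : Convex ℝ K) (hKc : IsCompact K)
    (h0 : (0 : V3) ∈ interior K) :
    ∃ (N : ℕ → ℕ) (q : (n : ℕ) → Fin (N n) → D3),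
      (∀ n, Bornology.IsBounded (Poly (q n))) ∧ (∀ n, Poly (q (n + 1)) ⊆ Poly (q n)) ∧
      (⋂ n, Poly (q n)) = K := by
  have h0K : (0 : V3) ∈ K := interior_subset h0
  -- separating functionals
  set S : Set D3 := {l | ∀ y ∈ K, l y ≤ 1} with hS
  have hsep : ∀ x, x ∉ K → ∃ l ∈ S, 1 < l x := by
    intro x hx
    obtain ⟨f, u, hf, hfx⟩ := geometric_hahn_banach_closed_point hK hKc.isClosed hx
    have hu : 0 < u := by simpa using hf 0 h0K
    refine ⟨u⁻¹ • f, fun y hy => ?_, ?_⟩
    · have := hf y hy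
      rw [smul_apply, smul_eq_mul, inv_mul_le_iff₀ hu]
      linarith
    · rw [smul_apply, smul_eq_mul, lt_inv_mul_iff₀ hu]
      linarith
  obtain ⟨T, hTS, hTc, hTU⟩ := TopologicalSpace.isOpen_biUnion_countable S
    (fun l => {x : V3 | 1 < l x}) (fun l _ => isOpen_lt continuous_const l.continuous)
  obtain ⟨f, hf⟩ := (hTc.insert (0 : D3)).exists_eq_range (insert_nonempty _ _)
  have hfS : ∀ n, f n ∈ S := by
    intro n
    have h1 : f n ∈ insert (0 : D3) T := by rw [hf]; exact mem_range_self n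
    rcases h1 with h1 | h1
    · rw [h1]
      intro y _
      simp
    · exact hTS h1
  -- a bound
  obtain ⟨R, hR0, hR⟩ : ∃ R : ℝ, 0 < R ∧ ∀ y ∈ K, ‖y‖ ≤ R := by
    obtain ⟨R, hR⟩ := hKc.isBounded.exists_norm_le
    exact ⟨max R 1, by positivity, fun y hy => (hR y hy).trans (le_max_left _ _)⟩
  set g : ℕ → D3 := fun k => if k < 6 then e2six R k else f (k - 6) with hg
  refine ⟨fun n => 6 + n, fun n k => g k, fun n => ?_, fun n x hx k => ?_, ?_⟩
  · rw [Metric.isBounded_iff_subset_closedBall (0 : V3)]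
    refine ⟨R, fun y hy => ?_⟩
    rw [mem_closedBall_zero_iff]
    apply e2six_bound hR0
    intro k hk
    have := hy ⟨k, by change k < 6 + n; omega⟩
    simpa [hg, hk] using this
  · exact hx ⟨k, by have h : (k : ℕ) < 6 + n := k.2; change (k : ℕ) < 6 + (n + 1); omega⟩
  · ext x
    rw [mem_iInter]
    constructor
    · intro hx
      by_contra hxK
      obtain ⟨l, hl, hlx⟩ := hsep x hxK
      have h1 : x ∈ ⋃ i ∈ S, {x : V3 | 1 < i x} := mem_biUnion hl hlx
      rw [← hTU] at h1
      obtain ⟨l', hl', hlx'⟩ := mem_iUnion₂.1 h1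
      have h2 : l' ∈ range f := by rw [← hf]; exact mem_insert_of_mem _ hl'
      obtain ⟨k, rfl⟩ := h2
      have h3 := hx (k + 1) ⟨6 + k, by change 6 + k < 6 + (k + 1); omega⟩
      change g (6 + k) x ≤ 1 at h3
      have h4 : g (6 + k) = f k := by simp [hg]
      rw [h4] at h3
      exact absurd h3 (not_le.2 hlx')
    · intro hx n k
      change g k x ≤ 1
      by_cases hk : (k : ℕ) < 6
      · have : g k = e2six R k := by simp [hg, hk]
        rw [this]
        exact e2six_le hR0 (hR x hx) _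
      · have : g k = f (k - 6) := by simp [hg, hk]
        rw [this]
        exact hfS _ x hx

/-- the theorem for bodies with `0` in the interior -/
theorem e2_body_zero {κ : ℝ} (hκ : 1 ≤ κ) (hP : PlanarIneq κ) {K : Set V3} (hK : Convex ℝ K)
    (hKc : IsCompact K) (h0 : (0 : V3) ∈ interior K) :
    ∃ c, vol K ≤ (1 + κ) / 2 * vol (Sym K c) := by
  obtain ⟨N, q, hb, hmono, hinter⟩ := exists_polys hK hKc h0
  have hanti : Antitone fun n => Poly (q n) := antitone_nat_of_succ_le hmono
  have hsub : ∀ n, K ⊆ Poly (q n) := fun n => by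
    rw [← hinter]; exact iInter_subset _ n
  have hex : ∀ n, ∃ c, vol (Poly (q n)) ≤ (1 + κ) / 2 * vol (Sym (Poly (q n)) c) :=
    fun n => poly_main hκ hP (hb n)
  choose c hc using hex
  have hcmem : ∀ n, c n ∈ Poly (q 0) := by
    intro n
    have h1 : 0 < vol (Poly (q n)) := vol_poly_pos (hb n)
    have h2 : 0 < vol (Sym (Poly (q n)) (c n)) := by
      have := hc n
      by_contra hcon
      push Not at hcon
      have h3 : (1 + κ) / 2 * vol (Sym (Poly (q n)) (c n)) ≤ 0 :=
        mul_nonpos_of_nonneg_of_nonpos (by linarith) hcon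
      linarith
    have h3 : (Sym (Poly (q n)) (c n)).Nonempty := by
      rw [nonempty_iff_ne_empty]
      intro he
      rw [he] at h2
      simp [vol] at h2
    obtain ⟨x, hx1, hx2⟩ := h3
    apply hanti (Nat.zero_le n)
    have h4 := (convex_poly (q n)) hx1 hx2 (a := 1 / 2) (b := 1 / 2) (by norm_num) (by norm_num)
      (by norm_num)
    have h5 : (1 / 2 : ℝ) • x + (1 / 2 : ℝ) • ((2 : ℝ) • c n - x) = c n := by
      rw [← smul_add, add_sub_cancel, smul_smul]
      norm_num
    rwa [h5] at h4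
  obtain ⟨c0, hc0, φ, hφ, hlim⟩ := (isCompact_poly (hb 0)).tendsto_subseq hcmem
  refine ⟨c0, ?_⟩
  -- for fixed m
  have hm : ∀ m, vol K ≤ (1 + κ) / 2 * vol (Sym (Poly (q m)) c0) := by
    intro m
    obtain ⟨R, hR⟩ := (Metric.isBounded_iff_subset_closedBall (0 : V3)).1 (hb m)
    have hT : Tendsto (fun n => vol (Sym (Poly (q m)) (c (φ n)))) atTop
        (𝓝 (vol (Sym (Poly (q m)) c0))) :=
      tendsto_vol_sym (p := fun _ => q m) (p0 := q m) tendsto_const_nhds hlim
        (Eventually.of_forall fun _ => hR)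
    have hT2 := hT.const_mul ((1 + κ) / 2)
    apply ge_of_tendsto hT2
    filter_upwards [eventually_ge_atTop m] with n hn
    have hmn : m ≤ φ n := hn.trans (hφ.id_le n)
    have h1 : vol K ≤ vol (Poly (q (φ n))) := vol_mono (hsub _) (hb _)
    have h2 : vol (Sym (Poly (q (φ n))) (c (φ n))) ≤ vol (Sym (Poly (q m)) (c (φ n))) := by
      apply vol_mono _ ((hb m).subset (sym_subset _ _))
      intro x hx
      exact ⟨hanti hmn hx.1, hanti hmn hx.2⟩
    calc vol K ≤ vol (Poly (q (φ n))) := h1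
      _ ≤ (1 + κ) / 2 * vol (Sym (Poly (q (φ n))) (c (φ n))) := hc _
      _ ≤ (1 + κ) / 2 * vol (Sym (Poly (q m)) (c (φ n))) :=
        mul_le_mul_of_nonneg_left h2 (by linarith)
  -- m to infinity
  have hinter2 : (⋂ m, Sym (Poly (q m)) c0) = Sym K c0 := by
    ext x
    rw [mem_iInter]
    constructor
    · intro hx
      constructor
      · rw [← hinter, mem_iInter]; exact fun n => (hx n).1
      · rw [← hinter, mem_iInter]; exact fun n => (hx n).2
    · rintro ⟨h1, h2⟩ n
      exact ⟨hsub n h1, hsub n h2⟩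
  have hT3 : Tendsto (fun m => volume (Sym (Poly (q m)) c0)) atTop
      (𝓝 (volume (⋂ m, Sym (Poly (q m)) c0))) := by
    apply tendsto_measure_iInter_atTop
    · intro m
      exact (isClosed_sym (isClosed_poly _) _).measurableSet.nullMeasurableSet
    · intro a b hab x hx
      exact ⟨hanti hab hx.1, hanti hab hx.2⟩
    · exact ⟨0, ((hb 0).subset (sym_subset _ _)).measure_lt_top.ne⟩
  rw [hinter2] at hT3
  have hT4 : Tendsto (fun m => vol (Sym (Poly (q m)) c0)) atTop (𝓝 (vol (Sym K c0))) :=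
    (ENNReal.tendsto_toReal (hKc.isBounded.subset (sym_subset _ _)).measure_lt_top.ne).comp hT3
  exact ge_of_tendsto (hT4.const_mul ((1 + κ) / 2)) (Eventually.of_forall hm)

/-- The theorem for convex bodies.
Proof: translate so that `0` is interior.  With `exists_polys` and `poly_main` choose centres `c n`
for `Poly (q n)`; they lie in the compact `Poly (q 0)` (a centre of a nonempty symmetric part lies
in the body), take a subsequence converging to `c`.  For fixed `m` and `n ≥ m`,
`vol K ≤ vol (Poly (q n)) ≤ (1+κ)/2 vol (Sym (Poly (q m)) (c n))`, which tends to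
`(1+κ)/2 vol (Sym (Poly (q m)) c)` by `tendsto_vol_sym`.  Finally `Sym (Poly (q m)) c` decreases to
`Sym K c` (continuity of the measure from above). -/
theorem body_main {κ : ℝ} (hκ : 1 ≤ κ) (hP : PlanarIneq κ) {K : Set V3} (hK : Convex ℝ K)
    (hKc : IsCompact K) (hKi : (interior K).Nonempty) :
    ∃ c, vol K ≤ (1 + κ) / 2 * vol (Sym K c) := by
  obtain ⟨x0, hx0⟩ := hKi
  set K' : Set V3 := (fun x => -x0 + x) '' K with hK'
  have hK'v : Convex ℝ K' := hK.translate (-x0)
  have hK'c : IsCompact K' := hKc.image (by fun_prop)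
  have hmem : ∀ x, x ∈ K' ↔ x0 + x ∈ K := by
    intro x
    rw [hK', image_add_left, mem_preimage, neg_neg]
  have h0 : (0 : V3) ∈ interior K' := by
    have h1 : interior K' = (fun x => -x0 + x) '' interior K :=
      ((Homeomorph.addLeft (-x0)).image_interior K).symm
    rw [h1]
    exact ⟨x0, hx0, by simp⟩
  obtain ⟨c, hc⟩ := e2_body_zero hκ hP hK'v hK'c h0
  refine ⟨x0 + c, ?_⟩
  have h1 : vol K' = vol K := vol_translate K (-x0)
  have h2 : vol (Sym K (x0 + c)) = vol (Sym K' c) := by
    rw [← vol_translate (Sym K' c) x0]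
    congr 1
    ext y
    rw [image_add_left, mem_preimage]
    unfold Sym
    rw [mem_ofPred_eq, mem_ofPred_eq, hmem, hmem, add_neg_cancel_left]
    have : x0 + ((2 : ℝ) • c - (-x0 + y)) = (2 : ℝ) • (x0 + c) - y := by
      rw [smul_add, two_smul ℝ x0]
      abel
    rw [this]
  rw [h2, ← h1]
  exact hc

end Pool.Agent.H48.OR
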