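import Pool.Agent.H48.OR.E2

/-!
# OR-E3: transport to `EuclideanSpace ℝ (Fin 3)`
-/

set_option autoImplicit false

namespace Pool.Agent.H48.OR

open MeasureTheory Set Filter Topology

/-- A linear equivalence with `V3` which multiplies volumes by a constant (Haar measures are
proportional). -/
theorem exists_euclid_equiv :
    ∃ (T : EuclideanSpace ℝ (Fin 3) ≃L[ℝ] V3) (c : ENNReal), c ≠ 0 ∧ c ≠ ⊤ ∧
      ∀ S : Set (EuclideanSpace ℝ (Fin 3)), volume S = c * volume (T '' S) := by
  have hfr : Module.finrank ℝ (EuclideanSpace ℝ (Fin 3)) = Module.finrank ℝ V3 := by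
    simp [V3]
  let T : EuclideanSpace ℝ (Fin 3) ≃L[ℝ] V3 := ContinuousLinearEquiv.ofFinrankEq hfr
  let μ : Measure (EuclideanSpace ℝ (Fin 3)) := Measure.map T.symm (volume : Measure V3)
  have hμ : μ.IsAddHaarMeasure := T.symm.isAddHaarMeasure_map (volume : Measure V3)
  have h1 : (volume : Measure (EuclideanSpace ℝ (Fin 3))) =
      (volume : Measure (EuclideanSpace ℝ (Fin 3))).addHaarScalarFactor μ • μ :=
    Measure.isAddLeftInvariant_eq_smul _ _
  refine ⟨T, ((volume : Measure (EuclideanSpace ℝ (Fin 3))).addHaarScalarFactor μ : ENNReal),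
    ?_, ENNReal.coe_ne_top, fun S => ?_⟩
  · have := Measure.addHaarScalarFactor_pos_of_isAddHaarMeasure
      (volume : Measure (EuclideanSpace ℝ (Fin 3))) μ
    exact ENNReal.coe_ne_zero.2 this.ne'
  · have h2 : μ S = volume (T '' S) := by
      have h3 : μ S = volume (T.symm ⁻¹' S) :=
        T.symm.toHomeomorph.toMeasurableEquiv.map_apply S
      rw [h3]
      congr 1
      ext y
      constructor
      · intro hy
        exact ⟨T.symm y, hy, T.apply_symm_apply y⟩
      · rintro ⟨x, hx, rfl⟩
        show T.symm (T x) ∈ S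
        rwa [T.symm_apply_apply]
    rw [← h2]
    nth_rewrite 1 [h1]
    rfl

/-- The first part of the statement `S12659` with the constant `(1+κ)/2` instead of `2`
(`κ = 3` gives `2`). -/
theorem euclid_main {κ : ℝ} (hκ : 1 ≤ κ) (hP : PlanarIneq κ)
    (K : Set (EuclideanSpace ℝ (Fin 3))) (hKc : IsCompact K) (hK : Convex ℝ K)
    (hKi : (interior K).Nonempty) :
    ∃ C : Set (EuclideanSpace ℝ (Fin 3)), C ⊆ K ∧ Convex ℝ C ∧ IsCompact C ∧
      (interior C).Nonempty ∧
      (∃ c : EuclideanSpace ℝ (Fin 3), ∀ x ∈ C, (2 : ℝ) • c - x ∈ C) ∧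
      MeasureTheory.volume K ≤ ENNReal.ofReal ((1 + κ) / 2) * MeasureTheory.volume C := by
  obtain ⟨T, a, ha0, hat, hT⟩ := exists_euclid_equiv
  have hK1 : Convex ℝ (T '' K) := hK.linear_image T.toLinearMap
  have hK2 : IsCompact (T '' K) := hKc.image T.continuous
  have hK3 : (interior (T '' K)).Nonempty := by
    have h := T.toHomeomorph.image_interior K
    have h' : T '' interior K = interior (T '' K) := h
    rw [← h']
    exact hKi.image _
  obtain ⟨c, hc⟩ := body_main hκ hP hK1 hK2 hK3
  set S : Set V3 := Sym (T '' K) c with hS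
  have hSc : IsCompact S := isCompact_sym hK2 c
  have hSx : Convex ℝ S := convex_sym hK1 c
  have hvK : 0 < vol (T '' K) := vol_pos_of_interior hK2.isBounded hK3
  have hκ' : 0 < (1 + κ) / 2 := by linarith
  have hvS : 0 < vol S := by
    by_contra h
    have h0 : vol S = 0 := le_antisymm (not_lt.1 h) (vol_nonneg S)
    rw [h0, mul_zero] at hc
    linarith
  have hSi : (interior S).Nonempty := by
    by_contra h
    rw [not_nonempty_iff_eq_empty] at h
    have h1 : volume (frontier S) = 0 := hSx.addHaar_frontier volume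
    have h2 : frontier S = S := by
      rw [frontier, h, sdiff_empty, hSc.isClosed.closure_eq]
    rw [h2] at h1
    have : vol S = 0 := by unfold vol; rw [h1]; rfl
    linarith
  have hTS : T '' (T.symm '' S) = S := by
    rw [← image_comp]
    have : (T ∘ T.symm : V3 → V3) = id := by
      funext x; simp
    rw [this, image_id]
  refine ⟨T.symm '' S, ?_, hSx.linear_image T.symm.toLinearMap, hSc.image T.symm.continuous,
    ?_, ⟨T.symm c, ?_⟩, ?_⟩
  · rintro _ ⟨y, hy, rfl⟩
    obtain ⟨x, hx, hxy⟩ := (sym_subset _ _ hy : y ∈ T '' K)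
    rw [← hxy, T.symm_apply_apply]
    exact hx
  · have h : T.symm '' interior S = interior (T.symm '' S) := T.symm.toHomeomorph.image_interior S
    rw [← h]
    exact hSi.image _
  · rintro _ ⟨y, hy, rfl⟩
    refine ⟨(2 : ℝ) • c - y, sym_refl hy, ?_⟩
    rw [map_sub, map_smul]
  · have h1 : volume K = a * volume (T '' K) := hT K
    have h2 : volume (T.symm '' S) = a * volume S := by rw [hT, hTS]
    rw [h1, h2]
    have hKt : volume (T '' K) ≠ ⊤ := hK2.measure_lt_top.ne
    have hSt : volume S ≠ ⊤ := hSc.measure_lt_top.ne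
    have h3 : volume (T '' K) ≤ ENNReal.ofReal ((1 + κ) / 2) * volume S := by
      have h4 : volume (T '' K) = ENNReal.ofReal (vol (T '' K)) := (ENNReal.ofReal_toReal hKt).symm
      have h5 : volume S = ENNReal.ofReal (vol S) := (ENNReal.ofReal_toReal hSt).symm
      rw [h4, h5, ← ENNReal.ofReal_mul hκ'.le]
      exact ENNReal.ofReal_le_ofReal hc
    calc a * volume (T '' K) ≤ a * (ENNReal.ofReal ((1 + κ) / 2) * volume S) := by gcongr
      _ = ENNReal.ofReal ((1 + κ) / 2) * (a * volume S) := by ring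

end Pool.Agent.H48.OR
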