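import Pool.Agent.H48.OR.A3

/-!
# OR-F1: symmetric subsets of a tetrahedron
-/

set_option autoImplicit false

namespace Pool.Agent.H48.OR

open MeasureTheory Set
open scoped Pointwise

/-- the standard tetrahedron in `V3` -/
def Tet : Set V3 := {x | 0 ≤ x.1 ∧ 0 ≤ x.2.1 ∧ 0 ≤ x.2.2 ∧ x.1 + x.2.1 + x.2.2 ≤ 1}

theorem F1_isClosed_tet : IsClosed Tet := by
  have h : Tet = {x : V3 | 0 ≤ x.1} ∩ ({x : V3 | 0 ≤ x.2.1} ∩ ({x : V3 | 0 ≤ x.2.2} ∩
      {x : V3 | x.1 + x.2.1 + x.2.2 ≤ 1})) := rfl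
  rw [h]
  exact (isClosed_le (by fun_prop) (by fun_prop)).inter
    ((isClosed_le (by fun_prop) (by fun_prop)).inter
      ((isClosed_le (by fun_prop) (by fun_prop)).inter
        (isClosed_le (by fun_prop) (by fun_prop))))

theorem F1_bounded_tet : Bornology.IsBounded Tet := by
  refine (Metric.isBounded_closedBall (x := (0 : V3)) (r := 1)).subset fun x hx => ?_
  obtain ⟨h1, h2, h3, h4⟩ := hx
  rw [mem_closedBall_zero_iff]
  refine norm_prod_le_iff.2 ⟨?_, norm_prod_le_iff.2 ⟨?_, ?_⟩⟩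
  · rw [Real.norm_eq_abs, abs_of_nonneg h1]; linarith
  · rw [Real.norm_eq_abs, abs_of_nonneg h2]; linarith
  · rw [Real.norm_eq_abs, abs_of_nonneg h3]; linarith

theorem F1_convex_tet : Convex ℝ Tet := by
  intro x hx y hy a b ha hb hab
  obtain ⟨h1, h2, h3, h4⟩ := hx
  obtain ⟨k1, k2, k3, k4⟩ := hy
  refine ⟨?_, ?_, ?_, ?_⟩
  · simp only [Prod.fst_add, Prod.smul_fst, smul_eq_mul]; positivity
  · simp only [Prod.fst_add, Prod.snd_add, Prod.smul_fst, Prod.smul_snd, smul_eq_mul]; positivity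
  · simp only [Prod.fst_add, Prod.snd_add, Prod.smul_fst, Prod.smul_snd, smul_eq_mul]; positivity
  · simp only [Prod.fst_add, Prod.snd_add, Prod.smul_fst, Prod.smul_snd, smul_eq_mul]
    have e1 := mul_le_mul_of_nonneg_left h4 ha
    have e2 := mul_le_mul_of_nonneg_left k4 hb
    nlinarith

theorem F1_isCompact_tet : IsCompact Tet :=
  Metric.isCompact_of_isClosed_isBounded F1_isClosed_tet F1_bounded_tet

theorem F1_vol_tet_pos : 0 < vol Tet := by
  refine vol_pos_of_interior F1_bounded_tet ⟨(1 / 4, 1 / 4, 1 / 4), ?_⟩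
  rw [mem_interior]
  refine ⟨{x : V3 | 0 < x.1} ∩ ({x : V3 | 0 < x.2.1} ∩ ({x : V3 | 0 < x.2.2} ∩
      {x : V3 | x.1 + x.2.1 + x.2.2 < 1})), ?_, ?_, ?_⟩
  · rintro x ⟨h1, h2, h3, h4⟩
    simp only [mem_ofPred_eq] at h1 h2 h3 h4
    exact ⟨h1.le, h2.le, h3.le, h4.le⟩
  · exact (isOpen_lt (by fun_prop) (by fun_prop)).inter
      ((isOpen_lt (by fun_prop) (by fun_prop)).inter
        ((isOpen_lt (by fun_prop) (by fun_prop)).inter
          (isOpen_lt (by fun_prop) (by fun_prop))))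
  · refine ⟨?_, ?_, ?_, ?_⟩ <;> simp only [mem_ofPred_eq] <;> norm_num

/-- the small copy of the tetrahedron at the vertex `v` of ratio `r` -/
theorem F1_vol_copy (v : V3) (r : ℝ) (hr : 0 ≤ r) :
    vol ((fun x => v + x) '' (r • Tet)) = r ^ 3 * vol Tet := by
  rw [vol_translate, vol_smul, abs_of_nonneg hr]

theorem F1_copy_closed (v : V3) (r : ℝ) : IsClosed ((fun x => v + x) '' (r • Tet)) := by
  have h : IsCompact (r • Tet) := F1_isCompact_tet.smul r
  exact (h.image (by fun_prop)).isClosed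

/-- disjoint closed subsets of the tetrahedron -/
theorem F1_add {A B : Set V3} (hAB : Disjoint A B) (hB : MeasurableSet B)
    (hA : Bornology.IsBounded A) (hB' : Bornology.IsBounded B) : vol (A ∪ B) = vol A + vol B := by
  unfold vol
  rw [measure_union hAB hB, ENNReal.toReal_add hA.measure_lt_top.ne hB'.measure_lt_top.ne]

theorem F1_copy_mem {v : V3} {r : ℝ} {x : V3} (hx : x ∈ (fun x => v + x) '' (r • Tet)) :
    ∃ y ∈ Tet, x = v + r • y := by
  obtain ⟨z, ⟨y, hy, rfl⟩, rfl⟩ := hx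
  exact ⟨y, hy, rfl⟩

theorem F1_vertex {r : ℝ} (hr0 : 0 ≤ r) (hr1 : r < 1 / 2) :
    vol (Sym Tet (1 / 4, 1 / 4, 1 / 4)) + 4 * (r ^ 3 * vol Tet) ≤ vol Tet := by
  set S := Sym Tet (1 / 4, 1 / 4, 1 / 4) with hS
  set T0 := (fun x => ((0, 0, 0) : V3) + x) '' (r • Tet) with hT0
  set T1 := (fun x => ((1 - r, 0, 0) : V3) + x) '' (r • Tet) with hT1
  set T2 := (fun x => ((0, 1 - r, 0) : V3) + x) '' (r • Tet) with hT2
  set T3 := (fun x => ((0, 0, 1 - r) : V3) + x) '' (r • Tet) with hT3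
  have m0 : ∀ x ∈ T0, x ∈ Tet ∧ x.1 + x.2.1 + x.2.2 < 1 / 2 := by
    intro x hx
    obtain ⟨y, ⟨h1, h2, h3, h4⟩, rfl⟩ := F1_copy_mem hx
    simp only [Tet, mem_ofPred_eq, Prod.fst_add, Prod.snd_add, Prod.smul_fst, Prod.smul_snd,
      smul_eq_mul]
    have e1 := mul_nonneg hr0 h1
    have e2 := mul_nonneg hr0 h2
    have e3 := mul_nonneg hr0 h3
    have e4 := mul_le_mul_of_nonneg_left h4 hr0
    refine ⟨⟨?_, ?_, ?_, ?_⟩, ?_⟩ <;> linarith
  have m1 : ∀ x ∈ T1, x ∈ Tet ∧ 1 / 2 < x.1 := by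
    intro x hx
    obtain ⟨y, ⟨h1, h2, h3, h4⟩, rfl⟩ := F1_copy_mem hx
    simp only [Tet, mem_ofPred_eq, Prod.fst_add, Prod.snd_add, Prod.smul_fst, Prod.smul_snd,
      smul_eq_mul]
    have e1 := mul_nonneg hr0 h1
    have e2 := mul_nonneg hr0 h2
    have e3 := mul_nonneg hr0 h3
    have e4 := mul_le_mul_of_nonneg_left h4 hr0
    refine ⟨⟨?_, ?_, ?_, ?_⟩, ?_⟩ <;> linarith
  have m2 : ∀ x ∈ T2, x ∈ Tet ∧ 1 / 2 < x.2.1 := by
    intro x hx
    obtain ⟨y, ⟨h1, h2, h3, h4⟩, rfl⟩ := F1_copy_mem hx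
    simp only [Tet, mem_ofPred_eq, Prod.fst_add, Prod.snd_add, Prod.smul_fst, Prod.smul_snd,
      smul_eq_mul]
    have e1 := mul_nonneg hr0 h1
    have e2 := mul_nonneg hr0 h2
    have e3 := mul_nonneg hr0 h3
    have e4 := mul_le_mul_of_nonneg_left h4 hr0
    refine ⟨⟨?_, ?_, ?_, ?_⟩, ?_⟩ <;> linarith
  have m3 : ∀ x ∈ T3, x ∈ Tet ∧ 1 / 2 < x.2.2 := by
    intro x hx
    obtain ⟨y, ⟨h1, h2, h3, h4⟩, rfl⟩ := F1_copy_mem hx
    simp only [Tet, mem_ofPred_eq, Prod.fst_add, Prod.snd_add, Prod.smul_fst, Prod.smul_snd,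
      smul_eq_mul]
    have e1 := mul_nonneg hr0 h1
    have e2 := mul_nonneg hr0 h2
    have e3 := mul_nonneg hr0 h3
    have e4 := mul_le_mul_of_nonneg_left h4 hr0
    refine ⟨⟨?_, ?_, ?_, ?_⟩, ?_⟩ <;> linarith
  have mS : ∀ x ∈ S, x ∈ Tet ∧ x.1 ≤ 1 / 2 ∧ x.2.1 ≤ 1 / 2 ∧ x.2.2 ≤ 1 / 2 ∧
      1 / 2 ≤ x.1 + x.2.1 + x.2.2 := by
    rintro x ⟨h1, h2⟩
    obtain ⟨k1, k2, k3, k4⟩ := h2
    simp only [Prod.fst_sub, Prod.snd_sub, Prod.smul_fst, Prod.smul_snd, smul_eq_mul]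
      at k1 k2 k3 k4
    refine ⟨h1, ?_, ?_, ?_, ?_⟩ <;> linarith
  have bT : ∀ {A : Set V3}, A ⊆ Tet → Bornology.IsBounded A := fun h => F1_bounded_tet.subset h
  have sS : S ⊆ Tet := fun x hx => (mS x hx).1
  have s0 : T0 ⊆ Tet := fun x hx => (m0 x hx).1
  have s1 : T1 ⊆ Tet := fun x hx => (m1 x hx).1
  have s2 : T2 ⊆ Tet := fun x hx => (m2 x hx).1
  have s3 : T3 ⊆ Tet := fun x hx => (m3 x hx).1
  have e0 : vol (S ∪ T0) = vol S + vol T0 := by
    refine F1_add ?_ (F1_copy_closed _ _).measurableSet (bT sS) (bT s0)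
    rw [Set.disjoint_left]
    intro x hx hx0
    have a1 := mS x hx
    have a2 := m0 x hx0
    linarith [a1.2.2.2.2, a2.2]
  have e1 : vol (S ∪ T0 ∪ T1) = vol (S ∪ T0) + vol T1 := by
    refine F1_add ?_ (F1_copy_closed _ _).measurableSet (bT (union_subset sS s0)) (bT s1)
    rw [Set.disjoint_left]
    intro x hx hx1
    obtain ⟨⟨b1, b2, b3, b4⟩, b5⟩ := m1 x hx1
    rcases hx with hx | hx
    · obtain ⟨⟨c1, c2, c3, c4⟩, c5, c6, c7, c8⟩ := mS x hx
      linarith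
    · obtain ⟨⟨c1, c2, c3, c4⟩, c5⟩ := m0 x hx
      linarith
  have e2 : vol (S ∪ T0 ∪ T1 ∪ T2) = vol (S ∪ T0 ∪ T1) + vol T2 := by
    refine F1_add ?_ (F1_copy_closed _ _).measurableSet
      (bT (union_subset (union_subset sS s0) s1)) (bT s2)
    rw [Set.disjoint_left]
    intro x hx hx1
    obtain ⟨⟨b1, b2, b3, b4⟩, b5⟩ := m2 x hx1
    rcases hx with (hx | hx) | hx
    · obtain ⟨⟨c1, c2, c3, c4⟩, c5, c6, c7, c8⟩ := mS x hx
      linarith
    · obtain ⟨⟨c1, c2, c3, c4⟩, c5⟩ := m0 x hx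
      linarith
    · obtain ⟨⟨c1, c2, c3, c4⟩, c5⟩ := m1 x hx
      linarith
  have e3 : vol (S ∪ T0 ∪ T1 ∪ T2 ∪ T3) = vol (S ∪ T0 ∪ T1 ∪ T2) + vol T3 := by
    refine F1_add ?_ (F1_copy_closed _ _).measurableSet
      (bT (union_subset (union_subset (union_subset sS s0) s1) s2)) (bT s3)
    rw [Set.disjoint_left]
    intro x hx hx1
    obtain ⟨⟨b1, b2, b3, b4⟩, b5⟩ := m3 x hx1
    rcases hx with ((hx | hx) | hx) | hx
    · obtain ⟨⟨c1, c2, c3, c4⟩, c5, c6, c7, c8⟩ := mS x hx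
      linarith
    · obtain ⟨⟨c1, c2, c3, c4⟩, c5⟩ := m0 x hx
      linarith
    · obtain ⟨⟨c1, c2, c3, c4⟩, c5⟩ := m1 x hx
      linarith
    · obtain ⟨⟨c1, c2, c3, c4⟩, c5⟩ := m2 x hx
      linarith
  have hle : vol (S ∪ T0 ∪ T1 ∪ T2 ∪ T3) ≤ vol Tet :=
    vol_mono (union_subset (union_subset (union_subset (union_subset sS s0) s1) s2) s3)
      F1_bounded_tet
  have v0 : vol T0 = r ^ 3 * vol Tet := F1_vol_copy _ _ hr0
  have v1 : vol T1 = r ^ 3 * vol Tet := F1_vol_copy _ _ hr0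
  have v2 : vol T2 = r ^ 3 * vol Tet := F1_vol_copy _ _ hr0
  have v3 : vol T3 = r ^ 3 * vol Tet := F1_vol_copy _ _ hr0
  rw [e3, e2, e1, e0, v0, v1, v2, v3] at hle
  linarith

/-- The symmetric part of the tetrahedron about its centroid has at most half the volume:
`Tet` contains, besides `Sym Tet (1/4,1/4,1/4) = {all barycentric coordinates ≤ 1/2}`, the four
pairwise disjoint sets `{barycentric coordinate i > 1/2}`, each of volume `vol Tet / 8`
(homothetic copies of ratio `1/2`, up to a null set; `vol_smul`, `vol_translate`). -/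
theorem tet_centroid : 2 * vol (Sym Tet (1 / 4, 1 / 4, 1 / 4)) ≤ vol Tet := by
  have hlim : Filter.Tendsto (fun r : ℝ => vol (Sym Tet (1 / 4, 1 / 4, 1 / 4)) +
      4 * (r ^ 3 * vol Tet)) (nhdsWithin (1 / 2 : ℝ) (Set.Iio (1 / 2)))
      (nhds (vol (Sym Tet (1 / 4, 1 / 4, 1 / 4)) + 4 * ((1 / 2 : ℝ) ^ 3 * vol Tet))) := by
    apply Filter.Tendsto.mono_left _ nhdsWithin_le_nhds
    apply Continuous.tendsto
    fun_prop
  have hle : vol (Sym Tet (1 / 4, 1 / 4, 1 / 4)) + 4 * ((1 / 2 : ℝ) ^ 3 * vol Tet) ≤ vol Tet := by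
    refine le_of_tendsto hlim ?_
    have h0 : ∀ᶠ r : ℝ in nhdsWithin (1 / 2 : ℝ) (Set.Iio (1 / 2)), 0 < r :=
      nhdsWithin_le_nhds (lt_mem_nhds (by norm_num))
    filter_upwards [h0, self_mem_nhdsWithin] with r hr hr'
    exact F1_vertex hr.le hr'
  linarith


theorem F1_image_vol (L : V3 →ₗ[ℝ] V3) (b : V3) (S : Set V3) :
    vol ((fun x => b + L x) '' S) = |LinearMap.det L| * vol S := by
  have h : (fun x => b + L x) '' S = (fun x => b + x) '' (L '' S) := by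
    rw [← image_comp]; rfl
  rw [h, vol_translate]
  unfold vol
  rw [Measure.addHaar_image_linearMap, ENNReal.toReal_mul, ENNReal.toReal_ofReal (abs_nonneg _)]

theorem F1_sym (L : V3 →ₗ[ℝ] V3) (b : V3) (h2 : ∀ x, b + L (b + L x) = x)
    (hT : ∀ x ∈ Tet, b + L x ∈ Tet) (c : V3) : vol (Sym Tet (b + L c)) = vol (Sym Tet c) := by
  have hTT : (fun x => b + L x) '' Tet = Tet := by
    apply Subset.antisymm
    · rintro _ ⟨x, hx, rfl⟩
      exact hT x hx
    · intro x hx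
      exact ⟨b + L x, hT x hx, h2 x⟩
  have hdet : |LinearMap.det L| = 1 := by
    have h := F1_image_vol L b Tet
    rw [hTT] at h
    have hp := F1_vol_tet_pos
    have h3 : vol Tet * (|LinearMap.det L| - 1) = 0 := by linarith
    rcases mul_eq_zero.1 h3 with h4 | h4
    · exact absurd h4 hp.ne'
    · linarith
  have hS : (fun x => b + L x) '' (Sym Tet c) = Sym Tet (b + L c) := by
    have hkey : ∀ x y : V3, (2 : ℝ) • (b + L x) - (b + L y) = b + L ((2 : ℝ) • x - y) := by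
      intro x y
      rw [map_sub, map_smul, smul_add, two_smul ℝ b]
      abel
    apply Subset.antisymm
    · rintro _ ⟨x, ⟨hx1, hx2⟩, rfl⟩
      refine ⟨hT x hx1, ?_⟩
      show (2 : ℝ) • (b + L c) - (b + L x) ∈ Tet
      rw [hkey]
      exact hT _ hx2
    · rintro x ⟨hx1, hx2⟩
      refine ⟨b + L x, ⟨hT x hx1, ?_⟩, h2 x⟩
      have h5 := hT _ hx2
      have h6 : (2 : ℝ) • c - (b + L x) = b + L ((2 : ℝ) • (b + L c) - x) := by
        rw [← hkey, h2]
      rw [h6]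
      exact h5
  rw [← hS, F1_image_vol, hdet, one_mul]

theorem F1_isCompact_sym (c : V3) : IsCompact (Sym Tet c) := isCompact_sym F1_isCompact_tet c

theorem F1_step (L : V3 →ₗ[ℝ] V3) (b : V3) (h2 : ∀ x, b + L (b + L x) = x)
    (hT : ∀ x ∈ Tet, b + L x ∈ Tet) (c : V3) :
    vol (Sym Tet c) ≤ vol (Sym Tet ((1 / 2 : ℝ) • (c + (b + L c)))) := by
  refine bm3_mid (convex_sym F1_convex_tet c) (convex_sym F1_convex_tet (b + L c))
    (F1_isCompact_sym c) (F1_isCompact_sym _) (F1_isCompact_sym _) (F1_sym L b h2 hT c).symm ?_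
  rintro x ⟨hx1, hx2⟩ y ⟨hy1, hy2⟩
  have hm : ∀ u ∈ Tet, ∀ v ∈ Tet, (1 / 2 : ℝ) • (u + v) ∈ Tet := by
    intro u hu v hv
    rw [smul_add]
    exact F1_convex_tet hu hv (by norm_num) (by norm_num) (by norm_num)
  refine ⟨hm x hx1 y hy1, ?_⟩
  have h3 := hm _ hx2 _ hy2
  have h4 : (2 : ℝ) • (1 / 2 : ℝ) • (c + (b + L c)) - (1 / 2 : ℝ) • (x + y) =
      (1 / 2 : ℝ) • ((2 : ℝ) • c - x + ((2 : ℝ) • (b + L c) - y)) := by
    module
  rw [h4]
  exact h3

/-- exchange of the barycentric coordinates 0 and 1 -/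
def F1_L1 : V3 →ₗ[ℝ] V3 where
  toFun x := (-x.1 - x.2.1 - x.2.2, (x.2.1, x.2.2))
  map_add' x y := by
    ext <;> simp only [Prod.fst_add, Prod.snd_add] <;> ring
  map_smul' r x := by
    ext <;> simp only [Prod.smul_fst, Prod.smul_snd, smul_eq_mul, RingHom.id_apply] <;> ring

/-- exchange of the barycentric coordinates 2 and 3 -/
def F1_L2 : V3 →ₗ[ℝ] V3 where
  toFun x := (x.1, (x.2.2, x.2.1))
  map_add' x y := by
    ext <;> simp only [Prod.fst_add, Prod.snd_add]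
  map_smul' r x := by
    ext <;> simp only [Prod.smul_fst, Prod.smul_snd, smul_eq_mul, RingHom.id_apply]

/-- exchange of the pairs of coordinates -/
def F1_L3 : V3 →ₗ[ℝ] V3 where
  toFun x := (x.2.2, (-x.1 - x.2.1 - x.2.2, x.1))
  map_add' x y := by
    ext <;> simp only [Prod.fst_add, Prod.snd_add] <;> ring
  map_smul' r x := by
    ext <;> simp only [Prod.smul_fst, Prod.smul_snd, smul_eq_mul, RingHom.id_apply] <;> ring

theorem F1_tet_iff (a b c : ℝ) :
    ((a, (b, c)) : V3) ∈ Tet ↔ 0 ≤ a ∧ 0 ≤ b ∧ 0 ≤ c ∧ a + b + c ≤ 1 := Iff.rfl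

/-- The centroid is the best centre.
Proof: write `c₀ = 1 - c₁ - c₂ - c₃`.  If `c' ` arises from `c` by a permutation of the four
barycentric coordinates, `vol (Sym Tet c') = vol (Sym Tet c)` (the corresponding affine map
preserves `Tet` and volumes), and by `bm3_mid` `vol (Sym Tet c) ≤ vol (Sym Tet ((c+c')/2))`
(midpoints of points of `Sym Tet c` and `Sym Tet c'` lie in `Sym Tet ((c+c')/2)`).  Apply this
three times: exchange coordinates 0,1; then 2,3; then the double exchange (0 2)(1 3). -/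
theorem tet_all (c : V3) : 2 * vol (Sym Tet c) ≤ vol Tet := by
  obtain ⟨c1, c2, c3⟩ := c
  have s1 := F1_step F1_L1 (1, (0, 0)) (by
      rintro ⟨a, b, c⟩
      ext <;> simp [F1_L1] <;> ring) (by
      rintro ⟨a, b, c⟩ ⟨h1, h2, h3, h4⟩
      simp only at h1 h2 h3 h4
      refine ⟨?_, ?_, ?_, ?_⟩ <;> simp [F1_L1] <;> linarith) (c1, (c2, c3))
  have e1 : (1 / 2 : ℝ) • (((c1, (c2, c3)) : V3) + ((1, (0, 0)) + F1_L1 (c1, (c2, c3)))) =
      ((1 - c2 - c3) / 2, (c2, c3)) := by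
    ext <;> simp [F1_L1] <;> ring
  rw [e1] at s1
  have s2 := F1_step F1_L2 (0, (0, 0)) (by
      rintro ⟨a, b, c⟩
      ext <;> simp [F1_L2]) (by
      rintro ⟨a, b, c⟩ ⟨h1, h2, h3, h4⟩
      simp only at h1 h2 h3 h4
      refine ⟨?_, ?_, ?_, ?_⟩ <;> simp [F1_L2] <;> linarith) ((1 - c2 - c3) / 2, (c2, c3))
  have e2 : (1 / 2 : ℝ) • ((((1 - c2 - c3) / 2, (c2, c3)) : V3) +
      ((0, (0, 0)) + F1_L2 ((1 - c2 - c3) / 2, (c2, c3)))) =
      ((1 - c2 - c3) / 2, ((c2 + c3) / 2, (c2 + c3) / 2)) := by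
    ext <;> simp [F1_L2] <;> ring
  rw [e2] at s2
  have s3 := F1_step F1_L3 (0, (1, 0)) (by
      rintro ⟨a, b, c⟩
      ext <;> simp [F1_L3] <;> ring) (by
      rintro ⟨a, b, c⟩ ⟨h1, h2, h3, h4⟩
      simp only at h1 h2 h3 h4
      refine ⟨?_, ?_, ?_, ?_⟩ <;> simp [F1_L3] <;> linarith)
      ((1 - c2 - c3) / 2, ((c2 + c3) / 2, (c2 + c3) / 2))
  have e3 : (1 / 2 : ℝ) • ((((1 - c2 - c3) / 2, ((c2 + c3) / 2, (c2 + c3) / 2)) : V3) +
      ((0, (1, 0)) + F1_L3 ((1 - c2 - c3) / 2, ((c2 + c3) / 2, (c2 + c3) / 2)))) =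
      (1 / 4, (1 / 4, 1 / 4)) := by
    ext <;> simp [F1_L3] <;> ring
  rw [e3] at s3
  have h := tet_centroid
  linarith


/-- the parametrisation of space by the edges at the first vertex -/
theorem F1_basis (p : Fin 4 → EuclideanSpace ℝ (Fin 3)) (hp : AffineIndependent ℝ p) :
    ∃ L : V3 ≃L[ℝ] EuclideanSpace ℝ (Fin 3), ∀ x : V3,
      L x = x.1 • (p 1 - p 0) + x.2.1 • (p 2 - p 0) + x.2.2 • (p 3 - p 0) := by
  let T : V3 →ₗ[ℝ] EuclideanSpace ℝ (Fin 3) :=
    { toFun := fun x => x.1 • (p 1 - p 0) + x.2.1 • (p 2 - p 0) + x.2.2 • (p 3 - p 0)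
      map_add' := by
        intro x y
        simp only [Prod.fst_add, Prod.snd_add, add_smul]
        abel
      map_smul' := by
        intro r x
        simp only [Prod.smul_fst, Prod.smul_snd, smul_eq_mul, RingHom.id_apply, smul_add,
          mul_smul] }
  have hinj : Function.Injective T := by
    rw [injective_iff_map_eq_zero]
    intro x hx
    have hx' : x.1 • (p 1 - p 0) + x.2.1 • (p 2 - p 0) + x.2.2 • (p 3 - p 0) = 0 := hx
    rw [affineIndependent_iff] at hp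
    have h := hp Finset.univ ![-(x.1 + x.2.1 + x.2.2), x.1, x.2.1, x.2.2]
      (by simp [Fin.sum_univ_four]; ring) (by
        simp only [Fin.sum_univ_four, Matrix.cons_val_zero, Matrix.cons_val_one,
          Matrix.cons_val]
        rw [← hx']
        module)
    have h1 := h 1 (Finset.mem_univ _)
    have h2 := h 2 (Finset.mem_univ _)
    have h3 := h 3 (Finset.mem_univ _)
    simp only [Matrix.cons_val_one, Matrix.cons_val] at h1 h2 h3
    ext
    · exact h1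
    · exact h2
    · exact h3
  have hfin : Module.finrank ℝ V3 = Module.finrank ℝ (EuclideanSpace ℝ (Fin 3)) := by
    simp [V3]
  let L := (LinearEquiv.ofInjectiveOfFinrankEq T hinj hfin).toContinuousLinearEquiv
  refine ⟨L, fun x => ?_⟩
  rfl

theorem F1_hull (p : Fin 4 → EuclideanSpace ℝ (Fin 3)) (L : V3 ≃L[ℝ] EuclideanSpace ℝ (Fin 3))
    (hL : ∀ x : V3, L x = x.1 • (p 1 - p 0) + x.2.1 • (p 2 - p 0) + x.2.2 • (p 3 - p 0)) :
    convexHull ℝ (Set.range p) = (fun x => p 0 + L x) '' Tet := by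
  apply Subset.antisymm
  · apply convexHull_min
    · rintro _ ⟨i, rfl⟩
      fin_cases i
      · exact ⟨(0, (0, 0)), ⟨le_rfl, le_rfl, le_rfl, by norm_num⟩, by simp [hL]⟩
      · exact ⟨(1, (0, 0)), ⟨by norm_num, le_rfl, le_rfl, by norm_num⟩, by simp [hL]⟩
      · exact ⟨(0, (1, 0)), ⟨le_rfl, by norm_num, le_rfl, by norm_num⟩, by simp [hL]⟩
      · exact ⟨(0, (0, 1)), ⟨le_rfl, le_rfl, by norm_num, by norm_num⟩, by simp [hL]⟩
    · have h1 : (fun x => p 0 + L x) '' Tet = (fun y => p 0 + y) '' (L '' Tet) := by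
        rw [← image_comp]; rfl
      rw [h1]
      exact (F1_convex_tet.is_linear_image L.toLinearEquiv.toLinearMap.isLinear).translate (p 0)
  · rintro _ ⟨x, ⟨h1, h2, h3, h4⟩, rfl⟩
    have hp : ∀ i, p i ∈ convexHull ℝ (Set.range p) := fun i =>
      subset_convexHull ℝ _ ⟨i, rfl⟩
    have hconv : Convex ℝ (convexHull ℝ (Set.range p)) := convex_convexHull ℝ _
    have h5 := hconv.sum_mem (t := Finset.univ)
      (w := ![1 - (x.1 + x.2.1 + x.2.2), x.1, x.2.1, x.2.2]) (z := p) (by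
        intro i _
        fin_cases i
        · simp; linarith
        · simpa using h1
        · simpa using h2
        · simpa using h3) (by simp [Fin.sum_univ_four]; ring) (fun i _ => hp i)
    have h6 : (fun x => p 0 + L x) x = ∑ i, (![1 - (x.1 + x.2.1 + x.2.2), x.1, x.2.1, x.2.2] : Fin 4 → ℝ) i • p i := by
      simp only [Fin.sum_univ_four, Matrix.cons_val_zero, Matrix.cons_val_one,
          Matrix.cons_val, hL]
      module
    rw [h6]
    exact h5

theorem F1_measure (L : V3 ≃L[ℝ] EuclideanSpace ℝ (Fin 3)) (b : EuclideanSpace ℝ (Fin 3)) :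
    ∃ κ : ENNReal, ∀ S : Set V3, MeasureTheory.volume ((fun x => b + L x) '' S) = κ * volume S := by
  have h1 : (Measure.map L.symm (volume : Measure (EuclideanSpace ℝ (Fin 3)))).IsAddHaarMeasure :=
    L.symm.isAddHaarMeasure_map volume
  have h2 := Measure.isAddLeftInvariant_eq_smul
    (Measure.map L.symm (volume : Measure (EuclideanSpace ℝ (Fin 3)))) (volume : Measure V3)
  refine ⟨(Measure.addHaarScalarFactor (Measure.map L.symm
    (volume : Measure (EuclideanSpace ℝ (Fin 3)))) (volume : Measure V3) : ENNReal), fun S => ?_⟩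
  have h3 : (fun x => b + L x) '' S = (fun y => b + y) '' (L '' S) := by
    rw [← image_comp]; rfl
  have h4 : (L '' S) = L.symm ⁻¹' S := L.image_eq_preimage_symm S
  rw [h3, Set.image_add_left, measure_preimage_add, h4]
  have h5 : (Measure.map L.symm (volume : Measure (EuclideanSpace ℝ (Fin 3)))) S =
      volume (L.symm ⁻¹' S) :=
    (L.symm.toHomeomorph.toMeasurableEquiv).map_apply S
  rw [← h5]
  exact congrArg (fun m : Measure V3 => m S) h2

/-- The second part of the statement `S12659`.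
Proof: an affine equivalence maps `p i` to the vertices of `Tet` and multiplies volumes by a
constant (Haar measures are proportional); a convex `C` symmetric about `c` is mapped into
`Sym Tet c'`.  (If `C` is empty the claim is trivial; `C` need not be measurable, monotonicity of
the measure is enough.) -/
theorem tetrahedron_part :
    ∀ p : Fin 4 → EuclideanSpace ℝ (Fin 3), AffineIndependent ℝ p →
      ∀ C : Set (EuclideanSpace ℝ (Fin 3)), C ⊆ convexHull ℝ (Set.range p) → Convex ℝ C →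
        (∃ c : EuclideanSpace ℝ (Fin 3), ∀ x ∈ C, (2 : ℝ) • c - x ∈ C) →
        2 * MeasureTheory.volume C ≤ MeasureTheory.volume (convexHull ℝ (Set.range p)) := by
  intro p hp C hC _ hc
  obtain ⟨c, hc⟩ := hc
  obtain ⟨L, hL⟩ := F1_basis p hp
  have hull := F1_hull p L hL
  obtain ⟨κ, hκ⟩ := F1_measure L (p 0)
  set c' : V3 := L.symm (c - p 0) with hc'
  have hcc : p 0 + L c' = c := by rw [hc', L.apply_symm_apply]; abel
  have hsub : C ⊆ (fun x => p 0 + L x) '' (Sym Tet c') := by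
    intro x hx
    have hx1 := hC hx
    rw [hull] at hx1
    obtain ⟨y, hy, rfl⟩ := hx1
    refine ⟨y, ⟨hy, ?_⟩, rfl⟩
    have hx2 := hC (hc _ hx)
    rw [hull] at hx2
    obtain ⟨z, hz, hz'⟩ := hx2
    have h1 : z = (2 : ℝ) • c' - y := by
      apply L.injective
      have h2 : p 0 + L z = (2 : ℝ) • c - (p 0 + L y) := hz'
      rw [← hcc] at h2
      rw [map_sub, map_smul]
      have h3 : L z = (2 : ℝ) • (p 0 + L c') - (p 0 + L y) - p 0 := by
        rw [← h2]; abel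
      rw [h3]
      module
    rw [← h1]
    exact hz
  have h1 : MeasureTheory.volume C ≤ κ * volume (Sym Tet c') := by
    rw [← hκ]
    exact measure_mono hsub
  have h2 : 2 * volume (Sym Tet c') ≤ volume Tet := by
    have h3 := tet_all c'
    have f1 : volume (Sym Tet c') ≠ ⊤ := (F1_isCompact_sym c').measure_lt_top.ne
    have f2 : volume Tet ≠ ⊤ := F1_isCompact_tet.measure_lt_top.ne
    unfold vol at h3
    rw [← ENNReal.toReal_le_toReal (ENNReal.mul_ne_top (by norm_num) f1) f2, ENNReal.toReal_mul]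
    simpa using h3
  rw [hull, hκ]
  calc 2 * MeasureTheory.volume C ≤ 2 * (κ * volume (Sym Tet c')) := by gcongr
    _ = κ * (2 * volume (Sym Tet c')) := by ring
    _ ≤ κ * volume Tet := by gcongr

end Pool.Agent.H48.OR
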