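import Pool.Agent.H48.OR.E3
import Pool.Agent.H48.OR.F1

/-!
# Assembly: the statement S12659 from the planar inequality with constant 3
-/

set_option autoImplicit false

namespace Pool.Agent.H48.OR

open MeasureTheory Set

theorem main_of_planar (hP : PlanarIneq 3) :
    (∀ K : Set (EuclideanSpace ℝ (Fin 3)), IsCompact K → Convex ℝ K → (interior K).Nonempty →
      ∃ C : Set (EuclideanSpace ℝ (Fin 3)), C ⊆ K ∧ Convex ℝ C ∧ IsCompact C ∧
        (interior C).Nonempty ∧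
        (∃ c : EuclideanSpace ℝ (Fin 3), ∀ x ∈ C, (2 : ℝ) • c - x ∈ C) ∧
        MeasureTheory.volume K ≤ 2 * MeasureTheory.volume C) ∧
    (∀ p : Fin 4 → EuclideanSpace ℝ (Fin 3), AffineIndependent ℝ p →
      ∀ C : Set (EuclideanSpace ℝ (Fin 3)), C ⊆ convexHull ℝ (Set.range p) → Convex ℝ C →
        (∃ c : EuclideanSpace ℝ (Fin 3), ∀ x ∈ C, (2 : ℝ) • c - x ∈ C) →
        2 * MeasureTheory.volume C ≤ MeasureTheory.volume (convexHull ℝ (Set.range p))) := by
  refine ⟨fun K hKc hK hKi => ?_, tetrahedron_part⟩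
  obtain ⟨C, h1, h2, h3, h4, h5, h6⟩ := euclid_main (κ := 3) (by norm_num) hP K hKc hK hKi
  refine ⟨C, h1, h2, h3, h4, h5, ?_⟩
  have h : ENNReal.ofReal ((1 + 3) / 2) = 2 := by
    rw [show ((1 : ℝ) + 3) / 2 = 2 by norm_num]
    simp
  rwa [h] at h6

end Pool.Agent.H48.OR
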